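import Mathlib
import Pool.Agent.T2H03.YM.Chain

/-!
# Surfaces with coefficients in a field and their boundaries
-/

set_option autoImplicit false
set_option linter.unusedSectionVars false

open Relation

namespace Pool.Agent.T2H03.AL

open Pool.Agent.T2H03.YM

variable {d : ℕ} {F : Type*} [Field F]

/-- the coboundary of a function on the links -/
def da (a : Lk d → F) (p : Pq d) : F :=
  a (p.1, p.2.1) + a (p.1 + e p.2.1, p.2.2) - a (p.1 + e p.2.2, p.2.1) - a (p.1, p.2.2)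

/-- the boundary of a function on the plaquettes -/
def bdy (n : Pq d → F) (l : Lk d) : F :=
  ∑ j, (n (l.1, l.2, j) - n (l.1 - e j, l.2, j)) - ∑ j, (n (l.1, j, l.2) - n (l.1 - e j, j, l.2))

theorem pair_aux (φ : Lk d × Fin d ≃ Pq d) (S : Finset (Pq d)) (L : Finset (Lk d))
    (hL : ∀ p ∈ S, (φ.symm p).1 ∈ L) (n : Pq d → F) (hn : ∀ p, p ∉ S → n p = 0) (a : Lk d → F) :
    ∑ p ∈ S, n p * a (φ.symm p).1 = ∑ l ∈ L, a l * ∑ j, n (φ (l, j)) := by
  classical
  have h1 : ∑ l ∈ L, a l * ∑ j, n (φ (l, j)) =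
      ∑ x ∈ L ×ˢ (Finset.univ : Finset (Fin d)), a x.1 * n (φ x) := by
    rw [Finset.sum_product]
    exact Finset.sum_congr rfl fun l _ => Finset.mul_sum _ _ _
  have h2 : ∑ p ∈ S, n p * a (φ.symm p).1 =
      ∑ x ∈ S.map φ.symm.toEmbedding, a x.1 * n (φ x) := by
    rw [Finset.sum_map]
    refine Finset.sum_congr rfl fun p _ => ?_
    simp [mul_comm]
  rw [h1, h2]
  refine Finset.sum_subset ?_ ?_
  · intro x hx
    rw [Finset.mem_map] at hx
    obtain ⟨p, hp, rfl⟩ := hx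
    simp only [Finset.mem_product, Finset.mem_univ, and_true]
    exact hL p hp
  · intro x _ hx
    rw [hn (φ x), mul_zero]
    intro h
    apply hx
    rw [Finset.mem_map]
    exact ⟨φ x, h, by simp⟩

/-- the plaquettes of which the link is the first one -/
def E1 (d : ℕ) : Lk d × Fin d ≃ Pq d where
  toFun x := (x.1.1, x.1.2, x.2)
  invFun p := ((p.1, p.2.1), p.2.2)
  left_inv _ := rfl
  right_inv _ := rfl

/-- the plaquettes of which the link is the second one -/
def E2 (d : ℕ) : Lk d × Fin d ≃ Pq d where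
  toFun x := (x.1.1 - e x.2, x.2, x.1.2)
  invFun p := ((p.1 + e p.2.1, p.2.2), p.2.1)
  left_inv x := by simp
  right_inv p := by simp

/-- the plaquettes of which the link is the third one -/
def E3 (d : ℕ) : Lk d × Fin d ≃ Pq d where
  toFun x := (x.1.1 - e x.2, x.1.2, x.2)
  invFun p := ((p.1 + e p.2.2, p.2.1), p.2.2)
  left_inv x := by simp
  right_inv p := by simp

/-- the plaquettes of which the link is the fourth one -/
def E4 (d : ℕ) : Lk d × Fin d ≃ Pq d where
  toFun x := (x.1.1, x.2, x.1.2)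
  invFun p := ((p.1, p.2.2), p.2.1)
  left_inv _ := rfl
  right_inv _ := rfl

/-- the pairing of a surface with a coboundary -/
theorem pair (S : Finset (Pq d)) (L : Finset (Lk d)) (hL : ∀ p ∈ S, ∀ l ∈ bd p, l ∈ L)
    (n : Pq d → F) (hn : ∀ p, p ∉ S → n p = 0) (a : Lk d → F) :
    ∑ p ∈ S, n p * da a p = ∑ l ∈ L, a l * bdy n l := by
  have h1 := pair_aux (E1 d) S L (fun p hp => hL p hp _ (by simp [E1, bd])) n hn a
  have h2 := pair_aux (E2 d) S L (fun p hp => hL p hp _ (by simp [E2, bd])) n hn a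
  have h3 := pair_aux (E3 d) S L (fun p hp => hL p hp _ (by simp [E3, bd])) n hn a
  have h4 := pair_aux (E4 d) S L (fun p hp => hL p hp _ (by simp [E4, bd])) n hn a
  have e1 : ∑ p ∈ S, n p * da a p = ∑ p ∈ S, n p * a ((E1 d).symm p).1 +
      ∑ p ∈ S, n p * a ((E2 d).symm p).1 - ∑ p ∈ S, n p * a ((E3 d).symm p).1 -
      ∑ p ∈ S, n p * a ((E4 d).symm p).1 := by
    rw [← Finset.sum_add_distrib, ← Finset.sum_sub_distrib, ← Finset.sum_sub_distrib]
    refine Finset.sum_congr rfl fun p _ => ?_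
    simp only [da, E1, E2, E3, E4, Equiv.coe_fn_symm_mk]
    ring
  rw [e1, h1, h2, h3, h4, ← Finset.sum_add_distrib, ← Finset.sum_sub_distrib,
    ← Finset.sum_sub_distrib]
  refine Finset.sum_congr rfl fun l _ => ?_
  simp only [bdy, E1, E2, E3, E4, Equiv.coe_fn_mk, Finset.sum_sub_distrib]
  ring

theorem bdy_congr {n n' : Pq d → F} {l : Lk d} (h : ∀ p, l ∈ bd p → n p = n' p) :
    bdy n l = bdy n' l := by
  unfold bdy
  congr 1
  · refine Finset.sum_congr rfl fun j _ => ?_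
    rw [h (l.1, l.2, j) (by simp [bd]), h (l.1 - e j, l.2, j) (by simp [bd])]
  · refine Finset.sum_congr rfl fun j _ => ?_
    rw [h (l.1, j, l.2) (by simp [bd]), h (l.1 - e j, j, l.2) (by simp [bd])]

theorem bdy_zero {n : Pq d → F} {l : Lk d} (h : ∀ p, l ∈ bd p → n p = 0) : bdy n l = 0 := by
  rw [bdy_congr (n' := fun _ => 0) h]
  simp [bdy]

theorem bdy_sub_smul (n σ : Pq d → F) (c : F) (l : Lk d) :
    bdy (fun p => n p - c * σ p) l = bdy n l - c * bdy σ l := by
  unfold bdy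
  simp only [Finset.sum_sub_distrib, ← Finset.mul_sum]
  ring

open Classical in
/-- the mixed plaquettes of a surface -/
noncomputable def Ym (m : Fin d → Fin d) (S : Finset (Pq d)) (n : Pq d → F) : Finset (Pq d) :=
  S.filter fun p => n p ≠ 0 ∧ m p.2.1 ≠ p.2.2

open Classical in
/-- the plaquettes of a surface -/
noncomputable def Ya (S : Finset (Pq d)) (n : Pq d → F) : Finset (Pq d) :=
  S.filter fun p => n p ≠ 0

open Classical in
/-- the sheet plaquettes of a surface -/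
noncomputable def Ys (m : Fin d → Fin d) (S : Finset (Pq d)) (n : Pq d → F) : Finset (Pq d) :=
  S.filter fun p => n p ≠ 0 ∧ m p.2.1 = p.2.2

theorem mem_Ym {m : Fin d → Fin d} {S : Finset (Pq d)} {n : Pq d → F} {p : Pq d} :
    p ∈ Ym m S n ↔ p ∈ S ∧ n p ≠ 0 ∧ m p.2.1 ≠ p.2.2 := by
  simp [Ym]

theorem mem_Ya {S : Finset (Pq d)} {n : Pq d → F} {p : Pq d} :
    p ∈ Ya S n ↔ p ∈ S ∧ n p ≠ 0 := by
  simp [Ya]

theorem mem_Ys {m : Fin d → Fin d} {S : Finset (Pq d)} {n : Pq d → F} {p : Pq d} :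
    p ∈ Ys m S n ↔ p ∈ S ∧ n p ≠ 0 ∧ m p.2.1 = p.2.2 := by
  simp [Ys]

section jump

variable {m : Fin d → Fin d} (hm : ∀ i, m (m i) = i) {S : Finset (Pq d)}
  (hS : ∀ p ∈ S, p.2.1 < p.2.2) {n : Pq d → F} (hn : ∀ p, p ∉ S → n p = 0)

include hm hS hn

theorem bdy_lt {y : V d} {k : Fin d} (hk : k < m k) (h : ∀ p ∈ Ym m S n, (y, k) ∉ bd p) :
    bdy n (y, k) = n (y, k, m k) - n (y - e (m k), k, m k) := by
  have z : ∀ p : Pq d, (y, k) ∈ bd p → m p.2.1 ≠ p.2.2 → n p = 0 := by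
    intro p hp hmp
    by_contra h1
    exact h p (mem_Ym.2 ⟨by_contra fun h2 => h1 (hn p h2), h1, hmp⟩) hp
  have z2 : ∀ p : Pq d, ¬ p.2.1 < p.2.2 → n p = 0 := fun p hp => hn p fun h2 => hp (hS p h2)
  unfold bdy
  simp only
  have s1 : ∑ j, (n (y, k, j) - n (y - e j, k, j)) = n (y, k, m k) - n (y - e (m k), k, m k) := by
    refine Finset.sum_eq_single_of_mem (m k) (Finset.mem_univ _) fun j _ hj => ?_
    rw [z (y, k, j) (by simp [bd]) hj.symm, z (y - e j, k, j) (by simp [bd]) hj.symm, sub_zero]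
  have s2 : ∑ j, (n (y, j, k) - n (y - e j, j, k)) = 0 := by
    refine Finset.sum_eq_zero fun j _ => ?_
    by_cases hj : j < k
    · have hmj : m j ≠ k := by
        intro h1
        have h2 : j = m k := by rw [← h1, hm]
        rw [h2] at hj
        exact absurd hk (not_lt.2 hj.le)
      rw [z (y, j, k) (by simp [bd]) hmj, z (y - e j, j, k) (by simp [bd]) hmj, sub_zero]
    · rw [z2 (y, j, k) hj, z2 (y - e j, j, k) hj, sub_zero]
  rw [s1, s2, sub_zero]

theorem bdy_gt {y : V d} {k : Fin d} (hk : m k < k) (h : ∀ p ∈ Ym m S n, (y, k) ∉ bd p) :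
    bdy n (y, k) = - (n (y, m k, k) - n (y - e (m k), m k, k)) := by
  have z : ∀ p : Pq d, (y, k) ∈ bd p → m p.2.1 ≠ p.2.2 → n p = 0 := by
    intro p hp hmp
    by_contra h1
    exact h p (mem_Ym.2 ⟨by_contra fun h2 => h1 (hn p h2), h1, hmp⟩) hp
  have z2 : ∀ p : Pq d, ¬ p.2.1 < p.2.2 → n p = 0 := fun p hp => hn p fun h2 => hp (hS p h2)
  unfold bdy
  simp only
  have s1 : ∑ j, (n (y, k, j) - n (y - e j, k, j)) = 0 := by
    refine Finset.sum_eq_zero fun j _ => ?_
    by_cases hj : k < j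
    · have hmj : m k ≠ j := fun h1 => absurd hk (by rw [h1]; exact not_lt.2 hj.le)
      rw [z (y, k, j) (by simp [bd]) hmj, z (y - e j, k, j) (by simp [bd]) hmj, sub_zero]
    · rw [z2 (y, k, j) hj, z2 (y - e j, k, j) hj, sub_zero]
  have s2 : ∑ j, (n (y, j, k) - n (y - e j, j, k)) = n (y, m k, k) - n (y - e (m k), m k, k) := by
    refine Finset.sum_eq_single_of_mem (m k) (Finset.mem_univ _) fun j _ hj => ?_
    have hmj : m j ≠ k := by
      intro h1
      exact hj (by rw [← h1, hm])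
    rw [z (y, j, k) (by simp [bd]) hmj, z (y - e j, j, k) (by simp [bd]) hmj, sub_zero]
  rw [s1, s2, zero_sub]

omit hS hn in
/-- the sheet plaquettes which contain a link -/
theorem sheet_lt {y : V d} {k : Fin d} (hk : k < m k) {p : Pq d} (hp : Sheet m p)
    (hl : (y, k) ∈ bd p) : p = (y, k, m k) ∨ p = (y - e (m k), k, m k) := by
  have h1 := sheet_bd hm hp hl hk rfl (Or.inl rfl)
  obtain ⟨x, ij⟩ := p
  simp only at h1
  subst h1
  rw [mem_bd] at hl
  simp only [Prod.mk.injEq] at hl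
  rcases hl with ⟨h, -⟩ | ⟨h, h'⟩ | ⟨h, -⟩ | ⟨h, h'⟩
  · left; rw [h]
  · exact absurd h' hk.ne
  · right; rw [h, add_sub_cancel_right]
  · exact absurd h' hk.ne

omit hS hn in
theorem sheet_gt {y : V d} {k : Fin d} (hk : m k < k) {p : Pq d} (hp : Sheet m p)
    (hl : (y, k) ∈ bd p) : p = (y, m k, k) ∨ p = (y - e (m k), m k, k) := by
  have h1 := sheet_bd hm hp hl hk (hm k) (Or.inr rfl)
  obtain ⟨x, ij⟩ := p
  simp only at h1
  subst h1
  rw [mem_bd] at hl
  simp only [Prod.mk.injEq] at hl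
  rcases hl with ⟨h, h'⟩ | ⟨h, -⟩ | ⟨h, h'⟩ | ⟨h, -⟩
  · exact absurd h' hk.ne'
  · right; rw [h, add_sub_cancel_right]
  · exact absurd h' hk.ne'
  · left; rw [h]

/-- without mixed plaquettes at a link the sheet continues -/
theorem sheet_eq {l : Lk d} (h : ∀ p ∈ Ym m S n, l ∉ bd p) (h0 : bdy n l = 0) {p p' : Pq d}
    (hp : Sheet m p) (hp' : Sheet m p') (hl : l ∈ bd p) (hl' : l ∈ bd p') : n p = n p' := by
  obtain ⟨y, k⟩ := l
  rcases lt_trichotomy k (m k) with hk | hk | hk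
  · have h1 := bdy_lt hm hS hn hk h
    rw [h0] at h1
    have h2 : n (y, k, m k) = n (y - e (m k), k, m k) := (sub_eq_zero.1 h1.symm)
    rcases sheet_lt hm hk hp hl with rfl | rfl <;> rcases sheet_lt hm hk hp' hl' with rfl | rfl
    · rfl
    · exact h2
    · exact h2.symm
    · rfl
  · exfalso
    obtain ⟨x, i, j⟩ := p
    obtain ⟨h1, h2⟩ := hp
    simp only at h1 h2
    rw [mem_bd] at hl
    simp only [Prod.mk.injEq] at hl
    have hkij : k = i ∨ k = j := by
      rcases hl with ⟨-, h⟩ | ⟨-, h⟩ | ⟨-, h⟩ | ⟨-, h⟩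
      · exact Or.inl h
      · exact Or.inr h
      · exact Or.inl h
      · exact Or.inr h
    rcases hkij with h3 | h3
    · subst h3
      rw [← hk] at h2
      exact h1.ne h2
    · subst h3
      have h4 : m k = i := by rw [← h2, hm]
      rw [h4] at hk
      exact h1.ne hk.symm
  · have h1 := bdy_gt hm hS hn hk h
    rw [h0] at h1
    have h2 : n (y, m k, k) = n (y - e (m k), m k, k) := sub_eq_zero.1 (neg_eq_zero.1 h1.symm)
    rcases sheet_gt hm hk hp hl with rfl | rfl <;> rcases sheet_gt hm hk hp' hl' with rfl | rfl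
    · rfl
    · exact h2
    · exact h2.symm
    · rfl

end jump

end Pool.Agent.T2H03.AL
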