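import Mathlib
import Pool.Agent.T2H03.AL.Bdy

/-!
# Planar fillings with coefficients
-/

set_option autoImplicit false
set_option linter.unusedSectionVars false

open Relation

namespace Pool.Agent.T2H03.AL

open Pool.Agent.T2H03.YM

section planar

variable {d : ℕ} {F : Type*} [Field F] {K : Type*} {a b : Fin d} (hab : a ≠ b) (f : V d → F)
  (R : ℤ) (c : V d → K) (co : K → F)

/-- the gradient of `f` with the coefficients `co` of the labels -/
def grc (b : Fin d) (f : V d → F) (c : V d → K) (co : K → F) (y : V d) : F :=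
  co (c y) * (f y - f (y - e b))

/-- the filling of the loops with the coefficients `co` -/
def flc (b : Fin d) (f : V d → F) (R : ℤ) (c : V d → K) (co : K → F) (x : V d) : F :=
  - ∑ n ∈ Finset.range (R - x b).toNat, grc b f c co (x + ((n : ℤ) + 1) • e b)

theorem flc_diff (hR : ∀ y, R ≤ y b → f y = 0) (x : V d) :
    flc b f R c co x - flc b f R c co (x - e b) = grc b f c co x := by
  unfold flc
  have e1 : (x - e b) b = x b - 1 := by simp [e_same]
  rw [e1]
  by_cases hx : x b ≤ R
  · have e2 : (R - (x b - 1)).toNat = (R - x b).toNat + 1 := by omega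
    rw [e2, Finset.sum_range_succ']
    have e3 : ∀ n : ℕ, x - e b + (((n + 1 : ℕ) : ℤ) + 1) • e b = x + ((n : ℤ) + 1) • e b := by
      intro n
      push_cast
      simp only [add_smul, one_smul]
      abel
    have e4 : x - e b + (((0 : ℕ) : ℤ) + 1) • e b = x := by
      simp
    rw [e4]
    simp only [e3]
    ring
  · have e2 : (R - (x b - 1)).toNat = 0 := by omega
    have e3 : (R - x b).toNat = 0 := by omega
    rw [e2, e3]
    simp only [Finset.range_zero, Finset.sum_empty, neg_zero, sub_zero]
    unfold grc
    have h1 : f x = 0 := hR x (by omega)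
    have h2 : f (x - e b) = 0 := hR _ (by rw [e1]; omega)
    rw [h1, h2]
    simp

include hab in
theorem flc_diff' (hR : ∀ y, R ≤ y b → f y = 0)
    (hc1 : ∀ y, f y ≠ f (y - e b) → c y = c (y + e a))
    (hc2 : ∀ y, f y ≠ f (y - e a) → c y = c (y + e b)) (x : V d) :
    flc b f R c co x - flc b f R c co (x - e a) = grc a f c co x := by
  classical
  have key : ∀ y, grc b f c co y - grc b f c co (y - e a) =
      grc a f c co y - grc a f c co (y - e b) := by
    intro y
    have k1 : grc b f c co (y - e a) = co (c y) * (f (y - e a) - f (y - e a - e b)) := by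
      unfold grc
      by_cases h : f (y - e a) = f (y - e a - e b)
      · rw [h]; simp
      · have := hc1 (y - e a) h
        rw [sub_add_cancel] at this
        rw [this]
    have k2 : grc a f c co (y - e b) = co (c y) * (f (y - e b) - f (y - e b - e a)) := by
      unfold grc
      by_cases h : f (y - e b) = f (y - e b - e a)
      · rw [h]; simp
      · have := hc2 (y - e b) h
        rw [sub_add_cancel] at this
        rw [this]
    rw [k1, k2]
    unfold grc
    have : y - e a - e b = y - e b - e a := by abel
    rw [this]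
    ring
  unfold flc
  have e1 : (x - e a) b = x b := by simp [e_ne hab]
  rw [e1]
  set N := (R - x b).toNat with hN
  have e2 : ∀ n : ℕ, grc b f c co (x + ((n : ℤ) + 1) • e b) -
      grc b f c co (x - e a + ((n : ℤ) + 1) • e b) =
      grc a f c co (x + ((n + 1 : ℕ) : ℤ) • e b) - grc a f c co (x + (n : ℤ) • e b) := by
    intro n
    have h1 : x - e a + ((n : ℤ) + 1) • e b = (x + ((n : ℤ) + 1) • e b) - e a := by abel
    rw [h1, key]
    congr 1
    congr 1
    rw [add_smul, one_smul]
    abel
  have e3 : ∑ n ∈ Finset.range N, (grc b f c co (x + ((n : ℤ) + 1) • e b) -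
      grc b f c co (x - e a + ((n : ℤ) + 1) • e b)) =
      grc a f c co (x + (N : ℤ) • e b) - grc a f c co x := by
    rw [Finset.sum_congr rfl (fun n _ => e2 n),
      Finset.sum_range_sub (fun n : ℕ => grc a f c co (x + (n : ℤ) • e b))]
    simp
  have e4 : grc a f c co (x + (N : ℤ) • e b) = 0 := by
    unfold grc
    have h1 : R ≤ (x + (N : ℤ) • e b) b := by
      simp only [Pi.add_apply, Pi.smul_apply, e_same, smul_eq_mul, mul_one]
      have := Int.self_le_toNat (R - x b)
      omega
    have h2 : R ≤ (x + (N : ℤ) • e b - e a) b := by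
      rw [Pi.sub_apply, e_ne hab, sub_zero]
      exact h1
    rw [hR _ h1, hR _ h2]
    simp
  rw [e4, Finset.sum_sub_distrib] at e3
  have e5 : ∑ n ∈ Finset.range N, grc b f c co (x + ((n : ℤ) + 1) • e b) =
      ∑ n ∈ Finset.range N, grc b f c co (x - e a + ((n : ℤ) + 1) • e b) - grc a f c co x := by
    rw [sub_eq_iff_eq_add] at e3
    rw [e3]
    ring
  rw [e5]
  ring

/-- the filling is linear in the coefficients -/
theorem flc_sum {ι : Type*} (L : Finset ι) (u : ι → F) (g : ι → K → F) (x : V d) :
    flc b f R c (fun κ => ∑ i ∈ L, u i * g i κ) x = ∑ i ∈ L, u i * flc b f R c (g i) x := by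
  unfold flc grc
  simp only [mul_neg, Finset.mul_sum, Finset.sum_neg_distrib, neg_inj, Finset.sum_mul]
  rw [Finset.sum_comm]
  refine Finset.sum_congr rfl fun i _ => Finset.sum_congr rfl fun n _ => by ring

theorem flc_zero (x : V d) (h : ∀ k : ℕ, f (x + (k : ℤ) • e b) = 0) : flc b f R c co x = 0 := by
  unfold flc
  rw [neg_eq_zero]
  refine Finset.sum_eq_zero fun n _ => ?_
  unfold grc
  have h1 : f (x + ((n : ℤ) + 1) • e b) = 0 := by
    have := h (n + 1)
    push_cast at this
    exact this
  have h2 : x + ((n : ℤ) + 1) • e b - e b = x + (n : ℤ) • e b := by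
    rw [add_smul, one_smul]
    abel
  rw [h1, h2, h n]
  simp

include hab in
/-- a filling with the coefficients of one label is supported by trapped cells -/
theorem flc_trap [DecidableEq K] (hR : ∀ y, (R ≤ y a ∨ R ≤ y b) → f y = 0)
    (hc1 : ∀ y, f y ≠ f (y - e b) → c y = c (y + e a))
    (hc2 : ∀ y, f y ≠ f (y - e a) → c y = c (y + e b)) (κ : K) (x : V d)
    (hx : flc b f R c (fun κ' => if κ' = κ then 1 else 0) x ≠ 0) : Trap a b c κ x := by
  classical
  set co : K → F := fun κ' => if κ' = κ then 1 else 0 with hco
  have hRb : ∀ y, R ≤ y b → f y = 0 := fun y hy => hR y (Or.inr hy)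
  have hco0 : ∀ y, co (c y) ≠ 0 → c y = κ := by
    intro y h
    by_contra h1
    apply h
    simp only [hco]
    rw [if_neg h1]
  refine ⟨fun y => if flc b f R c co y = flc b f R c co x then 1 else 0, by simp, ?_, ?_, R + 1, ?_⟩
  · intro y hy
    have h1 : flc b f R c co y ≠ flc b f R c co (y - e b) := by
      intro h
      apply hy
      simp only [h]
    have h2 := flc_diff f R c co hRb y
    have h3 : grc b f c co y ≠ 0 := by rw [← h2]; exact sub_ne_zero.2 h1
    unfold grc at h3
    have h4 := hco0 y (left_ne_zero_of_mul h3)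
    exact ⟨h4, (hc1 y (sub_ne_zero.1 (right_ne_zero_of_mul h3))) ▸ h4⟩
  · intro y hy
    have h1 : flc b f R c co y ≠ flc b f R c co (y - e a) := by
      intro h
      apply hy
      simp only [h]
    have h2 := flc_diff' hab f R c co hRb hc1 hc2 y
    have h3 : grc a f c co y ≠ 0 := by rw [← h2]; exact sub_ne_zero.2 h1
    unfold grc at h3
    have h4 := hco0 y (left_ne_zero_of_mul h3)
    exact ⟨h4, (hc2 y (sub_ne_zero.1 (right_ne_zero_of_mul h3))) ▸ h4⟩
  · intro y hy
    have h0 : flc b f R c co y = 0 := by
      refine flc_zero f R c co y fun k => ?_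
      apply hR
      rcases hy with hy | hy
      · left
        simp only [Pi.add_apply, Pi.smul_apply, e_ne hab.symm, smul_eq_mul, mul_zero, add_zero]
        omega
      · right
        simp only [Pi.add_apply, Pi.smul_apply, e_same, smul_eq_mul, mul_one]
        omega
    simp only [h0]
    rw [if_neg (Ne.symm hx)]

end planar

section surf

variable {d : ℕ} {F : Type*} [Field F] {m : Fin d → Fin d} (hm : ∀ i, m (m i) = i)
  {u v : V d} {n : Pq d → F}

/-- the plaquettes of the box with the corners `u`, `v` -/
noncomputable def Bx (u v : V d) : Finset (Pq d) :=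
  (Finset.Icc u v ×ˢ (Finset.univ : Finset (Fin d × Fin d))).filter fun p =>
    p.2.1 < p.2.2 ∧ p.1 + e p.2.1 + e p.2.2 ∈ Finset.Icc u v

theorem mem_Bx {u v : V d} {p : Pq d} : p ∈ Bx u v ↔ p.1 ∈ Finset.Icc u v ∧ p.2.1 < p.2.2 ∧
    p.1 + e p.2.1 + e p.2.2 ∈ Finset.Icc u v := by
  simp [Bx]

theorem Bx_lt {u v : V d} : ∀ p ∈ Bx u v, p.2.1 < p.2.2 := fun _ hp => (mem_Bx.1 hp).2.1

theorem Bx_iff {u v : V d} {x : V d} {i j : Fin d} (hij : i < j) :
    (x, i, j) ∈ Bx u v ↔ (∀ k, u k ≤ x k ∧ x k ≤ v k) ∧ x i + 1 ≤ v i ∧ x j + 1 ≤ v j := by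
  rw [mem_Bx]
  simp only [Finset.mem_Icc]
  constructor
  · rintro ⟨⟨h1, h2⟩, -, -, h4⟩
    refine ⟨fun k => ⟨h1 k, h2 k⟩, ?_, ?_⟩
    · have := h4 i
      simp only [Pi.add_apply, e_same, e_ne hij.ne'] at this
      omega
    · have := h4 j
      simp only [Pi.add_apply, e_same, e_ne hij.ne] at this
      omega
  · rintro ⟨h1, h2, h3⟩
    refine ⟨⟨fun k => (h1 k).1, fun k => (h1 k).2⟩, hij, fun k => ?_, fun k => ?_⟩
    · have a1 := (h1 k).1
      have a2 : 0 ≤ e i k := by
        unfold e
        rw [Pi.single_apply]
        split_ifs <;> omega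
      have a3 : 0 ≤ e j k := by
        unfold e
        rw [Pi.single_apply]
        split_ifs <;> omega
      simp only [Pi.add_apply]
      omega
    · simp only [Pi.add_apply]
      by_cases hki : k = i
      · subst hki
        rw [e_same, e_ne hij.ne']
        omega
      · by_cases hkj : k = j
        · subst hkj
          rw [e_same, e_ne hij.ne]
          omega
        · rw [e_ne (Ne.symm hki), e_ne (Ne.symm hkj)]
          have := (h1 k).2
          omega

variable {K : Type*} (c : V d → K) (co : K → F)

open Classical in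
/-- the surface in which the parts with the labels `κ` have the coefficients `co κ` -/
noncomputable def sg (m : Fin d → Fin d) (R : ℤ) (n : Pq d → F) (c : V d → K) (co : K → F)
    (p : Pq d) : F :=
  if p.2.1 < p.2.2 then
    (if m p.2.1 = p.2.2 then flc p.2.2 (fun y => n (y, p.2.1, p.2.2)) R c co p.1
      else co (c p.1) * n p) else 0

/-- the labels are constant along the links where the sheets jump -/
structure Lbl (m : Fin d → Fin d) (n : Pq d → F) (c : V d → K) : Prop where
  mix : ∀ p, n p ≠ 0 → m p.2.1 ≠ p.2.2 → ∀ w ∈ vt p, c w = c p.1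
  j1 : ∀ y i, i < m i → n (y, i, m i) ≠ n (y - e (m i), i, m i) → c y = c (y + e i)
  j2 : ∀ y i, i < m i → n (y, i, m i) ≠ n (y - e i, i, m i) → c y = c (y + e (m i))

variable (hn : ∀ p, p ∉ Bx u v → n p = 0) (hL : Lbl m n c) {R : ℤ} (hR : ∀ k, v k ≤ R)

include hn hR in
theorem n_R {y : V d} {i j : Fin d} (h : R ≤ y i ∨ R ≤ y j) : n (y, i, j) = 0 := by
  apply hn
  intro hy
  have hij : i < j := Bx_lt _ hy
  rw [Bx_iff hij] at hy
  have h1 := hR i
  have h2 := hR j
  omega

include hm hn hL hR in
theorem bdy_sg (l : Lk d) : bdy (sg m R n c co) l = co (c l.1) * bdy n l := by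
  obtain ⟨y, k⟩ := l
  unfold bdy
  simp only
  rw [mul_sub, Finset.mul_sum, Finset.mul_sum]
  have hlt : ∀ p : Pq d, ¬ p.2.1 < p.2.2 → n p = 0 := fun p hp => hn p fun h2 => hp (Bx_lt p h2)
  have hmix : ∀ p : Pq d, y ∈ vt p → m p.2.1 ≠ p.2.2 → sg m R n c co p = co (c y) * n p := by
    intro p hp hmp
    unfold sg
    split_ifs with h1
    · by_cases h0 : n p = 0
      · rw [h0]; ring
      · rw [hL.mix p h0 hmp y hp]
    · rw [hlt p h1]; ring
  congr 1
  · refine Finset.sum_congr rfl fun j _ => ?_
    by_cases hj : m k = j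
    · subst hj
      by_cases hk : k < m k
      · have e1 : ∀ z, sg m R n c co (z, k, m k) = flc (m k) (fun y => n (y, k, m k)) R c co z := by
          intro z
          unfold sg
          rw [if_pos hk, if_pos rfl]
        rw [e1, e1]
        exact flc_diff (fun y => n (y, k, m k)) R c co
          (fun y hy => n_R hn hR (Or.inr hy)) y
      · have e1 : ∀ z, sg m R n c co (z, k, m k) = 0 := by
          intro z
          unfold sg
          rw [if_neg hk]
        rw [e1, e1, hlt (y, k, m k) hk, hlt (y - e (m k), k, m k) hk]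
        ring
    · rw [hmix (y, k, j) (by simp [vt]) hj, hmix (y - e j, k, j) (by simp [vt]) hj]
      ring
  · refine Finset.sum_congr rfl fun j _ => ?_
    by_cases hj : m j = k
    · subst hj
      by_cases hk : j < m j
      · have e1 : ∀ z, sg m R n c co (z, j, m j) = flc (m j) (fun y => n (y, j, m j)) R c co z := by
          intro z
          unfold sg
          rw [if_pos hk, if_pos rfl]
        rw [e1, e1]
        exact flc_diff' hk.ne (fun y => n (y, j, m j)) R c co
          (fun y hy => n_R hn hR (Or.inr hy)) (fun z hz => hL.j1 z j hk hz)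
          (fun z hz => hL.j2 z j hk hz) y
      · have e1 : ∀ z, sg m R n c co (z, j, m j) = 0 := by
          intro z
          unfold sg
          rw [if_neg hk]
        rw [e1, e1, hlt (y, j, m j) hk, hlt (y - e j, j, m j) hk]
        ring
    · rw [hmix (y, j, k) (by simp [vt]) hj, hmix (y - e j, j, k) (by simp [vt]) hj]
      ring

include hn hL hR in
/-- the fillings stay in the box -/
theorem sg_out (p : Pq d) (hp : p ∉ Bx u v) : sg m R n c co p = 0 := by
  obtain ⟨x, i, j⟩ := p
  unfold sg
  simp only
  split_ifs with h1 h2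
  · subst h2
    rw [Bx_iff h1] at hp
    set f : V d → F := fun y => n (y, i, m i) with hf
    have hf0 : ∀ y, f y ≠ 0 → (∀ k, u k ≤ y k ∧ y k ≤ v k) ∧ y i + 1 ≤ v i ∧
        y (m i) + 1 ≤ v (m i) := by
      intro y hy
      rw [← Bx_iff h1]
      by_contra h
      exact hy (hn _ h)
    have hcol : ∀ (z : V d) (k : ℕ) (q : Fin d), q ≠ m i → (z + (k : ℤ) • e (m i)) q = z q := by
      intro z k q hq
      simp [e_ne (Ne.symm hq)]
    -- the column is outside
    have hout : ∀ z : V d, ¬ ((∀ q, q ≠ m i → u q ≤ z q ∧ z q ≤ v q) ∧ z i + 1 ≤ v i) →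
        flc (m i) f R c co z = 0 := by
      intro z hz
      refine flc_zero f R c co z fun k => ?_
      by_contra h
      have h3 := hf0 _ h
      apply hz
      refine ⟨fun q hq => ?_, ?_⟩
      · have := h3.1 q
        rw [hcol z k q hq] at this
        exact this
      · have := h3.2.1
        rw [hcol z k i h1.ne] at this
        exact this
    by_cases hx : (∀ q, q ≠ m i → u q ≤ x q ∧ x q ≤ v q) ∧ x i + 1 ≤ v i
    · by_cases hx2 : x (m i) + 1 ≤ v (m i)
      · -- below the box
        have hx3 : x (m i) < u (m i) := by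
          by_contra h3
          apply hp
          refine ⟨fun k => ?_, hx.2, hx2⟩
          by_cases hk : k = m i
          · subst hk
            omega
          · exact hx.1 k hk
        have hst : ∀ t : ℕ, flc (m i) f R c co (x - (t : ℤ) • e i) = flc (m i) f R c co x := by
          intro t
          induction t with
          | zero => simp
          | succ t ih =>
            have h4 := flc_diff' h1.ne f R c co
              (fun y hy => n_R hn hR (Or.inr hy)) (fun z hz => hL.j1 z i h1 hz)
              (fun z hz => hL.j2 z i h1 hz) (x - (t : ℤ) • e i)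
            have h5 : ∀ z : V d, z (m i) < u (m i) → f z = 0 := by
              intro z hz
              by_contra h
              have := ((hf0 z h).1 (m i)).1
              omega
            have h6 : ∀ t : ℤ, (x - t • e i) (m i) = x (m i) := by
              intro t
              simp [e_ne h1.ne]
            have h7 : x - (t : ℤ) • e i - e i = x - ((t + 1 : ℕ) : ℤ) • e i := by
              push_cast
              rw [add_smul, one_smul]
              abel
            unfold grc at h4
            rw [h7, h5 _ (by rw [h6]; exact hx3), h5 _ (by rw [h6]; exact hx3), sub_self, mul_zero,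
              sub_eq_zero] at h4
            rw [← h4, ih]
        have hT : ∃ t : ℕ, x i - (t : ℤ) < u i := ⟨(x i - u i + 1).toNat, by omega⟩
        obtain ⟨t, ht⟩ := hT
        rw [← hst t]
        apply hout
        rintro ⟨h3, -⟩
        have h4 := (h3 i h1.ne).1
        simp only [Pi.sub_apply, Pi.smul_apply, e_same, smul_eq_mul, mul_one] at h4
        omega
      · refine flc_zero f R c co x fun k => ?_
        by_contra h
        have h3 := (hf0 _ h).2.2
        simp only [Pi.add_apply, Pi.smul_apply, e_same, smul_eq_mul, mul_one] at h3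
        omega
    · exact hout x hx
  · rw [hn _ hp, mul_zero]
  · rfl

end surf

end Pool.Agent.T2H03.AL
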