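import Mathlib
import Pool.Agent.T2H03.AL.Fill

/-!
# The exploration of a surface from its boundary
-/

set_option autoImplicit false
set_option linter.unusedSectionVars false

open Relation

namespace Pool.Agent.T2H03.AL

open Pool.Agent.T2H03.YM

variable {d : ℕ} {F : Type*} [Field F]

section defs

variable (m : Fin d → Fin d) (S : Finset (Pq d)) (VC : Finset (V d))

/-- the vertices of the mixed plaquettes of the surface and of the given set -/
noncomputable def Mv (n : Pq d → F) : Finset (V d) := VV (Ym m S n) VC ∅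

open Classical in
/-- all the vertices of the surface and of the given set -/
noncomputable def Av (n : Pq d → F) : Finset (V d) := (Ya S n).biUnion vt ∪ VC

/-- the labels of a surface -/
noncomputable abbrev lb (n : Pq d → F) (x : V d) : Lb (Ym m S n) VC ∅ := lab (Ym m S n) VC ∅ x

open Classical in
/-- the labels which have not yet been met -/
noncomputable def LD (D : Finset (V d)) (n : Pq d → F) : Finset (Lb (Ym m S n) VC ∅) :=
  ((Mv m S VC n).image (lb m S VC n)).filter fun κ =>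
    (∀ u ∈ VC, lb m S VC n u ≠ κ) ∧ ∀ u ∈ D, u ∈ Mv m S VC n → lb m S VC n u ≠ κ

open Classical in
/-- the information at a vertex -/
noncomputable def kv (w : V d) (n : Pq d → F) : Option (Pq d → F) :=
  if w ∈ Mv m S VC n then some (fun p => if w ∈ vt p then n p else 0) else none

open Classical in
/-- the weight of a surface -/
noncomputable def wg (η a : ℝ) (D : Finset (V d)) (n : Pq d → F) : ℝ :=
  η ^ (LD m S VC D n).card * a ^ (Mv m S VC n \ D).card *
    (1 - η) ^ ((Av S VC n \ Mv m S VC n) \ D).card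

/-- the vertex is in a part which has been met -/
def Tc (D : Finset (V d)) (n : Pq d → F) (x : V d) : Prop :=
  (∃ u ∈ VC, lb m S VC n u = lb m S VC n x) ∨
    ∃ u ∈ D, u ∈ Mv m S VC n ∧ lb m S VC n u = lb m S VC n x

open Classical in
/-- the surfaces which are explored: the surfaces with the boundary `C` which cannot be cut -/
structure Good (C : Lk d → F) (n : Pq d → F) : Prop where
  out : ∀ p, p ∉ S → n p = 0
  bd : ∀ l, bdy n l = C l
  min : ∀ X : Set (Pq d), (∀ l, bdy (fun p => if p ∈ X then n p else 0) l = C l) →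
    ∀ p, n p ≠ 0 → p ∈ X

end defs

variable {m : Fin d → Fin d} {S : Finset (Pq d)} {VC : Finset (V d)} {C : Lk d → F}

theorem mem_Mv {n : Pq d → F} {x : V d} :
    x ∈ Mv m S VC n ↔ (∃ p ∈ Ym m S n, x ∈ vt p) ∨ x ∈ VC := by
  classical
  unfold Mv VV
  simp

theorem mem_Av {n : Pq d → F} {x : V d} :
    x ∈ Av S VC n ↔ (∃ p ∈ Ya S n, x ∈ vt p) ∨ x ∈ VC := by
  classical
  unfold Av
  simp

theorem Mv_sub_Av {n : Pq d → F} {x : V d} (h : x ∈ Mv m S VC n) : x ∈ Av S VC n := by
  rw [mem_Mv] at h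
  rw [mem_Av]
  rcases h with ⟨p, hp, hx⟩ | h
  · left
    rw [mem_Ym] at hp
    exact ⟨p, mem_Ya.2 ⟨hp.1, hp.2.1⟩, hx⟩
  · exact Or.inr h

section weight

variable {η a : ℝ} {D : Finset (V d)} {n : Pq d → F} {x : V d}

theorem LD_out (hx : x ∉ Mv m S VC n) :
    LD m S VC (insert x D) n = LD m S VC D n := by
  classical
  unfold LD
  refine Finset.filter_congr fun κ _ => ?_
  constructor
  · rintro ⟨h1, h2⟩
    exact ⟨h1, fun u hu => h2 u (Finset.mem_insert_of_mem hu)⟩
  · rintro ⟨h1, h2⟩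
    refine ⟨h1, fun u hu hum => ?_⟩
    rw [Finset.mem_insert] at hu
    rcases hu with rfl | hu
    · exact absurd hum hx
    · exact h2 u hu hum

theorem LD_in (hx : x ∈ Mv m S VC n)
    [DecidableEq (Lb (Ym m S n) VC ∅)] :
    LD m S VC (insert x D) n = (LD m S VC D n).erase (lb m S VC n x) := by
  classical
  ext κ
  unfold LD
  simp only [Finset.mem_filter, Finset.mem_erase]
  constructor
  · rintro ⟨h0, h1, h2⟩
    exact ⟨(h2 x (Finset.mem_insert_self _ _) hx).symm, h0, h1,
      fun u hu => h2 u (Finset.mem_insert_of_mem hu)⟩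
  · rintro ⟨h3, h0, h1, h2⟩
    refine ⟨h0, h1, fun u hu hum => ?_⟩
    rw [Finset.mem_insert] at hu
    rcases hu with rfl | hu
    · exact h3.symm
    · exact h2 u hu hum

theorem mem_LD {κ : Lb (Ym m S n) VC ∅} : κ ∈ LD m S VC D n ↔
    (∃ u ∈ Mv m S VC n, lb m S VC n u = κ) ∧ (∀ u ∈ VC, lb m S VC n u ≠ κ) ∧
      ∀ u ∈ D, u ∈ Mv m S VC n → lb m S VC n u ≠ κ := by
  classical
  unfold LD
  simp only [Finset.mem_filter, Finset.mem_image]

theorem sdiff_in {B : Finset (V d)} (hx : x ∈ B) (hD : x ∉ D) :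
    (B \ D).card = (B \ insert x D).card + 1 := by
  have : B \ insert x D = (B \ D).erase x := by
    ext y
    simp only [Finset.mem_sdiff, Finset.mem_insert, Finset.mem_erase]
    tauto
  rw [this, Finset.card_erase_of_mem (Finset.mem_sdiff.2 ⟨hx, hD⟩)]
  have : 0 < (B \ D).card := Finset.card_pos.2 ⟨x, Finset.mem_sdiff.2 ⟨hx, hD⟩⟩
  omega

theorem sdiff_out {B : Finset (V d)} (hx : x ∉ B) :
    B \ insert x D = B \ D := by
  ext y
  simp only [Finset.mem_sdiff, Finset.mem_insert]
  constructor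
  · rintro ⟨h1, h2⟩
    exact ⟨h1, fun h => h2 (Or.inr h)⟩
  · rintro ⟨h1, h2⟩
    refine ⟨h1, ?_⟩
    rintro (rfl | h)
    · exact hx h1
    · exact h2 h

theorem wg_touch (hD : x ∉ D) (hx : x ∈ Mv m S VC n)
    (hT : Tc m S VC D n x) : wg m S VC η a D n = a * wg m S VC η a (insert x D) n := by
  classical
  have h1 : lb m S VC n x ∉ LD m S VC D n := by
    intro h
    rw [mem_LD] at h
    rcases hT with ⟨u, hu, h2⟩ | ⟨u, hu, hum, h2⟩
    · exact h.2.1 u hu h2
    · exact h.2.2 u hu hum h2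
  unfold wg
  rw [LD_in hx, Finset.erase_eq_of_notMem h1]
  have h2 := sdiff_in (B := Mv m S VC n) hx hD
  have h3 : (Av S VC n \ Mv m S VC n) \ insert x D = (Av S VC n \ Mv m S VC n) \ D :=
    sdiff_out fun h => (Finset.mem_sdiff.1 h).2 hx
  rw [h2, h3, pow_succ]
  ring

theorem wg_out (hD : x ∉ D) (hx : x ∉ Mv m S VC n)
    (hA : x ∈ Av S VC n) : wg m S VC η a D n = (1 - η) * wg m S VC η a (insert x D) n := by
  classical
  unfold wg
  rw [LD_out hx]
  have h2 : Mv m S VC n \ insert x D = Mv m S VC n \ D := sdiff_out hx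
  have h3 := sdiff_in (B := Av S VC n \ Mv m S VC n) (Finset.mem_sdiff.2 ⟨hA, hx⟩) hD
  rw [h2, h3, pow_succ]
  ring

theorem wg_new (hD : x ∉ D) (hx : x ∈ Mv m S VC n)
    (hT : ¬ Tc m S VC D n x) : wg m S VC η a D n = η * a * wg m S VC η a (insert x D) n := by
  classical
  have h1 : lb m S VC n x ∈ LD m S VC D n := by
    rw [mem_LD]
    refine ⟨⟨x, hx, rfl⟩, fun u hu h => hT (Or.inl ⟨u, hu, h⟩),
      fun u hu hum h => hT (Or.inr ⟨u, hu, hum, h⟩)⟩
  unfold wg
  rw [LD_in hx, Finset.card_erase_of_mem h1]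
  have h2 := sdiff_in (B := Mv m S VC n) hx hD
  have h3 : (Av S VC n \ Mv m S VC n) \ insert x D = (Av S VC n \ Mv m S VC n) \ D :=
    sdiff_out fun h => (Finset.mem_sdiff.1 h).2 hx
  have h4 : 0 < (LD m S VC D n).card := Finset.card_pos.2 ⟨_, h1⟩
  obtain ⟨r, hr⟩ := Nat.exists_eq_succ_of_ne_zero h4.ne'
  rw [h2, h3, hr, Nat.succ_sub_one, pow_succ, pow_succ]
  ring

theorem wg_nonneg (h0 : 0 ≤ η) (h1 : η ≤ 1) (ha : 0 ≤ a) : 0 ≤ wg m S VC η a D n := by
  classical
  unfold wg
  have : 0 ≤ 1 - η := by linarith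
  positivity

theorem wg_le_one (h0 : 0 ≤ η) (h1 : η ≤ 1) (ha : 0 ≤ a) (ha1 : a ≤ 1) :
    wg m S VC η a D n ≤ 1 := by
  classical
  unfold wg
  have h2 : 0 ≤ 1 - η := by linarith
  have h3 : η ^ (LD m S VC D n).card ≤ 1 := pow_le_one₀ h0 h1
  have h4 : a ^ (Mv m S VC n \ D).card ≤ 1 := pow_le_one₀ ha ha1
  have h5 : (1 - η) ^ ((Av S VC n \ Mv m S VC n) \ D).card ≤ 1 := pow_le_one₀ h2 (by linarith)
  have h6 : 0 ≤ η ^ (LD m S VC D n).card := pow_nonneg h0 _
  have h7 : 0 ≤ a ^ (Mv m S VC n \ D).card := pow_nonneg ha _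
  exact mul_le_one₀ (mul_le_one₀ h3 h7 h4) (pow_nonneg h2 _) h5

end weight

theorem pairs_card (d : ℕ) :
    2 * ((Finset.univ : Finset (Fin d × Fin d)).filter fun ij => ij.1 < ij.2).card =
      d * (d - 1) := by
  classical
  have h1 : (Finset.univ : Finset (Fin d × Fin d)).filter (fun ij => ij.1 ≠ ij.2) =
      ((Finset.univ : Finset (Fin d × Fin d)).filter fun ij => ij.1 < ij.2) ∪
      ((Finset.univ : Finset (Fin d × Fin d)).filter fun ij => ij.1 < ij.2).map
        (Equiv.prodComm (Fin d) (Fin d)).toEmbedding := by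
    ext ⟨i, j⟩
    simp only [Finset.mem_filter, Finset.mem_univ, true_and, Finset.mem_union, Finset.mem_map,
      Equiv.toEmbedding_apply, Equiv.prodComm_apply, Prod.exists]
    constructor
    · intro h
      rcases lt_or_gt_of_ne h with h | h
      · exact Or.inl h
      · exact Or.inr ⟨j, i, h, rfl⟩
    · rintro (h | ⟨a, b, h, h2⟩)
      · exact h.ne
      · simp only [Prod.swap_prod_mk, Prod.mk.injEq] at h2
        obtain ⟨rfl, rfl⟩ := h2
        exact h.ne'
  have h2 : ((Finset.univ : Finset (Fin d × Fin d)).filter (fun ij => ij.1 ≠ ij.2)).card =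
      d * (d - 1) := by
    have h3 : (Finset.univ : Finset (Fin d × Fin d)).filter (fun ij => ij.1 ≠ ij.2) =
        (Finset.univ : Finset (Fin d)).offDiag := by
      ext ⟨i, j⟩
      simp [Finset.mem_offDiag]
    rw [h3, Finset.offDiag_card, Finset.card_univ, Fintype.card_fin, Nat.mul_sub, mul_one]
  rw [← h2, h1, Finset.card_union_of_disjoint, Finset.card_map]
  · ring
  · rw [Finset.disjoint_left]
    rintro ⟨i, j⟩ h3 h4
    simp only [Finset.mem_filter, Finset.mem_univ, true_and, Finset.mem_map,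
      Equiv.toEmbedding_apply, Equiv.prodComm_apply, Prod.exists] at h3 h4
    obtain ⟨a, b, h, h2⟩ := h4
    simp only [Prod.swap_prod_mk, Prod.mk.injEq] at h2
    obtain ⟨rfl, rfl⟩ := h2
    exact absurd h (not_lt.2 h3.le)

/-- the number of plaquettes at a vertex -/
theorem star_card {S : Finset (Pq d)} (hS : ∀ p ∈ S, p.2.1 < p.2.2) (x : V d)
    [DecidablePred fun p : Pq d => x ∈ vt p] :
    (S.filter fun p => x ∈ vt p).card ≤ 2 * (d * (d - 1)) := by
  classical
  have h1 : S.filter (fun p => x ∈ vt p) ⊆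
      ((Finset.univ : Finset (Fin d × Fin d)).filter fun ij => ij.1 < ij.2).biUnion fun ij =>
      {(x, ij), (x - e ij.1, ij), (x - e ij.2, ij), (x - e ij.1 - e ij.2, ij)} := by
    intro p hp
    rw [Finset.mem_filter, mem_vt] at hp
    have hp1 := hS p hp.1
    obtain ⟨y, i, j⟩ := p
    rw [Finset.mem_biUnion]
    refine ⟨(i, j), Finset.mem_filter.2 ⟨Finset.mem_univ _, hp1⟩, ?_⟩
    simp only [Finset.mem_insert, Finset.mem_singleton, Prod.mk.injEq, and_true]
    rcases hp.2 with h | h | h | h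
    · left; exact h.symm
    · right; left; rw [h]; simp
    · right; right; left; rw [h]; simp
    · right; right; right; rw [h]
      simp only
      abel
  refine (Finset.card_le_card h1).trans ((Finset.card_biUnion_le_card_mul _ _ 4
    fun ij _ => Finset.card_le_four).trans ?_)
  have h2 := pairs_card d
  omega

theorem vals_card [Fintype F] (hS : ∀ p ∈ S, p.2.1 < p.2.2) (Sn : Finset (Pq d → F))
    (hSn : ∀ n ∈ Sn, ∀ p, p ∉ S → n p = 0)
    (x : V d) [DecidableEq (Option (Pq d → F))]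
    [DecidablePred fun n : Pq d → F => x ∈ Mv m S VC n] :
    ((Sn.filter fun n => x ∈ Mv m S VC n).image (kv m S VC x)).card ≤
      Fintype.card F ^ (2 * (d * (d - 1))) := by
  classical
  set T := S.filter fun p => x ∈ vt p with hT
  have h1 : ((Sn.filter fun n => x ∈ Mv m S VC n).image (kv m S VC x)).card ≤
      (Finset.univ : Finset (T → F)).card := by
    refine Finset.card_le_card_of_injOn
      (fun o => fun p : T => (o.getD 0) p.1) (fun _ _ => Finset.mem_univ _) ?_
    intro o ho o' ho' hoo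
    rw [Finset.mem_coe, Finset.mem_image] at ho ho'
    obtain ⟨n, hn, rfl⟩ := ho
    obtain ⟨n', hn', rfl⟩ := ho'
    rw [Finset.mem_filter] at hn hn'
    unfold kv at hoo ⊢
    rw [if_pos hn.2, if_pos hn'.2] at hoo ⊢
    simp only [Option.getD_some] at hoo
    congr 1
    funext p
    by_cases hp : p ∈ T
    · exact congrFun hoo ⟨p, hp⟩
    · split_ifs with h2
      · have h3 : p ∉ S := fun h3 => hp (Finset.mem_filter.2 ⟨h3, h2⟩)
        rw [hSn n hn.1 p h3, hSn n' hn'.1 p h3]
      · rfl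
  refine h1.trans ?_
  rw [Finset.card_univ, Fintype.card_fun, Fintype.card_coe]
  exact Nat.pow_le_pow_right Fintype.card_pos (star_card hS x)

theorem cross {Y : Finset (Pq d)} {D : Finset (V d)} {a b : V d} (ha : a ∈ D) (hb : b ∉ D)
    (hVC : VC ⊆ D) (h : ReflTransGen (cell Y VC ∅) a b) :
    ∃ w w', w ∈ D ∧ w' ∉ D ∧ ∃ p ∈ Y, w ∈ vt p ∧ w' ∈ vt p := by
  induction h with
  | refl => exact absurd ha hb
  | tail _ hst ih =>
    rename_i w w' _
    by_cases hw : w ∈ D
    · rcases hst with ⟨p, hp, h1, h2⟩ | h | h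
      · exact ⟨w, w', hw, hb, p, hp, h1, h2⟩
      · exact absurd (hVC h.2) hb
      · simp at h
    · exact ih hw

theorem kv_in {n n' : Pq d → F} {w : V d} (h : kv m S VC w n = kv m S VC w n')
    (hw : w ∈ Mv m S VC n) : w ∈ Mv m S VC n' ∧ ∀ p, w ∈ vt p → n' p = n p := by
  unfold kv at h
  rw [if_pos hw] at h
  by_cases hw' : w ∈ Mv m S VC n'
  · refine ⟨hw', fun p hp => ?_⟩
    rw [if_pos hw'] at h
    have h1 := congrFun (Option.some.inj h) p
    simp only [if_pos hp] at h1
    exact h1.symm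
  · rw [if_neg hw'] at h
    cases h

section main

variable (hm : ∀ i, m (m i) = i) (hS : ∀ p ∈ S, p.2.1 < p.2.2)
  (hC : ∀ l, C l ≠ 0 → l.1 ∈ VC ∧ l.1 + e l.2 ∈ VC)

include hm hS hC

/-- surfaces which agree where no new vertex is known are equal -/
theorem final_case {cl : Finset (Pq d → F)} (hcl : ∀ n ∈ cl, Good S C n) {D : Finset (V d)}
    (hD : ∀ n ∈ cl, ∀ n' ∈ cl, ∀ w ∈ D, kv m S VC w n = kv m S VC w n')
    (hVC : VC ⊆ D) (h2 : ∀ x, x ∉ D → ∃ n ∈ cl, x ∉ Av S VC n) {n n' : Pq d → F}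
    (hn : n ∈ cl) (hn' : n' ∈ cl) : n = n' := by
  classical
  set X : Set (Pq d) := {p | ∃ z : F, z ≠ 0 ∧ ∀ n ∈ cl, n p = z} with hX
  have hXD : ∀ p ∈ X, ∀ w ∈ vt p, w ∈ D := by
    rintro p ⟨z, hz, hp⟩ w hw
    by_contra hwD
    obtain ⟨n₁, hn₁, h3⟩ := h2 w hwD
    apply h3
    rw [mem_Av]
    refine Or.inl ⟨p, mem_Ya.2 ⟨?_, ?_⟩, hw⟩
    · by_contra h4
      exact hz (by rw [← hp n₁ hn₁]; exact (hcl n₁ hn₁).out p h4)
    · rw [hp n₁ hn₁]; exact hz
  -- at the vertices which are known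
  have hkn : ∀ n ∈ cl, ∀ w ∈ D, w ∈ Mv m S VC n → ∀ p, w ∈ vt p → n p ≠ 0 → p ∈ X := by
    intro n hn w hw hwM p hp h0
    exact ⟨n p, h0, fun n₁ hn₁ => (kv_in (hD n hn n₁ hn₁ w hw) hwM).2 p hp⟩
  have key : ∀ n ∈ cl, ∀ p, n p ≠ 0 → p ∈ X := by
    intro n hn
    refine (hcl n hn).min X fun l => ?_
    by_cases hA : ∃ p ∈ X, l ∈ bd p
    · obtain ⟨p, hpX, hlp⟩ := hA
      rw [← (hcl n hn).bd l]
      refine bdy_congr fun p' hlp' => ?_
      by_cases h0 : n p' = 0
      · rw [h0]; simp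
      rw [if_pos]
      have w1 := hXD p hpX _ (bd_vt hlp).1
      have w2 := hXD p hpX _ (bd_vt hlp).2
      by_cases m1 : l.1 ∈ Mv m S VC n
      · exact hkn n hn _ w1 m1 p' (bd_vt hlp').1 h0
      by_cases m2 : l.1 + e l.2 ∈ Mv m S VC n
      · exact hkn n hn _ w2 m2 p' (bd_vt hlp').2 h0
      -- both plaquettes are in the sheet
      obtain ⟨z, hz, hp⟩ := hpX
      have hsh : ∀ q, l ∈ bd q → n q ≠ 0 → Sheet m q := by
        intro q hq hnq
        have hqS : q ∈ S := by
          by_contra h; exact hnq ((hcl n hn).out q h)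
        refine ⟨hS q hqS, ?_⟩
        by_contra h
        exact m1 (mem_Mv.2 (Or.inl ⟨q, mem_Ym.2 ⟨hqS, hnq, h⟩, (bd_vt hq).1⟩))
      have s1 := hsh p hlp (by rw [hp n hn]; exact hz)
      have s2 := hsh p' hlp' h0
      refine ⟨z, hz, fun n₁ hn₁ => ?_⟩
      rw [← hp n₁ hn₁]
      have m3 : l.1 ∉ Mv m S VC n₁ := fun h =>
        m1 (kv_in (hD n₁ hn₁ n hn _ w1) h).1
      refine sheet_eq hm hS (hcl n₁ hn₁).out ?_ ?_ s2 s1 hlp' hlp
      · intro q hq hlq
        exact m3 (mem_Mv.2 (Or.inl ⟨q, hq, (bd_vt hlq).1⟩))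
      · rw [(hcl n₁ hn₁).bd l]
        by_contra h
        exact m3 (mem_Mv.2 (Or.inr (hC l h).1))
    · push Not at hA
      rw [bdy_zero fun p hp => if_neg fun h => hA p h hp]
      by_contra h
      have h' : C l ≠ 0 := fun h1 => h h1.symm
      have h3 := hC l h'
      have h4 : ∃ p, l ∈ bd p ∧ n p ≠ 0 := by
        by_contra h5
        push Not at h5
        apply h'
        rw [← (hcl n hn).bd l]
        exact bdy_zero h5
      obtain ⟨p, hlp, hnp⟩ := h4
      exact hA p (hkn n hn _ (hVC h3.1) (mem_Mv.2 (Or.inr h3.1)) p (bd_vt hlp).1 hnp) hlp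
  funext p
  by_cases h0 : n p = 0
  · by_contra h
    have h1 : n' p ≠ 0 := by
      intro h1
      exact h (h0.trans h1.symm)
    obtain ⟨z, hz, hp⟩ := key n' hn' p h1
    rw [hp n hn] at h0
    exact hz h0
  · obtain ⟨z, hz, hp⟩ := key n hn p h0
    rw [hp n hn, hp n' hn']

open Classical in
/-- **The weights of the surfaces have sum at most one.** -/
theorem kraft [Fintype F] (Sn : Finset (Pq d → F)) (hSn : ∀ n ∈ Sn, Good S C n) {η : ℝ}
    (h0 : 0 ≤ η) (h1 : η ≤ 1) (D : Finset (V d)) (k : V d → Option (Pq d → F)) :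
    ∑ n ∈ Sn.filter (fun n => ∀ w ∈ D, kv m S VC w n = k w),
      wg m S VC η ((Fintype.card F : ℝ) ^ (2 * (d * (d - 1))))⁻¹ D n ≤ 1 := by
  set A : ℝ := (Fintype.card F : ℝ) ^ (2 * (d * (d - 1))) with hA
  have hA1 : 1 ≤ A := one_le_pow₀ (by exact_mod_cast Fintype.card_pos)
  have hA0 : 0 < A := by linarith
  have ha0 : 0 ≤ A⁻¹ := (inv_pos.2 hA0).le
  set B : Finset (V d) := Sn.biUnion (Av S VC) with hB
  induction hN : (B \ D).card using Nat.strong_induction_on generalizing D k with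
  | _ N ih =>
    set cl := Sn.filter (fun n => ∀ w ∈ D, kv m S VC w n = k w) with hcl
    have hg : ∀ n ∈ cl, Good S C n := fun n hn => hSn n (Finset.mem_filter.1 hn).1
    have hDcl : ∀ n ∈ cl, ∀ n' ∈ cl, ∀ w ∈ D, kv m S VC w n = kv m S VC w n' := by
      intro n hn n' hn' w hw
      rw [(Finset.mem_filter.1 hn).2 w hw, (Finset.mem_filter.1 hn').2 w hw]
    -- the induction hypothesis
    have ih' : ∀ x, x ∉ D → (∀ n ∈ cl, x ∈ Av S VC n) → ∀ o, 
        ∑ n ∈ cl.filter (fun n => kv m S VC x n = o), wg m S VC η A⁻¹ (insert x D) n ≤ 1 := by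
      intro x hx hxA o
      by_cases hne : cl.Nonempty
      · obtain ⟨n₀, hn₀⟩ := hne
        have hxB : x ∈ B := Finset.mem_biUnion.2 ⟨n₀, (Finset.mem_filter.1 hn₀).1, hxA n₀ hn₀⟩
        have h2 := sdiff_in (D := D) hxB hx
        have h3 := ih (B \ insert x D).card (by omega) (insert x D) (Function.update k x o) rfl
        refine le_trans (le_of_eq ?_) h3
        refine Finset.sum_congr ?_ fun _ _ => rfl
        ext n
        simp only [hcl, Finset.mem_filter, and_assoc, and_congr_right_iff]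
        intro _
        constructor
        · rintro ⟨h4, h5⟩ w hw
          rw [Finset.mem_insert] at hw
          rcases hw with rfl | hw
          · rw [Function.update_self, h5]
          · have : w ≠ x := fun h => hx (h ▸ hw)
            rw [Function.update_of_ne this, h4 w hw]
        · intro h4
          refine ⟨fun w hw => ?_, ?_⟩
          · have : w ≠ x := fun h => hx (h ▸ hw)
            rw [h4 w (Finset.mem_insert_of_mem hw), Function.update_of_ne this]
          · rw [h4 x (Finset.mem_insert_self _ _), Function.update_self]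
      · rw [Finset.not_nonempty_iff_eq_empty] at hne
        rw [hne]
        simp
    -- the sum over the surfaces with mixed plaquettes at the vertex
    have hin : ∀ x, x ∉ D → (∀ n ∈ cl, x ∈ Av S VC n) →
        ∑ n ∈ cl.filter (fun n => x ∈ Mv m S VC n), wg m S VC η A⁻¹ (insert x D) n ≤ A := by
      intro x hx hxA
      set I := (cl.filter (fun n => x ∈ Mv m S VC n)).image (kv m S VC x) with hI
      have h2 : ∑ n ∈ cl.filter (fun n => x ∈ Mv m S VC n), wg m S VC η A⁻¹ (insert x D) n =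
          ∑ o ∈ I, ∑ n ∈ (cl.filter (fun n => x ∈ Mv m S VC n)).filter
            (fun n => kv m S VC x n = o), wg m S VC η A⁻¹ (insert x D) n :=
        (Finset.sum_fiberwise_of_maps_to (fun n hn => Finset.mem_image_of_mem _ hn) _).symm
      rw [h2]
      have h3 : ∀ o ∈ I, ∑ n ∈ (cl.filter (fun n => x ∈ Mv m S VC n)).filter
            (fun n => kv m S VC x n = o), wg m S VC η A⁻¹ (insert x D) n ≤ 1 := by
        intro o _
        refine le_trans ?_ (ih' x hx hxA o)
        refine Finset.sum_le_sum_of_subset_of_nonneg ?_ fun _ _ _ => wg_nonneg h0 h1 ha0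
        exact Finset.filter_subset_filter _ (Finset.filter_subset _ _)
      refine (Finset.sum_le_sum h3).trans ?_
      rw [Finset.sum_const, nsmul_eq_mul, mul_one]
      have h4 := vals_card (m := m) (VC := VC) hS cl (fun n hn => (hg n hn).out) x
      rw [hA]
      exact_mod_cast h4
    by_cases c1 : ∃ x, x ∉ D ∧ ∀ n ∈ cl, x ∈ Mv m S VC n ∧ Tc m S VC D n x
    · obtain ⟨x, hx, hx1⟩ := c1
      have h2 : ∑ n ∈ cl, wg m S VC η A⁻¹ D n =
          A⁻¹ * ∑ n ∈ cl, wg m S VC η A⁻¹ (insert x D) n := by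
        rw [Finset.mul_sum]
        exact Finset.sum_congr rfl fun n hn => wg_touch hx (hx1 n hn).1 (hx1 n hn).2
      have h3 := hin x hx fun n hn => Mv_sub_Av (hx1 n hn).1
      rw [Finset.filter_true_of_mem fun n hn => (hx1 n hn).1] at h3
      rw [h2]
      calc A⁻¹ * ∑ n ∈ cl, wg m S VC η A⁻¹ (insert x D) n ≤ A⁻¹ * A :=
            mul_le_mul_of_nonneg_left h3 ha0
        _ = 1 := inv_mul_cancel₀ hA0.ne'
    · push Not at c1
      by_cases hne : cl.Nonempty
      swap
      · rw [Finset.not_nonempty_iff_eq_empty] at hne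
        rw [hne]
        simp
      have hVC : VC ⊆ D := by
        intro u hu
        by_contra huD
        obtain ⟨n, hn, h2⟩ := c1 u huD
        exact h2 (mem_Mv.2 (Or.inr hu)) (Or.inl ⟨u, hu, rfl⟩)
      -- a new vertex is not touched
      have hnew : ∀ x, x ∉ D → ∀ n ∈ cl, x ∈ Mv m S VC n → ¬ Tc m S VC D n x := by
        intro x hx n hn hxM hT
        obtain ⟨u, huD, hux⟩ : ∃ u ∈ D, lb m S VC n u = lb m S VC n x := by
          rcases hT with ⟨u, hu, h⟩ | ⟨u, hu, -, h⟩
          · exact ⟨u, hVC hu, h⟩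
          · exact ⟨u, hu, h⟩
        obtain ⟨w, w', hw, hw', p, hp, h2, h3⟩ := cross huD hx hVC (lab_eq hux)
        obtain ⟨n₁, hn₁, h4⟩ := c1 w' hw'
        have hwM : w ∈ Mv m S VC n := mem_Mv.2 (Or.inl ⟨p, hp, h2⟩)
        have h5 := kv_in (hDcl n hn n₁ hn₁ w hw) hwM
        have hp1 : p ∈ Ym m S n₁ := by
          rw [mem_Ym] at hp ⊢
          exact ⟨hp.1, by rw [h5.2 p h2]; exact hp.2.1, hp.2.2⟩
        refine h4 (mem_Mv.2 (Or.inl ⟨p, hp1, h3⟩)) (Or.inr ⟨w, hw, h5.1, ?_⟩)
        exact Quot.sound (Or.inl ⟨p, hp1, h2, h3⟩)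
      by_cases c2 : ∃ x, x ∉ D ∧ ∀ n ∈ cl, x ∈ Av S VC n
      · obtain ⟨x, hx, hxA⟩ := c2
        have h2 := hin x hx hxA
        have h3 := ih' x hx hxA none
        have h4 : cl.filter (fun n => kv m S VC x n = none) =
            cl.filter (fun n => ¬ x ∈ Mv m S VC n) := by
          refine Finset.filter_congr fun n _ => ?_
          unfold kv
          split_ifs with h5
          · simp [h5]
          · simp [h5]
        rw [h4] at h3
        have h5 : ∑ n ∈ cl, wg m S VC η A⁻¹ D n =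
            η * A⁻¹ * ∑ n ∈ cl.filter (fun n => x ∈ Mv m S VC n), wg m S VC η A⁻¹ (insert x D) n +
            (1 - η) * ∑ n ∈ cl.filter (fun n => ¬ x ∈ Mv m S VC n),
              wg m S VC η A⁻¹ (insert x D) n := by
          rw [← Finset.sum_filter_add_sum_filter_not cl (fun n => x ∈ Mv m S VC n),
            Finset.mul_sum, Finset.mul_sum]
          congr 1
          · refine Finset.sum_congr rfl fun n hn => ?_
            rw [Finset.mem_filter] at hn
            exact wg_new hx hn.2 (hnew x hx n hn.1 hn.2)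
          · refine Finset.sum_congr rfl fun n hn => ?_
            rw [Finset.mem_filter] at hn
            exact wg_out hx hn.2 (hxA n hn.1)
        rw [h5]
        have h6 : η * A⁻¹ * ∑ n ∈ cl.filter (fun n => x ∈ Mv m S VC n),
            wg m S VC η A⁻¹ (insert x D) n ≤ η := by
          calc _ ≤ η * A⁻¹ * A := mul_le_mul_of_nonneg_left h2 (mul_nonneg h0 ha0)
            _ = η := by rw [mul_assoc, inv_mul_cancel₀ hA0.ne', mul_one]
        have h7 : (1 - η) * ∑ n ∈ cl.filter (fun n => ¬ x ∈ Mv m S VC n),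
              wg m S VC η A⁻¹ (insert x D) n ≤ 1 - η := by
          calc _ ≤ (1 - η) * 1 := mul_le_mul_of_nonneg_left h3 (by linarith)
            _ = 1 - η := mul_one _
        linarith
      · push Not at c2
        obtain ⟨n₀, hn₀⟩ := hne
        have h2 : cl = {n₀} := by
          ext n
          rw [Finset.mem_singleton]
          constructor
          · intro hn
            exact final_case hm hS hC hg hDcl hVC c2 hn hn₀
          · rintro rfl
            exact hn₀
        rw [h2, Finset.sum_singleton]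
        exact wg_le_one h0 h1 ha0 (inv_le_one_of_one_le₀ hA1)

end main

end Pool.Agent.T2H03.AL
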