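import Mathlib
import Pool.Agent.T2H03.YM.Count
import Pool.Agent.T2H03.AL.Bdy

/-!
# Monotonicity of the percolation probability, duality
-/

set_option autoImplicit false
set_option linter.unusedSectionVars false

open Relation

namespace Pool.Agent.T2H03.AL

open Pool.Agent.T2H03.YM

section mono

variable {Q : Type*} [DecidableEq Q]

theorem bern_ins_out (t : Q → ℝ) (a : Q) (M Y : Finset Q) (ha : a ∉ M) (hY : Y ⊆ M) :
    bern t (insert a M) Y = (1 - t a) * bern t M Y := by
  unfold bern
  have h1 : insert a M \ Y = insert a (M \ Y) := by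
    rw [Finset.insert_sdiff_of_notMem _ fun h => ha (hY h)]
  rw [h1, Finset.prod_insert (fun h => ha (Finset.mem_sdiff.1 h).1)]
  ring

theorem bern_ins_in (t : Q → ℝ) (a : Q) (M Y : Finset Q) (ha : a ∉ M) (hY : Y ⊆ M) :
    bern t (insert a M) (insert a Y) = t a * bern t M Y := by
  unfold bern
  have h1 : insert a M \ insert a Y = M \ Y := by
    ext x
    simp only [Finset.mem_sdiff, Finset.mem_insert, not_or]
    constructor
    · rintro ⟨h1 | h1, h2, h3⟩
      · exact absurd h1 h2
      · exact ⟨h1, h3⟩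
    · rintro ⟨h1, h2⟩
      exact ⟨Or.inr h1, fun h => ha (h ▸ h1), h2⟩
  rw [h1, Finset.prod_insert (fun h => ha (hY h))]
  ring

open Classical in
/-- the probability of an increasing event is increasing -/
theorem bern_mono (t t' : Q → ℝ) (h0 : ∀ p, 0 ≤ t p) (htt : ∀ p, t p ≤ t' p) (h1 : ∀ p, t' p ≤ 1)
    (M : Finset Q) (E : Finset Q → Prop) (hE : ∀ Y Y', Y ⊆ Y' → E Y → E Y') :
    ∑ Y ∈ M.powerset.filter E, bern t M Y ≤ ∑ Y ∈ M.powerset.filter E, bern t' M Y := by
  have h0' : ∀ p, 0 ≤ t' p := fun p => (h0 p).trans (htt p)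
  induction M using Finset.induction_on generalizing E with
  | empty =>
    refine Finset.sum_le_sum fun Y hY => ?_
    rw [Finset.mem_filter, Finset.mem_powerset, Finset.subset_empty] at hY
    rw [hY.1]
    simp [bern]
  | insert a M ha ih =>
    have key : ∀ s : Q → ℝ, ∑ Y ∈ (insert a M).powerset.filter E, bern s (insert a M) Y =
        (1 - s a) * ∑ Y ∈ M.powerset.filter E, bern s M Y +
        s a * ∑ Y ∈ M.powerset.filter (fun Y => E (insert a Y)), bern s M Y := by
      intro s
      rw [Finset.sum_filter, Finset.sum_powerset_insert ha, Finset.sum_filter, Finset.sum_filter,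
        Finset.mul_sum, Finset.mul_sum]
      congr 1
      · refine Finset.sum_congr rfl fun Y hY => ?_
        rw [Finset.mem_powerset] at hY
        rw [bern_ins_out s a M Y ha hY]
        split_ifs <;> ring
      · refine Finset.sum_congr rfl fun Y hY => ?_
        rw [Finset.mem_powerset] at hY
        rw [bern_ins_in s a M Y ha hY]
        split_ifs <;> ring
    rw [key, key]
    have i1 := ih E hE
    have i2 := ih (fun Y => E (insert a Y)) fun Y Y' hYY h =>
      hE _ _ (Finset.insert_subset_insert a hYY) h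
    have i3 : ∑ Y ∈ M.powerset.filter E, bern t' M Y ≤
        ∑ Y ∈ M.powerset.filter (fun Y => E (insert a Y)), bern t' M Y := by
      refine Finset.sum_le_sum_of_subset_of_nonneg ?_ fun Y _ _ => bern_nonneg h0' h1 M Y
      intro Y hY
      rw [Finset.mem_filter] at hY ⊢
      exact ⟨hY.1, hE _ _ (Finset.subset_insert a Y) hY.2⟩
    set x := ∑ Y ∈ M.powerset.filter E, bern t M Y
    set x' := ∑ Y ∈ M.powerset.filter E, bern t' M Y
    set y := ∑ Y ∈ M.powerset.filter (fun Y => E (insert a Y)), bern t M Y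
    set y' := ∑ Y ∈ M.powerset.filter (fun Y => E (insert a Y)), bern t' M Y
    have a1 := h0 a
    have a2 := htt a
    have a3 := h1 a
    have b1 : (1 - t a) * x ≤ (1 - t a) * x' := mul_le_mul_of_nonneg_left i1 (by linarith)
    have b2 : t a * y ≤ t a * y' := mul_le_mul_of_nonneg_left i2 a1
    have b3 : 0 ≤ (t' a - t a) * (y' - x') := mul_nonneg (by linarith) (by linarith)
    nlinarith

end mono

section dual

variable {d : ℕ} {F : Type*} [Field F]

/-- the coboundary at a plaquette as a linear functional -/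
def dal (p : Pq d) : (Lk d → F) →ₗ[F] F where
  toFun a := da a p
  map_add' a b := by simp only [da, Pi.add_apply]; ring
  map_smul' c a := by simp only [da, Pi.smul_apply, smul_eq_mul, RingHom.id_apply]; ring

/-- a functional which vanishes on the functions with coboundary zero on `Y` is the pairing with
a surface in `Y` -/
theorem dual (K : (Lk d → F) →ₗ[F] F) (Y : Finset (Pq d))
    (h : ∀ a : Lk d → F, (∀ p ∈ Y, da a p = 0) → K a = 0) :
    ∃ n : Pq d → F, (∀ p, p ∉ Y → n p = 0) ∧ ∀ a, K a = ∑ p ∈ Y, n p * da a p := by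
  classical
  have h1 : ⨅ p : Y, LinearMap.ker (dal (F := F) p.1) ≤ LinearMap.ker K := by
    intro a ha
    rw [Submodule.mem_iInf] at ha
    rw [LinearMap.mem_ker]
    exact h a fun p hp => ha ⟨p, hp⟩
  have h2 := mem_span_of_iInf_ker_le_ker h1
  rw [Submodule.mem_span_range_iff_exists_fun] at h2
  obtain ⟨c, hc⟩ := h2
  refine ⟨fun p => if hp : p ∈ Y then c ⟨p, hp⟩ else 0, fun p hp => by simp [hp], fun a => ?_⟩
  rw [← hc, LinearMap.sum_apply, ← Finset.sum_coe_sort Y]
  refine Finset.sum_congr rfl fun p _ => ?_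
  simp [dal, p.2]

/-- the boundary which a functional describes -/
theorem dual_bdy (K : (Lk d → F) →ₗ[F] F) (Y : Finset (Pq d)) {n : Pq d → F}
    (hn : ∀ p, p ∉ Y → n p = 0) (h : ∀ a, K a = ∑ p ∈ Y, n p * da a p) (l : Lk d) :
    bdy n l = K (Pi.single l 1) := by
  classical
  rw [h, pair Y (insert l (Y.biUnion bd))
    (fun p hp l' hl' => Finset.mem_insert_of_mem (Finset.mem_biUnion.2 ⟨p, hp, hl'⟩)) n hn,
    Finset.sum_eq_single l]
  · simp
  · intro l' _ hne
    rw [Pi.single_eq_of_ne hne, zero_mul]
  · intro h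
    exact absurd (Finset.mem_insert_self _ _) h

end dual

end Pool.Agent.T2H03.AL
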