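import Mathlib
import Pool.Agent.T2H03.AL.Mono
import Pool.Agent.T2H03.AL.Kraft

/-!
# Rectangular loops
-/

set_option autoImplicit false
set_option linter.unusedSectionVars false

open Relation

namespace Pool.Agent.T2H03.AL

open Pool.Agent.T2H03.YM

variable {d : ℕ} {F : Type*} [Field F]

/-- the signed sum of a function on the links along the boundary of a rectangle -/
def ls (x : V d) (i j : Fin d) (R T : ℕ) (a : Lk d → F) : F :=
  ∑ k ∈ Finset.range R, a (x + (k : ℤ) • e i, i) +
    ∑ k ∈ Finset.range T, a (x + (R : ℤ) • e i + (k : ℤ) • e j, j) -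
    ∑ k ∈ Finset.range R, a (x + (T : ℤ) • e j + (k : ℤ) • e i, i) -
    ∑ k ∈ Finset.range T, a (x + (k : ℤ) • e j, j)

/-- the sum as a linear functional -/
def lsl (x : V d) (i j : Fin d) (R T : ℕ) : (Lk d → F) →ₗ[F] F where
  toFun := ls x i j R T
  map_add' a b := by
    simp only [ls, Pi.add_apply, Finset.sum_add_distrib]
    ring
  map_smul' c a := by
    simp only [ls, Pi.smul_apply, smul_eq_mul, RingHom.id_apply, ← Finset.mul_sum]
    ring

/-- the links of the loop -/
def LL (x : V d) (i j : Fin d) (R T : ℕ) : Finset (Lk d) :=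
  ((Finset.range R).image fun k : ℕ => (x + (k : ℤ) • e i, i)) ∪
    ((Finset.range T).image fun k : ℕ => (x + (R : ℤ) • e i + (k : ℤ) • e j, j)) ∪
    ((Finset.range R).image fun k : ℕ => (x + (T : ℤ) • e j + (k : ℤ) • e i, i)) ∪
    ((Finset.range T).image fun k : ℕ => (x + (k : ℤ) • e j, j))

/-- the vertices of the loop -/
def VL (x : V d) (i j : Fin d) (R T : ℕ) : Finset (V d) :=
  ((Finset.range (R + 1)).image fun k : ℕ => x + (k : ℤ) • e i) ∪
    ((Finset.range (T + 1)).image fun k : ℕ => x + (R : ℤ) • e i + (k : ℤ) • e j) ∪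
    ((Finset.range (R + 1)).image fun k : ℕ => x + (T : ℤ) • e j + (k : ℤ) • e i) ∪
    ((Finset.range (T + 1)).image fun k : ℕ => x + (k : ℤ) • e j)

theorem VL_card (x : V d) (i j : Fin d) (R T : ℕ) : (VL x i j R T).card ≤ 2 * (R + T) + 4 := by
  unfold VL
  have h1 : ∀ (n : ℕ) (g : ℕ → V d), ((Finset.range (n + 1)).image g).card ≤ n + 1 := by
    intro n g
    have := Finset.card_image_le (s := Finset.range (n + 1)) (f := g)
    rwa [Finset.card_range] at this
  refine (Finset.card_union_le _ _).trans ?_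
  have a1 := h1 T fun k : ℕ => x + (k : ℤ) • e j
  refine (Nat.add_le_add_right (Finset.card_union_le _ _) _).trans ?_
  have a2 := h1 R fun k : ℕ => x + (T : ℤ) • e j + (k : ℤ) • e i
  refine (Nat.add_le_add_right (Nat.add_le_add_right (Finset.card_union_le _ _) _) _).trans ?_
  have a3 := h1 T fun k : ℕ => x + (R : ℤ) • e i + (k : ℤ) • e j
  have a4 := h1 R fun k : ℕ => x + (k : ℤ) • e i
  omega

theorem LL_VL {x : V d} {i j : Fin d} {R T : ℕ} {l : Lk d} (h : l ∈ LL x i j R T) :
    l.1 ∈ VL x i j R T ∧ l.1 + e l.2 ∈ VL x i j R T := by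
  have s : ∀ (y : V d) (q : Fin d) (k : ℕ), y + (k : ℤ) • e q + e q = y + ((k + 1 : ℕ) : ℤ) • e q := by
    intro y q k
    push_cast
    rw [add_smul, one_smul, add_assoc]
  unfold LL at h
  unfold VL
  simp only [Finset.mem_union, Finset.mem_image, Finset.mem_range] at h ⊢
  rcases h with ((⟨k, hk, rfl⟩ | ⟨k, hk, rfl⟩) | ⟨k, hk, rfl⟩) | ⟨k, hk, rfl⟩
  · simp only [s]
    exact ⟨Or.inl (Or.inl (Or.inl ⟨k, by omega, rfl⟩)),
      Or.inl (Or.inl (Or.inl ⟨k + 1, by omega, rfl⟩))⟩
  · simp only [s]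
    exact ⟨Or.inl (Or.inl (Or.inr ⟨k, by omega, rfl⟩)),
      Or.inl (Or.inl (Or.inr ⟨k + 1, by omega, rfl⟩))⟩
  · simp only [s]
    exact ⟨Or.inl (Or.inr ⟨k, by omega, rfl⟩), Or.inl (Or.inr ⟨k + 1, by omega, rfl⟩)⟩
  · simp only [s]
    exact ⟨Or.inr ⟨k, by omega, rfl⟩, Or.inr ⟨k + 1, by omega, rfl⟩⟩

theorem ls_congr {x : V d} {i j : Fin d} {R T : ℕ} {a a' : Lk d → F}
    (h : ∀ l ∈ LL x i j R T, a l = a' l) : ls x i j R T a = ls x i j R T a' := by
  unfold LL at h
  unfold ls
  have h1 : ∀ k ∈ Finset.range R, a (x + (k : ℤ) • e i, i) = a' (x + (k : ℤ) • e i, i) := by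
    intro k hk
    apply h
    simp only [Finset.mem_union]
    exact Or.inl (Or.inl (Or.inl (Finset.mem_image_of_mem _ hk)))
  have h2 : ∀ k ∈ Finset.range T, a (x + (R : ℤ) • e i + (k : ℤ) • e j, j) =
      a' (x + (R : ℤ) • e i + (k : ℤ) • e j, j) := by
    intro k hk
    apply h
    simp only [Finset.mem_union]
    exact Or.inl (Or.inl (Or.inr (Finset.mem_image_of_mem
      (fun k : ℕ => (x + (R : ℤ) • e i + (k : ℤ) • e j, j)) hk)))
  have h3 : ∀ k ∈ Finset.range R, a (x + (T : ℤ) • e j + (k : ℤ) • e i, i) =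
      a' (x + (T : ℤ) • e j + (k : ℤ) • e i, i) := by
    intro k hk
    apply h
    simp only [Finset.mem_union]
    exact Or.inl (Or.inr (Finset.mem_image_of_mem
      (fun k : ℕ => (x + (T : ℤ) • e j + (k : ℤ) • e i, i)) hk))
  have h4 : ∀ k ∈ Finset.range T, a (x + (k : ℤ) • e j, j) = a' (x + (k : ℤ) • e j, j) := by
    intro k hk
    apply h
    simp only [Finset.mem_union]
    exact Or.inr (Finset.mem_image_of_mem (fun k : ℕ => (x + (k : ℤ) • e j, j)) hk)
  rw [Finset.sum_congr rfl h1, Finset.sum_congr rfl h2, Finset.sum_congr rfl h3,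
    Finset.sum_congr rfl h4]

/-- the loop as a chain of links -/
def Cl (x : V d) (i j : Fin d) (R T : ℕ) (l : Lk d) : F := ls x i j R T (Pi.single l 1)

theorem Cl_VL {x : V d} {i j : Fin d} {R T : ℕ} {l : Lk d} (h : Cl (F := F) x i j R T l ≠ 0) :
    l.1 ∈ VL x i j R T ∧ l.1 + e l.2 ∈ VL x i j R T := by
  apply LL_VL
  by_contra h1
  apply h
  unfold Cl
  rw [ls_congr (a' := fun _ => 0) fun l' hl' => ?_]
  · simp [ls]
  · rw [Pi.single_eq_of_ne]
    rintro rfl
    exact h1 hl'

theorem ls_Cl {x : V d} {i j : Fin d} {R T : ℕ} (L : Finset (Lk d)) (hL : LL x i j R T ⊆ L)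
    (a : Lk d → F) : ls x i j R T a = ∑ l ∈ L, a l * Cl x i j R T l := by
  have h1 : ls x i j R T a = lsl x i j R T (∑ l ∈ L, a l • Pi.single l (1 : F)) := by
    show ls x i j R T a = ls x i j R T _
    refine ls_congr fun l hl => ?_
    rw [Finset.sum_apply, Finset.sum_eq_single l]
    · simp
    · intro l' _ hne
      rw [Pi.smul_apply, Pi.single_eq_of_ne hne.symm, smul_zero]
    · intro h
      exact absurd (hL hl) h
  rw [h1, map_sum]
  refine Finset.sum_congr rfl fun l _ => ?_
  rw [map_smul, smul_eq_mul]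
  rfl

/-- the function on the links which counts the flux through one column -/
def av (i j : Fin d) (s s' : ℤ) (l : Lk d) : F :=
  if l.2 = j ∧ s < l.1 i ∧ l.1 j = s' then 1 else 0

theorem da_av {i j : Fin d} (hij : i < j) (s s' : ℤ) {p : Pq d} (hp : p.2.1 < p.2.2) :
    da (av (F := F) i j s s') p =
      if p.2 = (i, j) ∧ p.1 i = s ∧ p.1 j = s' then 1 else 0 := by
  obtain ⟨y, q, r⟩ := p
  simp only at hp
  unfold da av
  simp only [Prod.mk.injEq]
  by_cases hr : r = j
  · subst hr
    by_cases hq : q = i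
    · subst hq
      have n1 : q ≠ r := hp.ne
      simp only [Pi.add_apply, e_same, e_ne n1, n1, false_and, if_false, true_and, add_zero,
        zero_add, and_self]
      by_cases h1 : y r = s'
      · simp only [h1, and_true]
        by_cases h2 : s < y q
        · rw [if_pos (by omega), if_pos h2, if_neg (by omega)]
          ring
        · by_cases h3 : y q = s
          · rw [if_pos (by omega), if_neg h2, if_pos h3]
            ring
          · rw [if_neg (by omega), if_neg h2, if_neg h3]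
            ring
      · simp [h1]
    · have n1 : q ≠ r := hp.ne
      have e1 : (y + e q) i = y i := by simp [e_ne hq]
      have e2 : (y + e q) r = y r := by simp [e_ne n1]
      simp [n1, e1, e2, hq]
  · by_cases hq : q = j
    · subst hq
      have n1 : q ≠ r := hp.ne
      have n2 : r ≠ i := by
        rintro rfl
        exact absurd hij (not_lt.2 hp.le)
      have e1 : (y + e r) i = y i := by simp [e_ne n2]
      have e2 : (y + e r) q = y q := by simp [e_ne n1.symm]
      simp [n1.symm, e1, e2]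
    · simp [hq, hr]

theorem ls_av {x : V d} {i j : Fin d} (hij : i < j) {R T : ℕ} {k l : ℕ} (hk : k < R) (hl : l < T) :
    ls (F := F) x i j R T (av i j (x i + k) (x j + l)) = 1 := by
  unfold ls av
  have h1 : ∑ q ∈ Finset.range R, (if (x + (q : ℤ) • e i, i).2 = j ∧
      x i + (k : ℤ) < (x + (q : ℤ) • e i, i).1 i ∧ (x + (q : ℤ) • e i, i).1 j = x j + l then
        (1 : F) else 0) = 0 := by
    refine Finset.sum_eq_zero fun q _ => if_neg ?_
    rintro ⟨h, -⟩
    exact hij.ne h
  have h2 : ∑ q ∈ Finset.range R, (if (x + (T : ℤ) • e j + (q : ℤ) • e i, i).2 = j ∧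
      x i + (k : ℤ) < (x + (T : ℤ) • e j + (q : ℤ) • e i, i).1 i ∧
        (x + (T : ℤ) • e j + (q : ℤ) • e i, i).1 j = x j + l then
        (1 : F) else 0) = 0 := by
    refine Finset.sum_eq_zero fun q _ => if_neg ?_
    rintro ⟨h, -⟩
    exact hij.ne h
  have h3 : ∑ q ∈ Finset.range T, (if (x + (q : ℤ) • e j, j).2 = j ∧
      x i + (k : ℤ) < (x + (q : ℤ) • e j, j).1 i ∧
        (x + (q : ℤ) • e j, j).1 j = x j + l then
        (1 : F) else 0) = 0 := by
    refine Finset.sum_eq_zero fun q _ => if_neg ?_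
    rintro ⟨-, h, -⟩
    simp only [Pi.add_apply, Pi.smul_apply, e_ne hij.ne', smul_eq_mul, mul_zero, add_zero] at h
    omega
  have h4 : ∑ q ∈ Finset.range T, (if (x + (R : ℤ) • e i + (q : ℤ) • e j, j).2 = j ∧
      x i + (k : ℤ) < (x + (R : ℤ) • e i + (q : ℤ) • e j, j).1 i ∧
        (x + (R : ℤ) • e i + (q : ℤ) • e j, j).1 j = x j + l then
        (1 : F) else 0) = 1 := by
    rw [Finset.sum_eq_single l]
    · rw [if_pos]
      refine ⟨rfl, ?_, ?_⟩
      · simp only [Pi.add_apply, Pi.smul_apply, e_ne hij.ne', e_same, smul_eq_mul, mul_zero,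
          add_zero, mul_one]
        omega
      · simp only [Pi.add_apply, Pi.smul_apply, e_ne hij.ne, e_same, smul_eq_mul, mul_zero,
          add_zero, mul_one]
    · intro q _ hq
      rw [if_neg]
      rintro ⟨-, -, h⟩
      simp only [Pi.add_apply, Pi.smul_apply, e_ne hij.ne, e_same, smul_eq_mul, mul_zero,
          add_zero, mul_one] at h
      omega
    · intro h
      exact absurd (Finset.mem_range.2 hl) h
  rw [h1, h2, h3, h4]
  ring

open Classical in
/-- a surface bounded by the rectangle has a plaquette over every cell of the rectangle -/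
theorem columns {S : Finset (Pq d)} (hS : ∀ p ∈ S, p.2.1 < p.2.2) {x : V d} {i j : Fin d}
    (hij : i < j) {R T : ℕ} {n : Pq d → F} (hn : ∀ p, p ∉ S → n p = 0)
    (hb : ∀ l, bdy n l = Cl x i j R T l) :
    R * T ≤ (S.filter fun p => n p ≠ 0 ∧ p.2 = (i, j)).card := by
  have key : ∀ k < R, ∀ l < T, ∃ p ∈ S.filter (fun p => n p ≠ 0 ∧ p.2 = (i, j)),
      p.1 i = x i + k ∧ p.1 j = x j + l := by
    intro k hk l hl
    by_contra hcon
    push Not at hcon
    have h1 := pair S (S.biUnion bd ∪ LL x i j R T)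
      (fun p hp l hl => Finset.mem_union_left _ (Finset.mem_biUnion.2 ⟨p, hp, hl⟩)) n hn
      (av i j (x i + k) (x j + l))
    have h2 : ∑ p ∈ S, n p * da (av (F := F) i j (x i + k) (x j + l)) p = 0 := by
      refine Finset.sum_eq_zero fun p hp => ?_
      rw [da_av hij _ _ (hS p hp)]
      split_ifs with h3
      · by_contra h4
        rw [mul_one] at h4
        exact hcon p (Finset.mem_filter.2 ⟨hp, h4, h3.1⟩) h3.2.1 h3.2.2
      · rw [mul_zero]
    rw [h2] at h1
    have h3 := ls_Cl (F := F) (x := x) (i := i) (j := j) (R := R) (T := T)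
      (S.biUnion bd ∪ LL x i j R T) Finset.subset_union_right (av i j (x i + k) (x j + l))
    rw [ls_av hij hk hl] at h3
    simp only [hb] at h1
    rw [← h1] at h3
    exact one_ne_zero h3
  have h2 : (Finset.range R ×ˢ Finset.range T) ⊆
      (S.filter fun p => n p ≠ 0 ∧ p.2 = (i, j)).image
        fun p => ((p.1 i - x i).toNat, (p.1 j - x j).toNat) := by
    rintro ⟨k, l⟩ hkl
    rw [Finset.mem_product, Finset.mem_range, Finset.mem_range] at hkl
    obtain ⟨p, hp, h3, h4⟩ := key k hkl.1 l hkl.2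
    rw [Finset.mem_image]
    refine ⟨p, hp, ?_⟩
    rw [h3, h4]
    simp
  have h3 := (Finset.card_le_card h2).trans Finset.card_image_le
  rwa [Finset.card_product, Finset.card_range, Finset.card_range] at h3

end Pool.Agent.T2H03.AL
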