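import Mathlib
import Pool.Agent.T2H03.YM.Meas
import Pool.Agent.T2H03.YM.Lat
import Pool.Agent.T2H03.AL.Loop

/-!
# Center symmetry
-/

set_option autoImplicit false
set_option linter.unusedSectionVars false

open MeasureTheory Measure Set

namespace Pool.Agent.T2H03.AL

open Pool.Agent.T2H03.YM

variable {d : ℕ} {G : Type*} [Group G]

section zp

variable {ℓ : ℕ} [NeZero ℓ]

/-- the powers of the central element -/
def zp (z : G) (s : ZMod ℓ) : G := z ^ s.val

theorem zp_zero (z : G) : zp z (0 : ZMod ℓ) = 1 := by simp [zp]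

theorem zp_add {z : G} (hz : z ^ ℓ = 1) (s t : ZMod ℓ) : zp z (s + t) = zp z s * zp z t := by
  unfold zp
  rw [ZMod.val_add, ← pow_add]
  exact (pow_eq_pow_mod _ hz).symm

theorem zp_neg {z : G} (hz : z ^ ℓ = 1) (s : ZMod ℓ) : zp z (-s) = (zp z s)⁻¹ := by
  rw [eq_inv_iff_mul_eq_one, ← zp_add hz, neg_add_cancel, zp_zero]

theorem zp_comm {z : G} (hc : ∀ g : G, z * g = g * z) (s : ZMod ℓ) (g : G) :
    zp z s * g = g * zp z s := by
  have : Commute z g := hc g
  exact (this.pow_left _).eq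

/-- the twisted configuration -/
def tws (z : G) (a : Lk d → ZMod ℓ) (U : Lk d → G) (l : Lk d) : G := zp z (a l) * U l

theorem zp_swap {z : G} (hc : ∀ g : G, z * g = g * z) (s t : ZMod ℓ) (g h : G) :
    (zp z s * g) * (zp z t * h) = (zp z s * zp z t) * (g * h) := by
  rw [mul_assoc, ← mul_assoc g, ← zp_comm hc t g]
  group

theorem zp_mul {z : G} (hz : z ^ ℓ = 1) (hc : ∀ g : G, z * g = g * z) (s t : ZMod ℓ) (g h : G) :
    (zp z s * g) * (zp z t * h) = zp z (s + t) * (g * h) := by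
  rw [zp_swap hc, zp_add hz]

theorem zp_inv {z : G} (hz : z ^ ℓ = 1) (hc : ∀ g : G, z * g = g * z) (s : ZMod ℓ) (g : G) :
    (zp z s * g)⁻¹ = zp z (-s) * g⁻¹ := by
  rw [mul_inv_rev, zp_neg hz, ← zp_neg hz, zp_comm hc]

theorem hol_tws {z : G} (hz : z ^ ℓ = 1) (hc : ∀ g : G, z * g = g * z) (a : Lk d → ZMod ℓ)
    (U : Lk d → G) (p : Pq d) [Fact ℓ.Prime] : hol p (tws z a U) = zp z (da a p) * hol p U := by
  unfold hol tws
  rw [zp_inv hz hc, zp_inv hz hc, zp_mul hz hc, zp_mul hz hc, zp_mul hz hc]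
  simp only [da, sub_eq_add_neg]

/-- the product of the link variables along a straight path of length `n` -/
def seg (U : Lk d → G) (x : V d) (i : Fin d) : ℕ → G
  | 0 => 1
  | n + 1 => seg U x i n * U (x + (n : ℤ) • e i, i)

/-- the product of the link variables around a rectangle -/
def lp (x : V d) (i j : Fin d) (R T : ℕ) (U : Lk d → G) : G :=
  seg U x i R * seg U (x + (R : ℤ) • e i) j T * (seg U (x + (T : ℤ) • e j) i R)⁻¹ *
    (seg U x j T)⁻¹

theorem seg_tws {z : G} (hz : z ^ ℓ = 1) (hc : ∀ g : G, z * g = g * z) (a : Lk d → ZMod ℓ)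
    (U : Lk d → G) (x : V d) (i : Fin d) (n : ℕ) : seg (tws z a U) x i n =
      zp z (∑ k ∈ Finset.range n, a (x + (k : ℤ) • e i, i)) * seg U x i n := by
  induction n with
  | zero => simp [seg, zp_zero]
  | succ n ih =>
    rw [seg, ih, seg, Finset.sum_range_succ]
    show _ * (zp z (a _) * _) = _
    rw [zp_mul hz hc]

theorem lp_tws {z : G} (hz : z ^ ℓ = 1) (hc : ∀ g : G, z * g = g * z) (a : Lk d → ZMod ℓ)
    (U : Lk d → G) (x : V d) (i j : Fin d) (R T : ℕ) [Fact ℓ.Prime] :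
    lp x i j R T (tws z a U) = zp z (ls x i j R T a) * lp x i j R T U := by
  unfold lp
  rw [seg_tws hz hc, seg_tws hz hc, seg_tws hz hc, seg_tws hz hc, zp_inv hz hc, zp_inv hz hc,
    zp_mul hz hc, zp_mul hz hc, zp_mul hz hc]
  simp only [ls, sub_eq_add_neg]

end zp

section meas

variable [MeasurableSpace G] [MeasurableMul₂ G] [MeasurableInv G]

theorem seg_meas (x : V d) (i : Fin d) (n : ℕ) :
    Measurable (fun U : Lk d → G => seg U x i n) := by
  induction n with
  | zero => exact measurable_const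
  | succ n ih => exact ih.mul (measurable_pi_apply _)

theorem lp_meas (x : V d) (i j : Fin d) (R T : ℕ) :
    Measurable (lp (G := G) x i j R T) := by
  unfold lp
  exact (((seg_meas _ _ _).mul (seg_meas _ _ _)).mul (seg_meas _ _ _).inv).mul (seg_meas _ _ _).inv

theorem seg_dep {x : V d} {i : Fin d} {n : ℕ} {U U' : Lk d → G}
    (h : ∀ k < n, U (x + (k : ℤ) • e i, i) = U' (x + (k : ℤ) • e i, i)) :
    seg U x i n = seg U' x i n := by
  induction n with
  | zero => rfl
  | succ n ih =>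
    rw [seg, seg, ih fun k hk => h k (by omega), h n (by omega)]

theorem lp_dep (x : V d) (i j : Fin d) (R T : ℕ) :
    DependsOn (lp (G := G) x i j R T) (LL x i j R T : Set (Lk d)) := by
  intro U U' h
  unfold lp
  unfold LL at h
  simp only [Finset.coe_union, Set.mem_union, Finset.coe_image, Set.mem_image,
    Finset.mem_coe, Finset.mem_range] at h
  rw [seg_dep (U := U) (U' := U') (x := x) (i := i) fun k hk =>
      h _ (Or.inl (Or.inl (Or.inl ⟨k, hk, rfl⟩))),
    seg_dep (U := U) (U' := U') (x := x + (R : ℤ) • e i) (i := j) fun k hk =>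
      h _ (Or.inl (Or.inl (Or.inr ⟨k, hk, rfl⟩))),
    seg_dep (U := U) (U' := U') (x := x + (T : ℤ) • e j) (i := i) fun k hk =>
      h _ (Or.inl (Or.inr ⟨k, hk, rfl⟩)),
    seg_dep (U := U) (U' := U') (x := x) (i := j) fun k hk =>
      h _ (Or.inr ⟨k, hk, rfl⟩)]

variable {ℓ : ℕ} (μ : Measure G) [IsProbabilityMeasure μ] [μ.IsMulLeftInvariant]

theorem tws_mp (z : G) (a : Lk d → ZMod ℓ) [NeZero ℓ] :
    MeasurePreserving (tws z a) (PP (Lk d) μ) (PP (Lk d) μ) := by
  exact mp_coord μ (fun l x => zp z (a l) * x) fun l => measurePreserving_mul_left μ _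

variable [Fact ℓ.Prime]

/-- the terms with a twist vanish -/
theorem vanish {z : G} (X : (Lk d → G) → ℝ) (hX : Measurable X) (CX : ℝ)
    (hCX : ∀ U, |X U| ≤ CX) (f : G → ℝ) (hf : Measurable f) (hf1 : ∀ g, |f g| ≤ 1)
    (hfz : ∀ g, ∑ k ∈ Finset.range ℓ, f (z ^ k * g) = 0) (W : (Lk d → G) → G)
    (hWm : Measurable W) (K : (Lk d → ZMod ℓ) →ₗ[ZMod ℓ] ZMod ℓ)
    (hW : ∀ a U, W (tws z a U) = zp z (K a) * W U)
    (a : Lk d → ZMod ℓ) (ha : ∀ (s : ZMod ℓ) U, X (tws z (fun l => s * a l) U) = X U)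
    (hac : K a ≠ 0) : ∫ U, f (W U) * X U ∂PP (Lk d) μ = 0 := by
  classical
  have hl0 : (0 : ℕ) < ℓ := (Fact.out : ℓ.Prime).pos
  have : NeZero ℓ := ⟨hl0.ne'⟩
  set I := ∫ U, f (W U) * X U ∂PP (Lk d) μ with hI
  set c := K a with hcdef
  have hint : ∀ s : ZMod ℓ, Integrable (fun U : Lk d → G => f (zp z (s * c) * W U) *
      X U) (PP (Lk d) μ) := by
    intro s
    refine Integrable.of_bound (C := 1 * CX) ?_ (Filter.Eventually.of_forall fun U => ?_)
    · exact ((hf.comp (hWm.const_mul _)).mul hX).aestronglyMeasurable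
    · rw [norm_mul, Real.norm_eq_abs, Real.norm_eq_abs]
      exact mul_le_mul (hf1 _) (hCX U) (abs_nonneg _) zero_le_one
  have h1 : ∀ s : ZMod ℓ, I = ∫ U, f (zp z (s * c) * W U) * X U ∂PP (Lk d) μ := by
    intro s
    have hm := tws_mp (d := d) μ z (fun l => s * a l)
    have h2 := integral_map (μ := PP (Lk d) μ) (φ := tws z (fun l => s * a l))
      hm.measurable.aemeasurable (f := fun U => f (W U) * X U)
      ((hf.comp hWm).mul hX).aestronglyMeasurable
    rw [hm.map_eq] at h2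
    rw [hI, h2]
    refine integral_congr_ae (Filter.Eventually.of_forall fun U => ?_)
    show f (W (tws z (fun l => s * a l) U)) * _ = _
    have e1 : K (fun l => s * a l) = s * c := K.map_smul s a
    rw [hW, e1, ha]
  have h2 : ∑ s : ZMod ℓ, I = 0 := by
    rw [Finset.sum_congr rfl fun s _ => h1 s, ← integral_finsetSum _ fun s _ => hint s]
    rw [← integral_zero (Lk d → G) ℝ (μ := PP (Lk d) μ)]
    refine integral_congr_ae (Filter.Eventually.of_forall fun U => ?_)
    show ∑ s : ZMod ℓ, f (zp z (s * c) * W U) * X U = 0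
    rw [← Finset.sum_mul]
    have e3 : ∑ s : ZMod ℓ, f (zp z (s * c) * W U) =
        ∑ s : ZMod ℓ, f (zp z s * W U) := by
      refine Fintype.sum_bijective (fun s : ZMod ℓ => s * c) ?_ _ _ fun s => rfl
      exact mulRight_bijective₀ c hac
    have e4 : ∑ s : ZMod ℓ, f (zp z s * W U) =
        ∑ k ∈ Finset.range ℓ, f (z ^ k * W U) := by
      refine Finset.sum_bij (fun s _ => s.val) (fun s _ => Finset.mem_range.2 (ZMod.val_lt s))
        (fun s _ t _ h => ZMod.val_injective ℓ h) (fun k hk => ?_) fun s _ => rfl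
      refine ⟨(k : ZMod ℓ), Finset.mem_univ _, ?_⟩
      exact ZMod.val_cast_of_lt (Finset.mem_range.1 hk)
    rw [e3, e4, hfz, zero_mul]
  rw [Finset.sum_const, Finset.card_univ, ZMod.card, nsmul_eq_mul] at h2
  rcases mul_eq_zero.1 h2 with h3 | h3
  · exact absurd (Nat.cast_eq_zero.1 h3) hl0.ne'
  · exact h3

end meas

end Pool.Agent.T2H03.AL
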