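import Mathlib
import Pool.Agent.T2H03.AL.Kraft

/-!
# Minimal surfaces and the holes which they avoid
-/

set_option autoImplicit false
set_option linter.unusedSectionVars false

open Relation

namespace Pool.Agent.T2H03.AL

open Pool.Agent.T2H03.YM

variable {d : ℕ} {F : Type*} [Field F] {m : Fin d → Fin d} {u v : V d} {VC : Finset (V d)}
  {C : Lk d → F}

theorem sg_sum {K ι : Type*} (R : ℤ) (n : Pq d → F) (c : V d → K) (L : Finset ι) (w : ι → F)
    (g : ι → K → F) (p : Pq d) : sg m R n c (fun κ => ∑ i ∈ L, w i * g i κ) p =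
      ∑ i ∈ L, w i * sg m R n c (g i) p := by
  unfold sg
  split_ifs
  · exact flc_sum _ _ _ _ _ _ _
  · rw [Finset.sum_mul]
    exact Finset.sum_congr rfl fun i _ => by ring
  · simp

/-- the labels of a surface are consistent -/
theorem lbl (hm : ∀ i, m (m i) = i) (hC : ∀ l, C l ≠ 0 → l.1 ∈ VC ∧ l.1 + e l.2 ∈ VC)
    {n : Pq d → F} (hn : ∀ p, p ∉ Bx u v → n p = 0) (hb : ∀ l, bdy n l = C l) :
    Lbl m n (lb m (Bx u v) VC n) := by
  have hlab : ∀ (p : Pq d) (l : Lk d), p ∈ Ym m (Bx u v) n → l ∈ bd p →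
      lb m (Bx u v) VC n l.1 = lb m (Bx u v) VC n (l.1 + e l.2) := by
    intro p l hp hl
    exact Quot.sound (Or.inl ⟨p, hp, (bd_vt hl).1, (bd_vt hl).2⟩)
  have hlabC : ∀ l : Lk d, bdy n l ≠ 0 →
      lb m (Bx u v) VC n l.1 = lb m (Bx u v) VC n (l.1 + e l.2) := by
    intro l hl
    rw [hb] at hl
    exact Quot.sound (Or.inr (Or.inl (hC l hl)))
  refine ⟨?_, ?_, ?_⟩
  · intro p hp hmp w hw
    have hpY : p ∈ Ym m (Bx u v) n :=
      mem_Ym.2 ⟨by_contra fun h => hp (hn p h), hp, hmp⟩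
    exact Quot.sound (Or.inl ⟨p, hpY, hw, by simp [vt]⟩)
  · intro y i hi h
    by_contra hne
    have h1 : ∀ p ∈ Ym m (Bx u v) n, (y, i) ∉ bd p := fun p hp hl => hne (hlab p (y, i) hp hl)
    have h2 := bdy_lt hm Bx_lt hn hi h1
    apply hne
    apply hlabC (y, i)
    rw [h2]
    exact sub_ne_zero.2 h
  · intro y i hi h
    by_contra hne
    have h1 : ∀ p ∈ Ym m (Bx u v) n, (y, m i) ∉ bd p := fun p hp hl =>
      hne (hlab p (y, m i) hp hl)
    have h2 := bdy_gt hm Bx_lt hn (y := y) (k := m i) (by rw [hm]; exact hi) h1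
    apply hne
    apply hlabC (y, m i)
    rw [h2, hm]
    exact neg_ne_zero.2 (sub_ne_zero.2 h)

/-- the surfaces with boundary `C` in the set `Y` -/
def Ns (C : Lk d → F) (Y : Finset (Pq d)) : Set (Pq d → F) :=
  {n | (∀ p, p ∉ Y → n p = 0) ∧ ∀ l, bdy n l = C l}

/-- the measure which is minimised -/
noncomputable def mu (m : Fin d → Fin d) (S : Finset (Pq d)) (n : Pq d → F) : ℕ :=
  (Ym m S n).card * (S.card + 1) + (Ya S n).card

theorem exists_min {Y : Finset (Pq d)} (S : Finset (Pq d)) (h : (Ns C Y).Nonempty) :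
    ∃ n ∈ Ns C Y, ∀ n' ∈ Ns C Y, mu m S n ≤ mu m S n' := by
  obtain ⟨n, hn, h1⟩ := WellFounded.has_min (InvImage.wf (mu m S) Nat.lt_wfRel.wf) (Ns C Y) h
  exact ⟨n, hn, fun n' hn' => not_lt.1 (h1 n' hn')⟩

theorem mu_lt {S : Finset (Pq d)} {n n' : Pq d → F}
    (h : (Ym m S n').card < (Ym m S n).card) : mu m S n' < mu m S n := by
  unfold mu
  have h1 : (Ya S n').card ≤ S.card := by
    classical
    unfold Ya
    exact Finset.card_filter_le _ _
  have h2 : ((Ym m S n').card + 1) * (S.card + 1) ≤ (Ym m S n).card * (S.card + 1) :=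
    Nat.mul_le_mul_right _ h
  nlinarith

open Classical in
theorem min_good {S Y : Finset (Pq d)} (hY : Y ⊆ S) {n : Pq d → F} (hn : n ∈ Ns C Y)
    (hmin : ∀ n' ∈ Ns C Y, mu m S n ≤ mu m S n') : Good S C n := by
  refine ⟨fun p hp => hn.1 p fun h => hp (hY h), hn.2, fun X hX p hp => ?_⟩
  by_contra hpX
  have h1 : (fun p => if p ∈ X then n p else 0) ∈ Ns C Y := by
    refine ⟨fun q hq => ?_, hX⟩
    simp only
    rw [hn.1 q hq, ite_self]
  have h2 := hmin _ h1
  have h3 : Ym m S (fun p => if p ∈ X then n p else 0) ⊆ Ym m S n := by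
    intro q hq
    rw [mem_Ym] at hq ⊢
    refine ⟨hq.1, fun h => hq.2.1 (by rw [h, ite_self]), hq.2.2⟩
  have h4 : Ya S (fun p => if p ∈ X then n p else 0) ⊂ Ya S n := by
    rw [Finset.ssubset_iff_of_subset]
    · refine ⟨p, mem_Ya.2 ⟨?_, hp⟩, fun h => ?_⟩
      · by_contra h
        exact hp (hn.1 p fun h' => h (hY h'))
      · rw [mem_Ya, if_neg hpX] at h
        exact h.2 rfl
    · intro q hq
      rw [mem_Ya] at hq ⊢
      exact ⟨hq.1, fun h => hq.2 (by rw [h, ite_self])⟩
  have h5 := Finset.card_le_card h3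
  have h6 := Finset.card_lt_card h4
  unfold mu at h2
  have h7 := Nat.mul_le_mul_right (S.card + 1) h5
  omega

open Classical in
/-- the coefficient of one label -/
noncomputable def dlt {K : Type*} (κ κ' : K) : F := if κ' = κ then 1 else 0

section holes

variable (hm : ∀ i, m (m i) = i) (hC : ∀ l, C l ≠ 0 → l.1 ∈ VC ∧ l.1 + e l.2 ∈ VC)
  {Y : Finset (Pq d)} (hY : Y ⊆ Bx u v) {n : Pq d → F} (hn : n ∈ Ns C Y)
  (hmin : ∀ n' ∈ Ns C Y, mu m (Bx u v) n ≤ mu m (Bx u v) n') {R : ℤ} (hR : ∀ k, v k ≤ R)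

include hm hC hY hn hmin hR

/-- coefficients for which the surface avoids the holes vanish -/
theorem inj_co (co : Lb (Ym m (Bx u v) n) VC ∅ → F)
    (h1 : ∀ κ, κ ∉ LD m (Bx u v) VC ∅ n → co κ = 0)
    (h2 : ∀ p ∈ Bx u v, p ∉ Y → m p.2.1 = p.2.2 → sg m R n (lb m (Bx u v) VC n) co p = 0) :
    ∀ κ, co κ = 0 := by
  by_contra hcon
  push Not at hcon
  obtain ⟨κ, hκ⟩ := hcon
  have hout : ∀ p, p ∉ Bx u v → n p = 0 := fun p hp => hn.1 p fun h => hp (hY h)
  have hL := lbl (VC := VC) hm hC hout hn.2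
  have hκL : κ ∈ LD m (Bx u v) VC ∅ n := by
    by_contra h
    exact hκ (h1 κ h)
  set σ := sg m R n (lb m (Bx u v) VC n) co with hσ
  have hmix : ∀ p ∈ Bx u v, m p.2.1 ≠ p.2.2 → σ p = co (lb m (Bx u v) VC n p.1) * n p := by
    intro p hp hmp
    rw [hσ]
    unfold sg
    rw [if_pos (Bx_lt p hp), if_neg hmp]
  have hn' : (fun p => n p - (co κ)⁻¹ * σ p) ∈ Ns C Y := by
    refine ⟨fun p hp => ?_, fun l => ?_⟩
    · simp only
      rw [hn.1 p hp]
      by_cases hpS : p ∈ Bx u v
      · by_cases hmp : m p.2.1 = p.2.2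
        · rw [h2 p hpS hp hmp]
          ring
        · rw [hmix p hpS hmp, hn.1 p hp]
          ring
      · rw [hσ, sg_out (lb m (Bx u v) VC n) co hout hL hR p hpS]
        ring
    · rw [bdy_sub_smul, hσ, bdy_sg hm (lb m (Bx u v) VC n) co hout hL hR, hn.2 l]
      by_cases hl : C l = 0
      · rw [hl]; ring
      · have h3 : co (lb m (Bx u v) VC n l.1) = 0 := by
          apply h1
          rw [mem_LD]
          rintro ⟨-, h4, -⟩
          exact h4 l.1 (hC l hl).1 rfl
        rw [h3]; ring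
  have h3 := hmin _ hn'
  have h4 : (Ym m (Bx u v) (fun p => n p - (co κ)⁻¹ * σ p)).card <
      (Ym m (Bx u v) n).card := by
    refine Finset.card_lt_card ((Finset.ssubset_iff_of_subset ?_).2 ?_)
    · intro p hp
      rw [mem_Ym] at hp ⊢
      refine ⟨hp.1, fun h => hp.2.1 ?_, hp.2.2⟩
      rw [hmix p hp.1 hp.2.2, h]
      ring
    · rw [mem_LD] at hκL
      obtain ⟨⟨w, hw, hwκ⟩, h5, -⟩ := hκL
      rw [mem_Mv] at hw
      rcases hw with ⟨p, hp, hwp⟩ | hw
      · refine ⟨p, hp, fun h => ?_⟩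
        rw [mem_Ym] at hp h
        apply h.2.1
        have h6 : lb m (Bx u v) VC n p.1 = κ := by
          rw [← hwκ]
          exact (hL.mix p hp.2.1 hp.2.2 w hwp).symm
        rw [hmix p hp.1 hp.2.2, h6, ← mul_assoc, inv_mul_cancel₀ hκ]
        ring
      · exact absurd hwκ (h5 w hw)
  exact absurd h3 (not_le.2 (mu_lt h4))

open Classical in
/-- every part of a minimal surface has its own hole -/
theorem hall [Fintype F] : ∃ π : {κ // κ ∈ LD m (Bx u v) VC ∅ n} → Pq d, Function.Injective π ∧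
    ∀ κ, (π κ ∈ Bx u v ∧ m (π κ).2.1 = (π κ).2.2 ∧
      sg m R n (lb m (Bx u v) VC n) (dlt κ.1) (π κ) ≠ 0) ∧ π κ ∉ Y := by
  set ι := {κ // κ ∈ LD m (Bx u v) VC ∅ n} with hι
  set t : ι → Finset (Pq d) := fun κ => (Bx u v).filter fun p => (m p.2.1 = p.2.2 ∧
    sg m R n (lb m (Bx u v) VC n) (dlt κ.1) p ≠ 0) ∧ p ∉ Y with ht
  have hall : ∀ A : Finset ι, A.card ≤ (A.biUnion t).card := by
    intro A
    set cov : (A → F) → Lb (Ym m (Bx u v) n) VC ∅ → F := fun w κ' =>
      ∑ κ : A, w κ * dlt κ.1.1 κ' with hcov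
    have hsg : ∀ (w : A → F) (p : Pq d), sg m R n (lb m (Bx u v) VC n) (cov w) p =
        ∑ κ : A, w κ * sg m R n (lb m (Bx u v) VC n) (dlt κ.1.1) p := by
      intro w p
      exact sg_sum R n _ Finset.univ w (fun κ : A => dlt κ.1.1) p
    have hcw : ∀ (w : A → F) (κ : A), cov w κ.1.1 = w κ := by
      intro w κ
      simp only [hcov]
      rw [Finset.sum_eq_single κ]
      · simp [dlt]
      · intro κ' _ hne
        unfold dlt
        rw [if_neg, mul_zero]
        intro h
        exact hne (Subtype.ext (Subtype.ext h.symm))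
      · intro h
        exact absurd (Finset.mem_univ _) h
    have hinj : Function.Injective (fun (w : A → F) (p : {p // p ∈ A.biUnion t}) =>
        sg m R n (lb m (Bx u v) VC n) (cov w) p.1) := by
      intro w w' hww
      have h1 : ∀ κ, cov (w - w') κ = 0 := by
        refine inj_co hm hC hY hn hmin hR (cov (w - w')) ?_ ?_
        · intro κ hκ
          simp only [hcov]
          refine Finset.sum_eq_zero fun κ' _ => ?_
          unfold dlt
          rw [if_neg, mul_zero]
          rintro rfl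
          exact hκ κ'.1.2
        · intro p hp hpY hmp
          by_cases hpt : p ∈ A.biUnion t
          · have h2 := congrFun hww ⟨p, hpt⟩
            simp only [hsg] at h2
            rw [hsg]
            simp only [Pi.sub_apply, sub_mul, Finset.sum_sub_distrib]
            rw [h2, sub_self]
          · rw [hsg]
            refine Finset.sum_eq_zero fun κ _ => ?_
            by_contra h3
            apply hpt
            rw [Finset.mem_biUnion]
            refine ⟨κ.1, κ.2, ?_⟩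
            simp only [ht, Finset.mem_filter]
            exact ⟨hp, ⟨hmp, right_ne_zero_of_mul h3⟩, hpY⟩
      funext κ
      have h2 := h1 κ.1.1
      rw [hcw] at h2
      simpa [sub_eq_zero] using h2
    have h3 := Fintype.card_le_of_injective _ hinj
    rw [Fintype.card_fun, Fintype.card_fun, Fintype.card_coe, Fintype.card_coe] at h3
    exact (Nat.pow_le_pow_iff_right Fintype.one_lt_card).1 h3
  obtain ⟨π, hπ, hπt⟩ := (Finset.all_card_le_biUnion_card_iff_exists_injective t).1 hall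
  refine ⟨π, hπ, fun κ => ?_⟩
  have := hπt κ
  simp only [ht, Finset.mem_filter] at this
  exact ⟨⟨this.1, this.2.1.1, this.2.1.2⟩, this.2.2⟩

end holes

end Pool.Agent.T2H03.AL
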