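import Mathlib
import Pool.Agent.T2H03.YM.Count
import Pool.Agent.T2H03.AL.Min

/-!
# The probability that a loop bounds a surface of open plaquettes
-/

set_option autoImplicit false
set_option linter.unusedSectionVars false

open Relation

namespace Pool.Agent.T2H03.AL

open Pool.Agent.T2H03.YM

theorem bern_two {Q : Type*} [DecidableEq Q] (t : Q → ℝ) (M K N : Finset Q) (hK : K ⊆ M)
    (hN : N ⊆ M) (hKN : Disjoint K N) :
    ∑ Y ∈ M.powerset.filter (fun Y => K ⊆ Y ∧ ∀ p ∈ N, p ∉ Y), bern t M Y =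
      (∏ p ∈ K, t p) * ∏ p ∈ N, (1 - t p) := by
  have h := Finset.prod_add (fun p => if p ∈ N then 0 else t p)
    (fun p => if p ∈ K then 0 else 1 - t p) M
  have h1 : ∏ p ∈ M, ((if p ∈ N then 0 else t p) + if p ∈ K then 0 else 1 - t p) =
      (∏ p ∈ K, t p) * ∏ p ∈ N, (1 - t p) := by
    rw [← Finset.prod_sdiff (Finset.union_subset hK hN)]
    have h2 : ∏ p ∈ M \ (K ∪ N), ((if p ∈ N then 0 else t p) + if p ∈ K then 0 else 1 - t p) =
        1 := by
      refine Finset.prod_eq_one fun p hp => ?_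
      rw [Finset.mem_sdiff, Finset.mem_union, not_or] at hp
      rw [if_neg hp.2.1, if_neg hp.2.2]
      ring
    rw [h2, one_mul, Finset.prod_union hKN]
    congr 1
    · refine Finset.prod_congr rfl fun p hp => ?_
      rw [if_pos hp, if_neg (Finset.disjoint_left.1 hKN hp), add_zero]
    · refine Finset.prod_congr rfl fun p hp => ?_
      rw [if_pos hp, if_neg (Finset.disjoint_right.1 hKN hp), zero_add]
  rw [h1] at h
  rw [h, Finset.sum_filter]
  refine Finset.sum_congr rfl fun Y hY => ?_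
  rw [Finset.mem_powerset] at hY
  split_ifs with hKY
  · unfold bern
    congr 1
    · refine Finset.prod_congr rfl fun p hp => ?_
      rw [if_neg fun h => hKY.2 p h hp]
    · refine Finset.prod_congr rfl fun p hp => ?_
      rw [Finset.mem_sdiff] at hp
      rw [if_neg fun h => hp.2 (hKY.1 h)]
  · rw [not_and_or] at hKY
    rcases hKY with hKY | hKY
    · rw [Finset.not_subset] at hKY
      obtain ⟨p, hpK, hpY⟩ := hKY
      have : ∏ p ∈ M \ Y, (if p ∈ K then 0 else 1 - t p) = 0 :=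
        Finset.prod_eq_zero (Finset.mem_sdiff.2 ⟨hK hpK, hpY⟩) (by rw [if_pos hpK])
      rw [this, mul_zero]
    · push Not at hKY
      obtain ⟨p, hpN, hpY⟩ := hKY
      have : ∏ p ∈ Y, (if p ∈ N then 0 else t p) = 0 :=
        Finset.prod_eq_zero hpY (by rw [if_pos hpN])
      rw [this, zero_mul]

variable {d : ℕ} {F : Type*} [Field F] {m : Fin d → Fin d} {u v : V d} {VC : Finset (V d)}
  {C : Lk d → F}

open Classical in
/-- the places of the holes -/
noncomputable def HT (m : Fin d → Fin d) (u v : V d) (VC : Finset (V d)) (R : ℤ) (n : Pq d → F)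
    (κ : Lb (Ym m (Bx u v) n) VC ∅) : Finset (Pq d) :=
  (Bx u v).filter fun p => m p.2.1 = p.2.2 ∧ sg m R n (lb m (Bx u v) VC n) (dlt κ) p ≠ 0

section count

variable (hm : ∀ i, m (m i) = i) (hC : ∀ l, C l ≠ 0 → l.1 ∈ VC ∧ l.1 + e l.2 ∈ VC)
  {n : Pq d → F} (hn : ∀ p, p ∉ Bx u v → n p = 0) (hb : ∀ l, bdy n l = C l) {R : ℤ}
  (hR : ∀ k, v k ≤ R)

include hm hC hn hb hR in
theorem HT_card (κ : Lb (Ym m (Bx u v) n) VC ∅) :
    (HT m u v VC R n κ).card ≤ d * (VK κ).card ^ 2 := by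
  classical
  have hL := lbl (VC := VC) hm hC hn hb
  have h1 : HT m u v VC R n κ ⊆ ((Finset.univ : Finset (Fin d)) ×ˢ (VK κ ×ˢ VK κ)).image
      fun x => ((fun k => if k = m x.1 then x.2.2 k else x.2.1 k : V d), x.1, m x.1) := by
    intro p hp
    obtain ⟨x, i, j⟩ := p
    unfold HT at hp
    rw [Finset.mem_filter] at hp
    obtain ⟨hp1, hp2, hp3⟩ := hp
    simp only at hp2
    subst hp2
    have hij : i < m i := Bx_lt _ hp1
    unfold sg at hp3
    simp only [if_pos hij, if_true] at hp3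
    have hdl : (dlt κ : Lb (Ym m (Bx u v) n) VC ∅ → F) = fun κ' => if κ' = κ then 1 else 0 := by
      funext κ'
      rfl
    rw [hdl] at hp3
    have hT := flc_trap hij.ne (fun y => n (y, i, m i)) R (lb m (Bx u v) VC n)
      (fun y hy => n_R hn hR hy) (fun z hz => hL.j1 z i hij hz) (fun z hz => hL.j2 z i hij hz)
      κ x hp3
    obtain ⟨n1, hn1, h2⟩ := hT.up
    obtain ⟨n2, hn2, h3⟩ := hT.symm.up
    have c1 : (x + (n1 : ℤ) • e (m i)) (m i) - (x + (n2 : ℤ) • e i) (m i) = n1 := by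
      simp only [Pi.add_apply, Pi.smul_apply, e_same, e_ne hij.ne, smul_eq_mul]
      ring
    have hne : x + (n1 : ℤ) • e (m i) ≠ x + (n2 : ℤ) • e i := by
      intro h
      rw [h] at c1
      omega
    have m1 := mem_VK_of_ne h2 h3 hne
    have m2 := mem_VK_of_ne h3 h2 hne.symm
    rw [Finset.mem_image]
    refine ⟨(i, x + (n1 : ℤ) • e (m i), x + (n2 : ℤ) • e i), ?_, ?_⟩
    · simp only [Finset.mem_product, Finset.mem_univ, true_and]
      exact ⟨m1, m2⟩
    · simp only [Prod.mk.injEq, and_true]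
      funext k
      by_cases hk : k = m i
      · subst hk
        simp [e_ne hij.ne]
      · rw [if_neg hk]
        simp [e_ne (Ne.symm hk)]
  refine (Finset.card_le_card h1).trans (Finset.card_image_le.trans ?_)
  rw [Finset.card_product, Finset.card_product, Finset.card_univ, Fintype.card_fin, sq]

theorem VK_ne {D : Finset (V d)} {κ : Lb (Ym m (Bx u v) n) VC ∅} (h : κ ∈ LD m (Bx u v) VC D n) :
    1 ≤ (VK κ).card := by
  rw [mem_LD] at h
  obtain ⟨⟨w, hw, hwκ⟩, -⟩ := h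
  exact Finset.card_pos.2 ⟨w, mem_VK.2 ⟨hw, hwκ⟩⟩

theorem VK_sum (D : Finset (V d)) (n : Pq d → F) :
    ∑ κ ∈ LD m (Bx u v) VC D n, (VK κ).card ≤ 4 * (Ym m (Bx u v) n).card := by
  classical
  have h1 : ∑ κ ∈ LD m (Bx u v) VC D n, (VK κ).card =
      ((LD m (Bx u v) VC D n).biUnion fun κ => VK κ).card := by
    rw [Finset.card_biUnion]
    intro κ _ κ' _ hne
    rw [Function.onFun, Finset.disjoint_left]
    intro w hw hw'
    rw [mem_VK] at hw hw'
    exact hne (hw.2.symm.trans hw'.2)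
  have h2 : ((LD m (Bx u v) VC D n).biUnion fun κ => VK κ) ⊆ (Ym m (Bx u v) n).biUnion vt := by
    intro w hw
    rw [Finset.mem_biUnion] at hw ⊢
    obtain ⟨κ, hκ, hw⟩ := hw
    rw [mem_LD] at hκ
    rw [mem_VK] at hw
    have h3 : w ∈ Mv m (Bx u v) VC n := hw.1
    rw [mem_Mv] at h3
    rcases h3 with h3 | h3
    · exact h3
    · exact absurd hw.2 (hκ.2.1 w h3)
  rw [h1]
  refine (Finset.card_le_card h2).trans ?_
  rw [mul_comm]
  refine Finset.card_biUnion_le_card_mul _ _ _ fun p _ => ?_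
  unfold vt
  exact Finset.card_le_four

theorem Mv_card (S : Finset (Pq d)) (n : Pq d → F) :
    (Mv m S VC n).card ≤ 4 * (Ym m S n).card + VC.card := by
  classical
  unfold Mv VV
  refine (Finset.card_union_le _ _).trans ?_
  rw [Finset.union_empty]
  have h2 : ((Ym m S n).biUnion vt).card ≤ (Ym m S n).card * 4 := by
    refine Finset.card_biUnion_le_card_mul _ _ _ fun p _ => ?_
    unfold vt
    exact Finset.card_le_four
  omega

theorem Av_card (S : Finset (Pq d)) (n : Pq d → F) :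
    (Av S VC n \ Mv m S VC n).card ≤ 4 * (Ys m S n).card := by
  classical
  have h1 : Av S VC n \ Mv m S VC n ⊆ (Ys m S n).biUnion vt := by
    intro w hw
    rw [Finset.mem_sdiff, mem_Av, mem_Mv] at hw
    rw [Finset.mem_biUnion]
    obtain ⟨h1 | h1, h2⟩ := hw
    · obtain ⟨p, hp, hwp⟩ := h1
      rw [mem_Ya] at hp
      refine ⟨p, mem_Ys.2 ⟨hp.1, hp.2, ?_⟩, hwp⟩
      by_contra h3
      exact h2 (Or.inl ⟨p, mem_Ym.2 ⟨hp.1, hp.2, h3⟩, hwp⟩)
    · exact absurd (Or.inr h1) h2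
  refine (Finset.card_le_card h1).trans ?_
  rw [mul_comm]
  refine Finset.card_biUnion_le_card_mul _ _ _ fun p _ => ?_
  unfold vt
  exact Finset.card_le_four

end count

open Classical in
/-- the probabilities of the plaquettes -/
noncomputable def pr (m : Fin d → Fin d) (t q : ℝ) (p : Pq d) : ℝ :=
  if m p.2.1 = p.2.2 then t else q

theorem prod_Ya (m : Fin d → Fin d) (S : Finset (Pq d)) (n : Pq d → F) (t q : ℝ) :
    ∏ p ∈ Ya S n, pr m t q p = t ^ (Ys m S n).card * q ^ (Ym m S n).card := by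
  classical
  have h1 : (Ya S n).filter (fun p => m p.2.1 = p.2.2) = Ys m S n := by
    ext p
    simp only [Finset.mem_filter, mem_Ya, mem_Ys]
    tauto
  have h2 : (Ya S n).filter (fun p => ¬ m p.2.1 = p.2.2) = Ym m S n := by
    ext p
    simp only [Finset.mem_filter, mem_Ya, mem_Ym]
    tauto
  rw [← Finset.prod_filter_mul_prod_filter_not (Ya S n) (fun p => m p.2.1 = p.2.2), h1, h2,
    ← Finset.prod_const, ← Finset.prod_const]
  congr 1
  · refine Finset.prod_congr rfl fun p hp => ?_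
    rw [mem_Ys] at hp
    unfold pr
    rw [if_pos hp.2.2]
  · refine Finset.prod_congr rfl fun p hp => ?_
    rw [mem_Ym] at hp
    unfold pr
    rw [if_neg hp.2.2]

open Classical in
/-- extension by zero -/
noncomputable def ext0 (S : Finset (Pq d)) (g : S → F) (p : Pq d) : F :=
  if h : p ∈ S then g ⟨p, h⟩ else 0

open Classical in
/-- all the surfaces with the boundary `C` which cannot be cut -/
noncomputable def Gd [Fintype F] (S : Finset (Pq d)) (C : Lk d → F) : Finset (Pq d → F) :=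
  ((Finset.univ : Finset (S → F)).image (ext0 S)).filter (Good S C)

theorem mem_Gd [Fintype F] {S : Finset (Pq d)} {C : Lk d → F} {n : Pq d → F} :
    n ∈ Gd S C ↔ Good S C n := by
  classical
  unfold Gd
  rw [Finset.mem_filter]
  refine ⟨fun h => h.2, fun h => ⟨?_, h⟩⟩
  rw [Finset.mem_image]
  refine ⟨fun p => n p.1, Finset.mem_univ _, ?_⟩
  funext p
  unfold ext0
  split_ifs with hp
  · rfl
  · exact (h.out p hp).symm

theorem sq_le_four (k : ℕ) : k ^ 2 ≤ 4 ^ k := by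
  have h1 : k ≤ 2 ^ k := Nat.lt_two_pow_self.le
  calc k ^ 2 ≤ (2 ^ k) ^ 2 := Nat.pow_le_pow_left h1 2
    _ = 4 ^ k := by rw [← pow_mul, mul_comm, pow_mul]; norm_num

open Classical in
/-- the choices of the holes -/
noncomputable def Pn (m : Fin d → Fin d) (u v : V d) (VC : Finset (V d)) (R : ℤ) (n : Pq d → F) :
    Finset ({κ // κ ∈ LD m (Bx u v) VC ∅ n} → Pq d) :=
  (Fintype.piFinset fun κ : {κ // κ ∈ LD m (Bx u v) VC ∅ n} => HT m u v VC R n κ.1).filter
      Function.Injective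

open Classical in
/-- the set of the holes -/
noncomputable def im {ι : Type*} [Fintype ι] (π : ι → Pq d) : Finset (Pq d) :=
  Finset.univ.image π

theorem mem_im {ι : Type*} [Fintype ι] {π : ι → Pq d} {p : Pq d} : p ∈ im π ↔ ∃ κ, π κ = p := by
  classical
  unfold im
  simp

theorem mem_Pn {R : ℤ} {n : Pq d → F} {π : {κ // κ ∈ LD m (Bx u v) VC ∅ n} → Pq d} :
    π ∈ Pn m u v VC R n ↔ (∀ κ, π κ ∈ HT m u v VC R n κ.1) ∧ Function.Injective π := by
  classical
  unfold Pn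
  rw [Finset.mem_filter, Fintype.mem_piFinset]

theorem mem_HT {R : ℤ} {n : Pq d → F} {κ : Lb (Ym m (Bx u v) n) VC ∅} {p : Pq d} :
    p ∈ HT m u v VC R n κ ↔ p ∈ Bx u v ∧ m p.2.1 = p.2.2 ∧
      sg m R n (lb m (Bx u v) VC n) (dlt κ) p ≠ 0 := by
  classical
  unfold HT
  rw [Finset.mem_filter]

/-- the surface is open and the holes are closed -/
def EvH (m : Fin d → Fin d) (u v : V d) (VC : Finset (V d)) (n : Pq d → F)
    (π : {κ // κ ∈ LD m (Bx u v) VC ∅ n} → Pq d) (Y : Finset (Pq d)) : Prop :=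
  Ya (Bx u v) n ⊆ Y ∧ ∀ p ∈ im π, p ∉ Y

theorem exists_ev [Fintype F] (hm : ∀ i, m (m i) = i)
    (hC : ∀ l, C l ≠ 0 → l.1 ∈ VC ∧ l.1 + e l.2 ∈ VC) {R : ℤ} (hR : ∀ k, v k ≤ R)
    {Y : Finset (Pq d)} (hY : Y ⊆ Bx u v) (hN : (Ns C Y).Nonempty) :
    ∃ n ∈ Gd (Bx u v) C, ∃ π ∈ Pn m u v VC R n, EvH m u v VC n π Y := by
  obtain ⟨n, hn, hmin⟩ := exists_min (m := m) (Bx u v) hN
  obtain ⟨π, hπ, h1⟩ := hall (VC := VC) hm hC hY hn hmin hR
  refine ⟨n, mem_Gd.2 (min_good hY hn hmin), π, mem_Pn.2 ⟨fun κ => mem_HT.2 (h1 κ).1, hπ⟩, ?_, ?_⟩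
  · intro p hp
    rw [mem_Ya] at hp
    by_contra h
    exact hp.2 (hn.1 p h)
  · intro p hp
    rw [mem_im] at hp
    obtain ⟨κ, rfl⟩ := hp
    exact (h1 κ).2

open Classical in
theorem ev_prob {R : ℤ} {n : Pq d → F} {π : {κ // κ ∈ LD m (Bx u v) VC ∅ n} → Pq d}
    (hπ : π ∈ Pn m u v VC R n) {t q : ℝ} (ht0 : 0 ≤ t) (ht1 : t ≤ 1) (hq0 : 0 ≤ q) :
    ∑ Y ∈ (Bx u v).powerset.filter (fun Y => EvH m u v VC n π Y), bern (pr m t q) (Bx u v) Y ≤
      t ^ (Ys m (Bx u v) n).card * q ^ (Ym m (Bx u v) n).card *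
        (1 - t) ^ (LD m (Bx u v) VC ∅ n).card := by
  have h1t : 0 ≤ 1 - t := by linarith
  rw [mem_Pn] at hπ
  have hsub : im π ⊆ Bx u v := by
    intro p hp
    rw [mem_im] at hp
    obtain ⟨κ, rfl⟩ := hp
    exact (mem_HT.1 (hπ.1 κ)).1
  by_cases hdisj : Disjoint (Ya (Bx u v) n) (im π)
  · have h2 := bern_two (pr m t q) (Bx u v) (Ya (Bx u v) n) (im π)
      (by unfold Ya; exact Finset.filter_subset _ _) hsub hdisj
    have h3 : ∑ Y ∈ (Bx u v).powerset.filter (fun Y => EvH m u v VC n π Y),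
        bern (pr m t q) (Bx u v) Y = (∏ p ∈ Ya (Bx u v) n, pr m t q p) *
          ∏ p ∈ im π, (1 - pr m t q p) := by
      rw [← h2]
      refine Finset.sum_congr (Finset.filter_congr fun Y _ => Iff.rfl) fun _ _ => rfl
    rw [h3, prod_Ya]
    refine mul_le_mul_of_nonneg_left (le_of_eq ?_) (by positivity)
    have h4 : ∀ p ∈ im π, (1 - pr m t q p) = 1 - t := by
      intro p hp
      rw [mem_im] at hp
      obtain ⟨κ, rfl⟩ := hp
      unfold pr
      rw [if_pos (mem_HT.1 (hπ.1 κ)).2.1]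
    rw [Finset.prod_congr rfl h4, Finset.prod_const]
    congr 1
    unfold im
    rw [Finset.card_image_of_injective _ hπ.2, Finset.card_univ, Fintype.card_coe]
  · rw [Finset.not_disjoint_iff] at hdisj
    obtain ⟨p, hp1', hp2'⟩ := hdisj
    rw [Finset.sum_eq_zero]
    · positivity
    · intro Y hY
      rw [Finset.mem_filter] at hY
      exact absurd (hY.2.1 hp1') (hY.2.2 p hp2')

theorem Pn_card (hm : ∀ i, m (m i) = i) (hC : ∀ l, C l ≠ 0 → l.1 ∈ VC ∧ l.1 + e l.2 ∈ VC)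
    {n : Pq d → F} (hn : Good (Bx u v) C n) {R : ℤ} (hR : ∀ k, v k ≤ R) :
    (16 : ℝ) ^ (LD m (Bx u v) VC ∅ n).card * ((Pn m u v VC R n).card : ℝ) ≤
      (64 * (d + 1 : ℝ)) ^ (4 * (Ym m (Bx u v) n).card) := by
  classical
  have s4 : ((Pn m u v VC R n).card : ℝ) ≤
      ∏ κ ∈ LD m (Bx u v) VC ∅ n, ((HT m u v VC R n κ).card : ℝ) := by
    have h2 : (Pn m u v VC R n).card ≤ ∏ κ ∈ LD m (Bx u v) VC ∅ n, (HT m u v VC R n κ).card := by
      unfold Pn
      refine (Finset.card_filter_le _ _).trans ?_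
      rw [Fintype.card_piFinset]
      exact le_of_eq (Finset.prod_coe_sort (LD m (Bx u v) VC ∅ n)
        (fun κ => (HT m u v VC R n κ).card))
    exact_mod_cast h2
  refine (mul_le_mul_of_nonneg_left s4 (by positivity)).trans ?_
  rw [← Finset.prod_const, ← Finset.prod_mul_distrib]
  have hB : (1 : ℝ) ≤ 64 * (d + 1 : ℝ) := by
    have : (0 : ℝ) ≤ d := Nat.cast_nonneg d
    linarith
  have h2 : ∀ κ ∈ LD m (Bx u v) VC ∅ n, 16 * ((HT m u v VC R n κ).card : ℝ) ≤
      (64 * (d + 1 : ℝ)) ^ (VK κ).card := by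
    intro κ hκ
    have h3 := HT_card hm hC hn.out hn.bd hR κ
    have h4 := VK_ne hκ
    have h5 : ((HT m u v VC R n κ).card : ℝ) ≤ d * 4 ^ (VK κ).card := by
      have h6 : (HT m u v VC R n κ).card ≤ d * 4 ^ (VK κ).card :=
        h3.trans (Nat.mul_le_mul_left _ (sq_le_four _))
      exact_mod_cast h6
    have h7 : (64 * (d + 1 : ℝ)) ^ (VK κ).card =
        (16 * (d + 1 : ℝ)) ^ (VK κ).card * 4 ^ (VK κ).card := by
      rw [← mul_pow]
      ring
    rw [h7]
    have h8 : 16 * (d + 1 : ℝ) ≤ (16 * (d + 1 : ℝ)) ^ (VK κ).card := by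
      refine le_self_pow₀ ?_ (by omega)
      have : (0 : ℝ) ≤ d := Nat.cast_nonneg d
      linarith
    have h9 : (0 : ℝ) ≤ 4 ^ (VK κ).card := by positivity
    nlinarith
  have h3 : ∏ κ ∈ LD m (Bx u v) VC ∅ n, 16 * ((HT m u v VC R n κ).card : ℝ) ≤
      ∏ κ ∈ LD m (Bx u v) VC ∅ n, (64 * (d + 1 : ℝ)) ^ (VK κ).card :=
    Finset.prod_le_prod (fun κ _ => by positivity) h2
  refine h3.trans ?_
  rw [Finset.prod_pow_eq_pow_sum]
  exact pow_le_pow_right₀ hB (VK_sum ∅ n)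

theorem arith16 {a N B X : ℝ} {r : ℕ} (ha : 0 ≤ a) (h : (16 : ℝ) ^ r * N ≤ B) (hX : 0 ≤ X) :
    N * (X * a ^ r) ≤ X * ((a / 16) ^ r * B) := by
  calc N * (X * a ^ r) = X * ((a / 16) ^ r * ((16 : ℝ) ^ r * N)) := by
        rw [div_pow]
        field_simp
    _ ≤ _ := by
        refine mul_le_mul_of_nonneg_left ?_ hX
        exact mul_le_mul_of_nonneg_left h (by positivity)

open Classical in
/-- **The union bound.** -/
theorem union_bound [Fintype F] (hm : ∀ i, m (m i) = i)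
    (hC : ∀ l, C l ≠ 0 → l.1 ∈ VC ∧ l.1 + e l.2 ∈ VC) {t q : ℝ} (ht0 : 0 ≤ t) (ht1 : t ≤ 1)
    (hq0 : 0 ≤ q) (hq1 : q ≤ 1) :
    ∑ Y ∈ (Bx u v).powerset.filter (fun Y => (Ns C Y).Nonempty), bern (pr m t q) (Bx u v) Y ≤
      ∑ n ∈ Gd (Bx u v) C, t ^ (Ys m (Bx u v) n).card * q ^ (Ym m (Bx u v) n).card *
        (((1 - t) / 16) ^ (LD m (Bx u v) VC ∅ n).card *
          (64 * (d + 1 : ℝ)) ^ (4 * (Ym m (Bx u v) n).card)) := by
  obtain ⟨R, hR⟩ : ∃ R : ℤ, ∀ k, v k ≤ R := by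
    obtain ⟨R, hR⟩ := Finset.exists_le (Finset.univ.image v)
    exact ⟨R, fun k => hR _ (Finset.mem_image_of_mem _ (Finset.mem_univ k))⟩
  have hp0 : ∀ p, 0 ≤ pr m t q p := by
    intro p; unfold pr; split_ifs <;> assumption
  have hp1 : ∀ p, pr m t q p ≤ 1 := by
    intro p; unfold pr; split_ifs <;> assumption
  have hbn := bern_nonneg hp0 hp1 (Bx u v)
  have s1 : ∑ Y ∈ (Bx u v).powerset.filter (fun Y => (Ns C Y).Nonempty),
      bern (pr m t q) (Bx u v) Y ≤ ∑ n ∈ Gd (Bx u v) C,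
        ∑ Y ∈ (Bx u v).powerset.filter (fun Y => ∃ π ∈ Pn m u v VC R n, EvH m u v VC n π Y),
          bern (pr m t q) (Bx u v) Y := by
    refine cover _ _ _ hbn _ fun Y hY => ?_
    rw [Finset.mem_filter, Finset.mem_powerset] at hY
    obtain ⟨n, hn, h2⟩ := exists_ev (m := m) (VC := VC) hm hC hR hY.1 hY.2
    exact ⟨n, hn, Finset.mem_filter.2 ⟨Finset.mem_powerset.2 hY.1, h2⟩⟩
  refine s1.trans (Finset.sum_le_sum fun n hn => ?_)
  rw [mem_Gd] at hn
  have s2 : ∑ Y ∈ (Bx u v).powerset.filter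
        (fun Y => ∃ π ∈ Pn m u v VC R n, EvH m u v VC n π Y), bern (pr m t q) (Bx u v) Y ≤
      ∑ π ∈ Pn m u v VC R n, ∑ Y ∈ (Bx u v).powerset.filter (fun Y => EvH m u v VC n π Y),
        bern (pr m t q) (Bx u v) Y := by
    refine cover _ _ _ hbn _ fun Y hY => ?_
    rw [Finset.mem_filter] at hY
    obtain ⟨π, hπ, h2⟩ := hY.2
    exact ⟨π, hπ, Finset.mem_filter.2 ⟨hY.1, h2⟩⟩
  refine s2.trans ((Finset.sum_le_sum fun π hπ => ev_prob hπ ht0 ht1 hq0).trans ?_)
  rw [Finset.sum_const, nsmul_eq_mul]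
  have h1t : 0 ≤ 1 - t := by linarith
  have s5 := Pn_card (VC := VC) hm hC hn hR
  have s6 : 0 ≤ t ^ (Ys m (Bx u v) n).card * q ^ (Ym m (Bx u v) n).card := by positivity
  exact arith16 h1t s5 s6

/-- the number of the informations at a vertex -/
noncomputable def AF (F : Type*) [Fintype F] (d : ℕ) : ℝ := (Fintype.card F : ℝ) ^ (2 * (d * (d - 1)))

/-- the constant of the density of the mixed plaquettes -/
noncomputable def KF (F : Type*) [Fintype F] (d : ℕ) : ℝ := (64 * (d + 1 : ℝ) * AF F d) ^ 4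

theorem AF_one (F : Type*) [Fintype F] [Nonempty F] (d : ℕ) : 1 ≤ AF F d :=
  one_le_pow₀ (by exact_mod_cast Fintype.card_pos)

open Classical in
/-- **The area law of the anisotropic percolation of plaquettes.** -/
theorem perc_area [Fintype F] (hm : ∀ i, m (m i) = i)
    (hC : ∀ l, C l ≠ 0 → l.1 ∈ VC ∧ l.1 + e l.2 ∈ VC) {t q : ℝ} (ht0 : 0 ≤ t) (ht1 : t ≤ 1)
    (hq0 : 0 ≤ q) (hq : q * KF F d ≤ 1) {α γ : ℕ}
    (hαγ : ∀ n, Good (Bx u v) C n → α ≤ (Ys m (Bx u v) n).card ∧ γ ≤ (Ym m (Bx u v) n).card) :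
    ∑ Y ∈ (Bx u v).powerset.filter (fun Y => (Ns C Y).Nonempty), bern (pr m t q) (Bx u v) Y ≤
      AF F d ^ VC.card * ((1 + t) / 2) ^ α * (q * KF F d) ^ γ := by
  have hA1 : 1 ≤ AF F d := AF_one F d
  have hA0 : 0 < AF F d := by linarith
  have hB : (1 : ℝ) ≤ 64 * (d + 1 : ℝ) := by
    have : (0 : ℝ) ≤ d := Nat.cast_nonneg d
    linarith
  have hK1 : 1 ≤ KF F d := one_le_pow₀ (by nlinarith)
  have hq1 : q ≤ 1 := by nlinarith
  refine (union_bound (VC := VC) hm hC ht0 ht1 hq0 hq1).trans ?_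
  set η := (1 - t) / 16 with hη
  have hη0 : 0 ≤ η := by rw [hη]; linarith
  have hη1 : η ≤ 1 := by rw [hη]; linarith
  have hk := kraft (S := Bx u v) (VC := VC) hm Bx_lt hC (Gd (Bx u v) C)
    (fun n hn => mem_Gd.1 hn) hη0 hη1 ∅ (fun _ => none)
  rw [Finset.filter_true_of_mem (fun n _ w hw => absurd hw (Finset.notMem_empty w))] at hk
  have key : ∀ n ∈ Gd (Bx u v) C, t ^ (Ys m (Bx u v) n).card * q ^ (Ym m (Bx u v) n).card *
        (η ^ (LD m (Bx u v) VC ∅ n).card *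
          (64 * (d + 1 : ℝ)) ^ (4 * (Ym m (Bx u v) n).card)) ≤
      (AF F d ^ VC.card * ((1 + t) / 2) ^ α * (q * KF F d) ^ γ) *
        wg m (Bx u v) VC η ((Fintype.card F : ℝ) ^ (2 * (d * (d - 1))))⁻¹ ∅ n := by
    intro n hn
    obtain ⟨h1, h2⟩ := hαγ n (mem_Gd.1 hn)
    have h3 := Mv_card (m := m) (VC := VC) (Bx u v) n
    have h4 := Av_card (m := m) (VC := VC) (Bx u v) n
    unfold wg
    rw [Finset.sdiff_empty, Finset.sdiff_empty]
    set s := (Ys m (Bx u v) n).card with hs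
    set k := (Ym m (Bx u v) n).card with hkk
    set r := (LD m (Bx u v) VC ∅ n).card with hr
    set a := (Mv m (Bx u v) VC n).card with ha
    set b := (Av (Bx u v) VC n \ Mv m (Bx u v) VC n).card with hb
    have hAF : ((Fintype.card F : ℝ) ^ (2 * (d * (d - 1)))) = AF F d := rfl
    rw [hAF]
    have hη1' : 0 ≤ 1 - η := by linarith
    -- the sheets
    have e1 : t ^ s ≤ ((1 + t) / 2) ^ α * (1 - η) ^ b := by
      have f1 : t ≤ (1 - η) ^ 4 * ((1 + t) / 2) := by
        have g1 : 1 - 4 * η ≤ (1 - η) ^ 4 := by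
          have := one_add_mul_le_pow (a := -η) (by linarith) 4
          push_cast at this
          have g2 : (1 + -η) = 1 - η := by ring
          rw [g2] at this
          linarith
        have g2 : t ≤ (1 - 4 * η) * ((1 + t) / 2) := by
          rw [hη]
          nlinarith
        refine g2.trans (mul_le_mul_of_nonneg_right g1 (by linarith))
      calc t ^ s ≤ ((1 - η) ^ 4 * ((1 + t) / 2)) ^ s := pow_le_pow_left₀ ht0 f1 s
        _ = ((1 + t) / 2) ^ s * (1 - η) ^ (4 * s) := by rw [mul_pow, ← pow_mul]; ring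
        _ ≤ _ := by
          refine mul_le_mul (pow_le_pow_of_le_one (by linarith) (by linarith) h1)
            (pow_le_pow_of_le_one hη1' (by linarith) h4) (by positivity) (by
              have : 0 ≤ (1 + t) / 2 := by linarith
              positivity)
    -- the mixed plaquettes
    have e2 : q ^ k * (64 * (d + 1 : ℝ)) ^ (4 * k) ≤
        AF F d ^ VC.card * (q * KF F d) ^ γ * (AF F d)⁻¹ ^ a := by
      have f1 : q ^ k * (64 * (d + 1 : ℝ)) ^ (4 * k) =
          (q * KF F d) ^ k * (AF F d)⁻¹ ^ (4 * k) := by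
        unfold KF
        rw [mul_pow q, mul_pow (64 * (d + 1 : ℝ)), mul_pow _ _ k, ← pow_mul, ← pow_mul, inv_pow]
        field_simp
      have f2 : (AF F d)⁻¹ ^ (4 * k) ≤ AF F d ^ VC.card * (AF F d)⁻¹ ^ a := by
        have g1 : (AF F d)⁻¹ ^ (4 * k + VC.card) ≤ (AF F d)⁻¹ ^ a :=
          pow_le_pow_of_le_one (by positivity) (inv_le_one_of_one_le₀ hA1) h3
        have g2 : (AF F d)⁻¹ ^ (4 * k) = AF F d ^ VC.card * (AF F d)⁻¹ ^ (4 * k + VC.card) := by
          rw [pow_add, inv_pow, inv_pow]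
          field_simp
        rw [g2]
        exact mul_le_mul_of_nonneg_left g1 (by positivity)
      have f3 : (q * KF F d) ^ k ≤ (q * KF F d) ^ γ :=
        pow_le_pow_of_le_one (by positivity) hq h2
      rw [f1]
      calc (q * KF F d) ^ k * (AF F d)⁻¹ ^ (4 * k)
          ≤ (q * KF F d) ^ γ * (AF F d ^ VC.card * (AF F d)⁻¹ ^ a) :=
            mul_le_mul f3 f2 (by positivity) (by positivity)
        _ = _ := by ring
    have hη2 : 0 ≤ η ^ r := pow_nonneg hη0 r
    calc t ^ s * q ^ k * (η ^ r * (64 * (d + 1 : ℝ)) ^ (4 * k))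
        = (t ^ s) * (q ^ k * (64 * (d + 1 : ℝ)) ^ (4 * k)) * η ^ r := by ring
      _ ≤ (((1 + t) / 2) ^ α * (1 - η) ^ b) *
          (AF F d ^ VC.card * (q * KF F d) ^ γ * (AF F d)⁻¹ ^ a) * η ^ r := by
          refine mul_le_mul_of_nonneg_right ?_ hη2
          refine mul_le_mul e1 e2 (by positivity) ?_
          have : 0 ≤ (1 + t) / 2 := by linarith
          positivity
      _ = _ := by ring
  refine (Finset.sum_le_sum key).trans ?_
  rw [← Finset.mul_sum]
  have hM : 0 ≤ AF F d ^ VC.card * ((1 + t) / 2) ^ α * (q * KF F d) ^ γ := by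
    have : 0 ≤ (1 + t) / 2 := by linarith
    positivity
  calc _ ≤ (AF F d ^ VC.card * ((1 + t) / 2) ^ α * (q * KF F d) ^ γ) * 1 :=
        mul_le_mul_of_nonneg_left hk hM
    _ = _ := mul_one _

end Pool.Agent.T2H03.AL
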