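import Mathlib
import Pool.Agent.T2H03.YM.Ex
import Pool.Agent.T2H03.AL.Gauge
import Pool.Agent.T2H03.AL.Perc

/-!
# The bound of the Wilson loops by the percolation probability
-/

set_option autoImplicit false
set_option linter.unusedSectionVars false

open MeasureTheory Measure Set

namespace Pool.Agent.T2H03.AL

open Pool.Agent.T2H03.YM

variable {d : ℕ} {G : Type*} [Group G] [MeasurableSpace G] [MeasurableMul₂ G] [MeasurableInv G]

theorem Ns_mono {F : Type*} [Field F] {C : Lk d → F} {Y Y' : Finset (Pq d)} (h : Y ⊆ Y')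
    (hN : (Ns C Y).Nonempty) : (Ns C Y').Nonempty := by
  obtain ⟨n, hn⟩ := hN
  exact ⟨n, fun p hp => hn.1 p fun h' => hp (h h'), hn.2⟩

variable (μ : Measure G) [IsProbabilityMeasure μ] [μ.IsMulLeftInvariant] {ℓ : ℕ} [Fact ℓ.Prime]
  {m : Fin d → Fin d} {u v : V d}

open Classical in
/-- the expansion -/
theorem expand_bound {z : G} (hz : z ^ ℓ = 1) (hc : ∀ g : G, z * g = g * z)
    (w : Pq d → G → ℝ) (hw : ∀ p, Measurable (w p)) (C0 : ℝ) (hC0 : ∀ p g, w p g ≤ C0)
    (c : Pq d → G → ℝ) (hcm : ∀ p, Measurable (c p)) (hcz : ∀ p g, c p (z * g) = c p g)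
    (hc0 : ∀ p g, 0 < c p g) (hcw : ∀ p g, c p g ≤ w p g) {t q : ℝ} (ht0 : 0 ≤ t)
    (ht1 : t ≤ 1) (hq0 : 0 ≤ q) (hq1 : q ≤ 1)
    (hpr : ∀ p ∈ Bx u v, ∀ g, (1 - pr m t q p) * w p g ≤ c p g)
    (f : G → ℝ) (hf : Measurable f) (hf1 : ∀ g, |f g| ≤ 1)
    (hfz : ∀ g, ∑ k ∈ Finset.range ℓ, f (z ^ k * g) = 0) (W : (Lk d → G) → G)
    (hWm : Measurable W) (K : (Lk d → ZMod ℓ) →ₗ[ZMod ℓ] ZMod ℓ)
    (hW : ∀ a U, W (tws z a U) = zp z (K a) * W U) :
    |∫ U, f (W U) * wt (Bx u v) w U ∂PP (Lk d) μ| ≤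
      (∑ Y ∈ (Bx u v).powerset.filter
        (fun Y => (Ns (fun l => K (Pi.single l 1)) Y).Nonempty), bern (pr m t q) (Bx u v) Y) *
      ∫ U, wt (Bx u v) w U ∂PP (Lk d) μ := by
  set S := Bx u v with hS
  set E : Finset (Pq d) → Prop := fun Y => (Ns (fun l => K (Pi.single l 1)) Y).Nonempty with hE
  set ρ : Pq d → G → ℝ := fun p g => w p g - c p g with hρ
  have hρ0 : ∀ p g, 0 ≤ ρ p g := fun p g => sub_nonneg.2 (hcw p g)
  have hw0 : ∀ p g, 0 < w p g := fun p g => (hc0 p g).trans_le (hcw p g)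
  have hρm : ∀ p, Measurable (ρ p) := fun p => (hw p).sub (hcm p)
  have hρC : ∀ p g, |ρ p g| ≤ C0 := by
    intro p g
    rw [abs_of_nonneg (hρ0 p g)]
    have := hC0 p g
    have := hc0 p g
    simp only [hρ]
    linarith
  have hflp : Measurable (fun U : Lk d → G => f (W U)) := hf.comp hWm
  set cc : Finset (Pq d) → (Lk d → G) → ℝ := fun Y U =>
    (∏ p ∈ Y, ρ p (hol p U)) * ∏ p ∈ S \ Y, c p (hol p U) with hcc
  have hcc0 : ∀ Y U, 0 ≤ cc Y U := fun Y U =>
    mul_nonneg (Finset.prod_nonneg fun p _ => hρ0 p _) (Finset.prod_nonneg fun p _ => (hc0 p _).le)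
  have hccm : ∀ Y, Measurable (cc Y) := fun Y =>
    (Finset.measurable_prod _ fun p _ => (hρm p).comp (hol_meas p)).mul
      (Finset.measurable_prod _ fun p _ => (hcm p).comp (hol_meas p))
  have hcC : ∀ p g, |c p g| ≤ C0 := by
    intro p g
    rw [abs_of_nonneg (hc0 p g).le]
    exact (hcw p g).trans (hC0 p g)
  have hccC : ∀ Y U, |cc Y U| ≤ C0 ^ Y.card * C0 ^ (S \ Y).card := by
    intro Y U
    simp only [hcc]
    rw [abs_mul, Finset.abs_prod, Finset.abs_prod, ← Finset.prod_const, ← Finset.prod_const]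
    refine mul_le_mul (Finset.prod_le_prod (fun _ _ => abs_nonneg _) fun p _ => hρC p _)
      (Finset.prod_le_prod (fun _ _ => abs_nonneg _) fun p _ => hcC p _)
      (Finset.prod_nonneg fun _ _ => abs_nonneg _) (Finset.prod_nonneg fun p _ => ?_)
    exact (abs_nonneg _).trans (hcC p 1)
  -- integrability
  have hint : ∀ Y : Finset (Pq d), Integrable (fun U : Lk d → G =>
      f (W U) * cc Y U) (PP (Lk d) μ) := by
    intro Y
    refine Integrable.of_bound (C := 1 * (C0 ^ Y.card * C0 ^ (S \ Y).card)) ?_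
      (Filter.Eventually.of_forall fun U => ?_)
    · exact (hflp.mul (hccm Y)).aestronglyMeasurable
    · rw [norm_mul, Real.norm_eq_abs, Real.norm_eq_abs]
      exact mul_le_mul (hf1 _) (hccC Y U) (abs_nonneg _) zero_le_one
  have e1 : ∀ U : Lk d → G, f (W U) * wt S w U =
      ∑ Y ∈ S.powerset, f (W U) * cc Y U := by
    intro U
    have h1 : wt S w U = ∏ p ∈ S, (ρ p (hol p U) + c p (hol p U)) := by
      unfold wt
      refine Finset.prod_congr rfl fun p _ => ?_
      simp only [hρ]
      ring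
    rw [h1, Finset.prod_add, Finset.mul_sum]
  have hczp : ∀ (p : Pq d) (s : ZMod ℓ) (g : G), c p (zp z s * g) = c p g := by
    intro p s g
    unfold zp
    induction s.val with
    | zero => rw [pow_zero, one_mul]
    | succ k ih => rw [pow_succ', mul_assoc, hcz, ih]
  -- the terms which vanish
  have e2 : ∀ Y, ¬ E Y → ∫ U, f (W U) * cc Y U ∂PP (Lk d) μ = 0 := by
    intro Y hY
    by_contra hne
    apply hY
    have h1 : ∀ a : Lk d → ZMod ℓ, (∀ p ∈ Y, da a p = 0) → K a = 0 := by
      intro a ha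
      by_contra h2
      refine hne (vanish μ (cc Y) (hccm Y) _ (hccC Y) f hf hf1 hfz W hWm K hW a ?_ h2)
      intro s U
      simp only [hcc]
      have a1 : ∀ p ∈ Y, ρ p (hol p (tws z (fun l => s * a l) U)) = ρ p (hol p U) := by
        intro p hp
        have e2 : da (fun l => s * a l) p = s * da a p := (dal p).map_smul s a
        rw [hol_tws hz hc, e2, ha p hp, mul_zero, zp_zero, one_mul]
      have a2 : ∀ p ∈ S \ Y, c p (hol p (tws z (fun l => s * a l) U)) = c p (hol p U) := by
        intro p _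
        rw [hol_tws hz hc, hczp]
      rw [Finset.prod_congr rfl a1, Finset.prod_congr rfl a2]
    obtain ⟨n, hn, h2⟩ := dual K Y h1
    exact ⟨n, hn, fun l => dual_bdy _ Y hn h2 l⟩
  have e3 : ∫ U, f (W U) * wt S w U ∂PP (Lk d) μ =
      ∫ U, ∑ Y ∈ S.powerset.filter E, f (W U) * cc Y U ∂PP (Lk d) μ := by
    rw [integral_congr_ae (Filter.Eventually.of_forall e1),
      integral_finsetSum _ fun Y _ => hint Y,
      integral_finsetSum _ fun Y _ => hint Y, Finset.sum_filter]
    refine Finset.sum_congr rfl fun Y _ => ?_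
    split_ifs with h
    · rfl
    · exact e2 Y h
  -- the pointwise bound
  have e4 : ∀ U : Lk d → G,
      |∑ Y ∈ S.powerset.filter E, f (W U) * cc Y U| ≤
      (∑ Y ∈ S.powerset.filter E, bern (pr m t q) S Y) * wt S w U := by
    intro U
    set s : Pq d → ℝ := fun p => if p ∈ S then ρ p (hol p U) / w p (hol p U) else 0 with hs
    have hwt : 0 < wt S w U := Finset.prod_pos fun p _ => hw0 p _
    have h1 : ∀ Y ∈ S.powerset.filter E, cc Y U = bern s S Y * wt S w U := by
      intro Y hY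
      rw [Finset.mem_filter, Finset.mem_powerset] at hY
      unfold bern wt
      rw [← Finset.prod_sdiff hY.1 (f := fun p => w p (hol p U))]
      have a1 : ∏ p ∈ Y, s p = ∏ p ∈ Y, (ρ p (hol p U) / w p (hol p U)) := by
        refine Finset.prod_congr rfl fun p hp => ?_
        simp only [hs]
        rw [if_pos (hY.1 hp)]
      have a2 : ∏ p ∈ S \ Y, (1 - s p) = ∏ p ∈ S \ Y, (c p (hol p U) / w p (hol p U)) := by
        refine Finset.prod_congr rfl fun p hp => ?_
        simp only [hs]
        rw [if_pos (Finset.mem_sdiff.1 hp).1]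
        have := (hw0 p (hol p U)).ne'
        simp only [hρ]
        field_simp
        ring
      rw [a1, a2, Finset.prod_div_distrib, Finset.prod_div_distrib]
      have b1 : ∏ p ∈ Y, w p (hol p U) ≠ 0 := Finset.prod_ne_zero_iff.2 fun p _ => (hw0 p _).ne'
      have b2 : ∏ p ∈ S \ Y, w p (hol p U) ≠ 0 :=
        Finset.prod_ne_zero_iff.2 fun p _ => (hw0 p _).ne'
      simp only [hcc]
      field_simp
    have h2 : |∑ Y ∈ S.powerset.filter E, f (W U) * cc Y U| ≤
        ∑ Y ∈ S.powerset.filter E, bern s S Y * wt S w U := by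
      refine (Finset.abs_sum_le_sum_abs _ _).trans (Finset.sum_le_sum fun Y hY => ?_)
      rw [← h1 Y hY, abs_mul, abs_of_nonneg (hcc0 Y U)]
      calc _ ≤ 1 * cc Y U := mul_le_mul_of_nonneg_right (hf1 _) (hcc0 Y U)
        _ = _ := one_mul _
    refine h2.trans ?_
    rw [← Finset.sum_mul]
    refine mul_le_mul_of_nonneg_right ?_ hwt.le
    refine bern_mono s (pr m t q) ?_ ?_ ?_ S E fun Y Y' h h' => Ns_mono h h'
    · intro p
      simp only [hs]
      split_ifs
      · exact div_nonneg (hρ0 p _) (hw0 p _).le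
      · exact le_rfl
    · intro p
      simp only [hs]
      split_ifs with hp
      · rw [div_le_iff₀ (hw0 p _)]
        have := hpr p hp (hol p U)
        simp only [hρ]
        linarith
      · unfold pr
        split_ifs <;> assumption
    · intro p
      unfold pr
      split_ifs <;> assumption
  rw [e3]
  have hwtm : Measurable (fun U : Lk d → G => wt S w U) := wt_meas S w hw
  have hwti : Integrable (fun U : Lk d → G => wt S w U) (PP (Lk d) μ) := by
    refine Integrable.of_bound (C := C0 ^ S.card) hwtm.aestronglyMeasurable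
      (Filter.Eventually.of_forall fun U => ?_)
    rw [Real.norm_eq_abs]
    unfold wt
    rw [Finset.abs_prod, ← Finset.prod_const]
    refine Finset.prod_le_prod (fun _ _ => abs_nonneg _) fun p _ => ?_
    rw [abs_of_pos (hw0 p _)]
    exact hC0 p _
  refine (abs_integral_le_integral_abs).trans ?_
  rw [← integral_const_mul]
  refine integral_mono_of_nonneg (Filter.Eventually.of_forall fun U => abs_nonneg _)
    (hwti.const_mul _) (Filter.Eventually.of_forall e4)

end Pool.Agent.T2H03.AL
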