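import Mathlib
import Pool.Agent.T2H03.AL.Wil

/-!
# Closed paths and the area law for all of them
-/

set_option autoImplicit false
set_option linter.unusedSectionVars false

open MeasureTheory Measure Set

namespace Pool.Agent.T2H03.AL

open Pool.Agent.T2H03.YM

variable {d : ℕ}

/-- the path-ordered product of the link variables along a path -/
def ph {G : Type*} [Group G] (U : Lk d → G) : V d → List (Fin d × Bool) → G
  | _, [] => 1
  | x, (k, true) :: γ => U (x, k) * ph U (x + e k) γ
  | x, (k, false) :: γ => (U (x - e k, k))⁻¹ * ph U (x - e k) γ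

/-- the end of the path -/
def en : V d → List (Fin d × Bool) → V d
  | x, [] => x
  | x, (k, true) :: γ => en (x + e k) γ
  | x, (k, false) :: γ => en (x - e k) γ

/-- the signed sum of a function on the links along a path -/
def cs {A : Type*} [AddGroup A] (a : Lk d → A) : V d → List (Fin d × Bool) → A
  | _, [] => 0
  | x, (k, true) :: γ => a (x, k) + cs a (x + e k) γ
  | x, (k, false) :: γ => - a (x - e k, k) + cs a (x - e k) γ

/-- the vertices of a path -/
def vs : V d → List (Fin d × Bool) → Finset (V d)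
  | x, [] => {x}
  | x, (k, true) :: γ => insert x (vs (x + e k) γ)
  | x, (k, false) :: γ => insert x (vs (x - e k) γ)

/-- the links of a path -/
def lks : V d → List (Fin d × Bool) → Finset (Lk d)
  | _, [] => ∅
  | x, (k, true) :: γ => insert (x, k) (lks (x + e k) γ)
  | x, (k, false) :: γ => insert (x - e k, k) (lks (x - e k) γ)

theorem vs_card (x : V d) (γ : List (Fin d × Bool)) : (vs x γ).card ≤ γ.length + 1 := by
  induction γ generalizing x with
  | nil => simp [vs]
  | cons s γ ih =>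
    obtain ⟨k, b⟩ := s
    cases b
    · rw [vs, List.length_cons]
      exact (Finset.card_insert_le _ _).trans (Nat.add_le_add_right (ih _) 1)
    · rw [vs, List.length_cons]
      exact (Finset.card_insert_le _ _).trans (Nat.add_le_add_right (ih _) 1)

theorem self_vs (x : V d) (γ : List (Fin d × Bool)) : x ∈ vs x γ := by
  cases γ with
  | nil => simp [vs]
  | cons s γ =>
    obtain ⟨k, b⟩ := s
    cases b <;> simp [vs]

theorem lks_vs {x : V d} {γ : List (Fin d × Bool)} {l : Lk d} (h : l ∈ lks x γ) :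
    l.1 ∈ vs x γ ∧ l.1 + e l.2 ∈ vs x γ := by
  induction γ generalizing x with
  | nil => simp [lks] at h
  | cons s γ ih =>
    obtain ⟨k, b⟩ := s
    cases b
    · rw [lks, Finset.mem_insert] at h
      rw [vs]
      rcases h with rfl | h
      · simp only [sub_add_cancel]
        exact ⟨Finset.mem_insert_of_mem (self_vs _ _), Finset.mem_insert_self _ _⟩
      · exact ⟨Finset.mem_insert_of_mem (ih h).1, Finset.mem_insert_of_mem (ih h).2⟩
    · rw [lks, Finset.mem_insert] at h
      rw [vs]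
      rcases h with rfl | h
      · exact ⟨Finset.mem_insert_self _ _, Finset.mem_insert_of_mem (self_vs _ _)⟩
      · exact ⟨Finset.mem_insert_of_mem (ih h).1, Finset.mem_insert_of_mem (ih h).2⟩

theorem cs_congr {A : Type*} [AddGroup A] {a a' : Lk d → A} {x : V d}
    {γ : List (Fin d × Bool)} (h : ∀ l ∈ lks x γ, a l = a' l) : cs a x γ = cs a' x γ := by
  induction γ generalizing x with
  | nil => rfl
  | cons s γ ih =>
    obtain ⟨k, b⟩ := s
    cases b
    · rw [lks] at h
      rw [cs, cs, h _ (Finset.mem_insert_self _ _),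
        ih fun l hl => h l (Finset.mem_insert_of_mem hl)]
    · rw [lks] at h
      rw [cs, cs, h _ (Finset.mem_insert_self _ _),
        ih fun l hl => h l (Finset.mem_insert_of_mem hl)]

theorem ph_congr {G : Type*} [Group G] {U U' : Lk d → G} {x : V d}
    {γ : List (Fin d × Bool)} (h : ∀ l ∈ lks x γ, U l = U' l) : ph U x γ = ph U' x γ := by
  induction γ generalizing x with
  | nil => rfl
  | cons s γ ih =>
    obtain ⟨k, b⟩ := s
    cases b
    · rw [lks] at h
      rw [ph, ph, h _ (Finset.mem_insert_self _ _),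
        ih fun l hl => h l (Finset.mem_insert_of_mem hl)]
    · rw [lks] at h
      rw [ph, ph, h _ (Finset.mem_insert_self _ _),
        ih fun l hl => h l (Finset.mem_insert_of_mem hl)]

theorem cs_cast {ℓ : ℕ} (a : Lk d → ℤ) (x : V d) (γ : List (Fin d × Bool)) :
    ((cs a x γ : ℤ) : ZMod ℓ) = cs (fun l => ((a l : ℤ) : ZMod ℓ)) x γ := by
  induction γ generalizing x with
  | nil => simp [cs]
  | cons s γ ih =>
    obtain ⟨k, b⟩ := s
    cases b <;> simp [cs, ih]

/-- the sum along a path as a linear functional -/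
def csl {F : Type*} [Field F] (x : V d) (γ : List (Fin d × Bool)) : (Lk d → F) →ₗ[F] F where
  toFun a := cs a x γ
  map_add' a b := by
    induction γ generalizing x with
    | nil => simp [cs]
    | cons s γ ih =>
      obtain ⟨k, c⟩ := s
      cases c
      · simp only [cs, Pi.add_apply, ih]; ring
      · simp only [cs, Pi.add_apply, ih]; ring
  map_smul' c a := by
    induction γ generalizing x with
    | nil => simp [cs]
    | cons s γ ih =>
      obtain ⟨k, b⟩ := s
      simp only [RingHom.id_apply, smul_eq_mul] at ih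
      cases b
      · simp only [cs, Pi.smul_apply, smul_eq_mul, RingHom.id_apply, ih]; ring
      · simp only [cs, Pi.smul_apply, smul_eq_mul, RingHom.id_apply, ih]; ring

theorem ph_tws {G : Type*} [Group G] {ℓ : ℕ} [NeZero ℓ] {z : G} (hz : z ^ ℓ = 1)
    (hc : ∀ g : G, z * g = g * z) (a : Lk d → ZMod ℓ)
    (U : Lk d → G) (x : V d) (γ : List (Fin d × Bool)) :
    ph (tws z a U) x γ = zp z (cs a x γ) * ph U x γ := by
  induction γ generalizing x with
  | nil => simp [ph, cs, zp_zero]
  | cons s γ ih =>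
    obtain ⟨k, b⟩ := s
    cases b
    · rw [ph, ph, cs, ih]
      show (zp z (a _) * _)⁻¹ * _ = _
      rw [zp_inv hz hc, zp_mul hz hc]
    · rw [ph, ph, cs, ih]
      show (zp z (a _) * _) * _ = _
      rw [zp_mul hz hc]

theorem ph_meas {G : Type*} [Group G] [MeasurableSpace G] [MeasurableMul₂ G] [MeasurableInv G]
    (x : V d) (γ : List (Fin d × Bool)) : Measurable (fun U : Lk d → G => ph U x γ) := by
  induction γ generalizing x with
  | nil => exact measurable_const
  | cons s γ ih =>
    obtain ⟨k, b⟩ := s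
    cases b
    · exact (measurable_pi_apply _).inv.mul (ih _)
    · exact (measurable_pi_apply _).mul (ih _)

theorem cs_sum {F : Type*} [Field F] {x : V d} {γ : List (Fin d × Bool)} (L : Finset (Lk d))
    (hL : lks x γ ⊆ L) (a : Lk d → F) :
    cs a x γ = ∑ l ∈ L, a l * csl x γ (Pi.single l 1) := by
  have h1 : cs a x γ = csl x γ (∑ l ∈ L, a l • Pi.single l (1 : F)) := by
    show cs a x γ = cs _ x γ
    refine cs_congr fun l hl => ?_
    rw [Finset.sum_apply, Finset.sum_eq_single l]
    · simp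
    · intro l' _ hne
      rw [Pi.smul_apply, Pi.single_eq_of_ne hne.symm, smul_zero]
    · intro h
      exact absurd (hL hl) h
  rw [h1, _root_.map_sum]
  refine Finset.sum_congr rfl fun l _ => ?_
  rw [map_smul, smul_eq_mul]

theorem csl_vs {F : Type*} [Field F] {x : V d} {γ : List (Fin d × Bool)} {l : Lk d}
    (h : csl (F := F) x γ (Pi.single l 1) ≠ 0) : l.1 ∈ vs x γ ∧ l.1 + e l.2 ∈ vs x γ := by
  apply lks_vs
  by_contra h1
  apply h
  show cs _ x γ = 0
  have h2 : cs (fun _ => (0 : F)) x γ = 0 := (csl (F := F) x γ).map_zero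
  rw [← h2]
  refine cs_congr fun l' hl' => ?_
  rw [Pi.single_eq_of_ne]
  rintro rfl
  exact h1 hl'

open Classical in
/-- the plaquettes of a surface in the directions `i`, `j` -/
noncomputable def Nij {F : Type*} [Field F] (S : Finset (Pq d)) (n : Pq d → F)
    (ij : Fin d × Fin d) : Finset (Pq d) :=
  S.filter fun p => n p ≠ 0 ∧ p.2 = ij

theorem mem_Nij {F : Type*} [Field F] {S : Finset (Pq d)} {n : Pq d → F} {ij : Fin d × Fin d}
    {p : Pq d} : p ∈ Nij S n ij ↔ p ∈ S ∧ n p ≠ 0 ∧ p.2 = ij := by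
  classical
  unfold Nij
  rw [Finset.mem_filter]

/-- a surface has plaquettes over all cells with winding number different from zero -/
theorem wind_cell {F : Type*} [Field F] {S : Finset (Pq d)} (hS : ∀ p ∈ S, p.2.1 < p.2.2)
    {x : V d} {γ : List (Fin d × Bool)} {i j : Fin d} (hij : i < j) {n : Pq d → F}
    (hn : ∀ p, p ∉ S → n p = 0) (hb : ∀ l, bdy n l = csl x γ (Pi.single l 1)) {s s' : ℤ}
    (h : cs (av (F := F) i j s s') x γ ≠ 0) :
    ∃ p ∈ Nij S n (i, j), (p.1 i, p.1 j) = (s, s') := by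
  classical
  by_contra hcon
  push Not at hcon
  have h1 := pair S (S.biUnion bd ∪ lks x γ)
    (fun p hp l hl => Finset.mem_union_left _ (Finset.mem_biUnion.2 ⟨p, hp, hl⟩)) n hn
    (av i j s s')
  have h2 : ∑ p ∈ S, n p * da (av (F := F) i j s s') p = 0 := by
    refine Finset.sum_eq_zero fun p hp => ?_
    rw [da_av hij _ _ (hS p hp)]
    split_ifs with h3
    · by_contra h4
      rw [mul_one] at h4
      exact hcon p (mem_Nij.2 ⟨hp, h4, h3.1⟩) (by rw [h3.2.1, h3.2.2])
    · rw [mul_zero]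
  rw [h2] at h1
  apply h
  rw [cs_sum (S.biUnion bd ∪ lks x γ) Finset.subset_union_right (av i j s s'), h1]
  exact Finset.sum_congr rfl fun l _ => by rw [hb]

section core

variable {G : Type*} [Group G] [MeasurableSpace G] [MeasurableMul₂ G] [MeasurableInv G]
  (μ : Measure G) [IsProbabilityMeasure μ] [μ.IsMulLeftInvariant] {ℓ : ℕ} [Fact ℓ.Prime]
  {m : Fin d → Fin d} {u v : V d}

/-- the pairs of directions -/
def P2 (d : ℕ) : Finset (Fin d × Fin d) := Finset.univ.filter fun ij => ij.1 < ij.2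

theorem mem_P2 {ij : Fin d × Fin d} : ij ∈ P2 d ↔ ij.1 < ij.2 := by simp [P2]

theorem prod_P2 (m : Fin d → Fin d) (τs τm : ℝ) (A : Fin d × Fin d → ℕ) :
    ∏ ij ∈ P2 d, (if m ij.1 = ij.2 then τs else τm) ^ A ij =
      τs ^ (∑ ij ∈ (P2 d).filter (fun ij => m ij.1 = ij.2), A ij) *
        τm ^ (∑ ij ∈ (P2 d).filter (fun ij => ¬ m ij.1 = ij.2), A ij) := by
  rw [← Finset.prod_filter_mul_prod_filter_not (P2 d) (fun ij => m ij.1 = ij.2),
    ← Finset.prod_pow_eq_pow_sum, ← Finset.prod_pow_eq_pow_sum]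
  congr 1
  · refine Finset.prod_congr rfl fun ij hij => ?_
    rw [if_pos (Finset.mem_filter.1 hij).2]
  · refine Finset.prod_congr rfl fun ij hij => ?_
    rw [if_neg (Finset.mem_filter.1 hij).2]

/-- **The area law.** -/
theorem area (hm : ∀ i, m (m i) = i) {z : G} (hz : z ^ ℓ = 1) (hc : ∀ g : G, z * g = g * z)
    (w : Pq d → G → ℝ) (hw : ∀ p, Measurable (w p)) (C0 : ℝ) (hC0 : ∀ p g, w p g ≤ C0)
    (c : Pq d → G → ℝ) (hcm : ∀ p, Measurable (c p)) (hcz : ∀ p g, c p (z * g) = c p g)
    (hc0 : ∀ p g, 0 < c p g) (hcw : ∀ p g, c p g ≤ w p g) {t q : ℝ} (ht0 : 0 ≤ t)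
    (ht1 : t ≤ 1) (hq0 : 0 ≤ q) (hq : q * KF (ZMod ℓ) d ≤ 1)
    (hpr : ∀ p ∈ Bx u v, ∀ g, (1 - pr m t q p) * w p g ≤ c p g)
    (f : G → ℝ) (hf : Measurable f) (hf1 : ∀ g, |f g| ≤ 1)
    (hfz : ∀ g, ∑ k ∈ Finset.range ℓ, f (z ^ k * g) = 0) (x : V d)
    (γ : List (Fin d × Bool)) (A : Fin d × Fin d → ℕ)
    (hA : ∀ n : Pq d → ZMod ℓ, (∀ p, p ∉ Bx u v → n p = 0) →
      (∀ l, bdy n l = csl x γ (Pi.single l 1)) →
      ∀ ij ∈ P2 d, A ij ≤ (Nij (Bx u v) n ij).card) :
    |∫ U, f (ph U x γ) * wt (Bx u v) w U ∂PP (Lk d) μ| ≤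
      (AF (ZMod ℓ) d ^ (γ.length + 1) *
        ∏ ij ∈ P2 d, (if m ij.1 = ij.2 then (1 + t) / 2 else q * KF (ZMod ℓ) d) ^ A ij) *
        ∫ U, wt (Bx u v) w U ∂PP (Lk d) μ := by
  classical
  have hA1 : 1 ≤ AF (ZMod ℓ) d := AF_one _ d
  have hB : (1 : ℝ) ≤ 64 * (d + 1 : ℝ) := by
    have : (0 : ℝ) ≤ d := Nat.cast_nonneg d
    linarith
  have hK1 : 1 ≤ KF (ZMod ℓ) d := one_le_pow₀ (by nlinarith)
  have hq1 : q ≤ 1 := by nlinarith
  have h1 := expand_bound (m := m) (u := u) (v := v) μ hz hc w hw C0 hC0 c hcm hcz hc0 hcw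
    ht0 ht1 hq0 hq1 hpr f hf hf1 hfz (fun U => ph U x γ) (ph_meas x γ) (csl x γ)
    (fun a U => ph_tws hz hc a U x γ)
  refine h1.trans (mul_le_mul_of_nonneg_right ?_ (integral_nonneg fun U =>
    Finset.prod_nonneg fun p _ => ((hc0 p _).trans_le (hcw p _)).le))
  rw [prod_P2]
  set α : ℕ := ∑ ij ∈ (P2 d).filter (fun ij => m ij.1 = ij.2), A ij with hα
  set β : ℕ := ∑ ij ∈ (P2 d).filter (fun ij => ¬ m ij.1 = ij.2), A ij with hβ
  have hdis : ∀ (n : Pq d → ZMod ℓ) (P : Finset (Fin d × Fin d)),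
      ∑ ij ∈ P, (Nij (Bx u v) n ij).card = (P.biUnion (Nij (Bx u v) n)).card := by
    intro n P
    rw [Finset.card_biUnion]
    intro ij _ ij' _ hne
    rw [Function.onFun, Finset.disjoint_left]
    intro p hp hp'
    rw [mem_Nij] at hp hp'
    exact hne (hp.2.2.symm.trans hp'.2.2)
  have h2 := perc_area (F := ZMod ℓ) (u := u) (v := v) (VC := vs x γ)
    (C := fun l => csl x γ (Pi.single l 1)) hm (fun l hl => csl_vs hl) ht0 ht1 hq0 hq
    (α := α) (γ := β) (by
      intro n hn
      have h3 := hA n hn.out hn.bd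
      constructor
      · have h4 : α ≤ ∑ ij ∈ (P2 d).filter (fun ij => m ij.1 = ij.2),
            (Nij (Bx u v) n ij).card :=
          Finset.sum_le_sum fun ij hij => h3 ij (Finset.mem_filter.1 hij).1
        refine h4.trans ?_
        rw [hdis]
        refine Finset.card_le_card fun p hp => ?_
        rw [Finset.mem_biUnion] at hp
        obtain ⟨ij, hij, hp⟩ := hp
        rw [mem_Nij] at hp
        refine mem_Ys.2 ⟨hp.1, hp.2.1, ?_⟩
        rw [hp.2.2]
        exact (Finset.mem_filter.1 hij).2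
      · have h4 : β ≤ ∑ ij ∈ (P2 d).filter (fun ij => ¬ m ij.1 = ij.2),
            (Nij (Bx u v) n ij).card :=
          Finset.sum_le_sum fun ij hij => h3 ij (Finset.mem_filter.1 hij).1
        refine h4.trans ?_
        rw [hdis]
        refine Finset.card_le_card fun p hp => ?_
        rw [Finset.mem_biUnion] at hp
        obtain ⟨ij, hij, hp⟩ := hp
        rw [mem_Nij] at hp
        refine mem_Ym.2 ⟨hp.1, hp.2.1, ?_⟩
        rw [hp.2.2]
        exact (Finset.mem_filter.1 hij).2)
  refine h2.trans ?_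
  have h3 : AF (ZMod ℓ) d ^ (vs x γ).card ≤ AF (ZMod ℓ) d ^ (γ.length + 1) :=
    pow_le_pow_right₀ hA1 (vs_card _ _)
  have h4 : 0 ≤ (1 + t) / 2 := by linarith
  have h5 : 0 ≤ q * KF (ZMod ℓ) d := by positivity
  calc _ = AF (ZMod ℓ) d ^ (vs x γ).card * (((1 + t) / 2) ^ α * (q * KF (ZMod ℓ) d) ^ β) := by
        ring
    _ ≤ _ := mul_le_mul_of_nonneg_right h3 (by positivity)

end core

/-! ### the cells with winding number different from zero -/

/-- the winding number of the projection of a path around a cell -/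
def wind (i j : Fin d) (s : ℤ × ℤ) (x : V d) (γ : List (Fin d × Bool)) : ℤ :=
  cs (fun l => if l.2 = j ∧ s.1 < l.1 i ∧ l.1 j = s.2 then 1 else 0) x γ

theorem wind_cast {ℓ : ℕ} [Fact ℓ.Prime] (i j : Fin d) (s : ℤ × ℤ) (x : V d)
    (γ : List (Fin d × Bool)) :
    ((wind i j s x γ : ℤ) : ZMod ℓ) = cs (av (F := ZMod ℓ) i j s.1 s.2) x γ := by
  unfold wind
  rw [cs_cast]
  congr 1
  funext l
  unfold av
  split_ifs <;> simp

/-- the area of the projection of a path -/
noncomputable def ar (ℓ : ℕ) (i j : Fin d) (x : V d) (γ : List (Fin d × Bool)) : ℕ :=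
  {s : ℤ × ℤ | ¬ (ℓ : ℤ) ∣ wind i j s x γ}.ncard

theorem ar_le {ℓ : ℕ} [Fact ℓ.Prime] {S : Finset (Pq d)} (hS : ∀ p ∈ S, p.2.1 < p.2.2)
    {x : V d} {γ : List (Fin d × Bool)} {i j : Fin d} (hij : i < j) {n : Pq d → ZMod ℓ}
    (hn : ∀ p, p ∉ S → n p = 0) (hb : ∀ l, bdy n l = csl x γ (Pi.single l 1)) :
    ar ℓ i j x γ ≤ (Nij S n (i, j)).card := by
  classical
  have h1 : {s : ℤ × ℤ | ¬ (ℓ : ℤ) ∣ wind i j s x γ} ⊆
      ((Nij S n (i, j)).image fun p => (p.1 i, p.1 j) : Finset (ℤ × ℤ)) := by
    intro s hs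
    have h2 : cs (av (F := ZMod ℓ) i j s.1 s.2) x γ ≠ 0 := by
      rw [← wind_cast]
      intro h
      exact hs ((ZMod.intCast_zmod_eq_zero_iff_dvd _ _).1 h)
    obtain ⟨p, hp, h3⟩ := wind_cell hS hij hn hb h2
    rw [Finset.mem_coe, Finset.mem_image]
    exact ⟨p, hp, h3⟩
  unfold ar
  refine (Set.ncard_le_ncard h1 (Finset.finite_toSet _)).trans ?_
  rw [Set.ncard_coe_finset]
  exact Finset.card_image_le

/-- the boundary of a rectangle -/
def rect (i j : Fin d) (R T : ℕ) : List (Fin d × Bool) :=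
  List.replicate R (i, true) ++ (List.replicate T (j, true) ++
    (List.replicate R (i, false) ++ List.replicate T (j, false)))

theorem cs_append {A : Type*} [AddGroup A] (a : Lk d → A) (x : V d)
    (γ γ' : List (Fin d × Bool)) : cs a x (γ ++ γ') = cs a x γ + cs a (en x γ) γ' := by
  induction γ generalizing x with
  | nil => simp [cs, en]
  | cons s γ ih =>
    obtain ⟨k, b⟩ := s
    cases b
    · simp only [List.cons_append, cs, en, ih, add_assoc]
    · simp only [List.cons_append, cs, en, ih, add_assoc]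

theorem en_append (x : V d) (γ γ' : List (Fin d × Bool)) : en x (γ ++ γ') = en (en x γ) γ' := by
  induction γ generalizing x with
  | nil => simp [en]
  | cons s γ ih =>
    obtain ⟨k, b⟩ := s
    cases b
    · simp only [List.cons_append, en, ih]
    · simp only [List.cons_append, en, ih]

theorem en_true (x : V d) (i : Fin d) (n : ℕ) :
    en x (List.replicate n (i, true)) = x + (n : ℤ) • e i := by
  induction n generalizing x with
  | zero => simp [en]
  | succ n ih =>
    rw [List.replicate_succ, en, ih]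
    push_cast
    rw [add_smul, one_smul]
    abel

theorem en_false (x : V d) (i : Fin d) (n : ℕ) :
    en x (List.replicate n (i, false)) = x - (n : ℤ) • e i := by
  induction n generalizing x with
  | zero => simp [en]
  | succ n ih =>
    rw [List.replicate_succ, en, ih]
    push_cast
    rw [add_smul, one_smul]
    abel

theorem cs_true {A : Type*} [AddCommGroup A] (a : Lk d → A) (x : V d) (i : Fin d) (n : ℕ) :
    cs a x (List.replicate n (i, true)) = ∑ k ∈ Finset.range n, a (x + (k : ℤ) • e i, i) := by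
  induction n generalizing x with
  | zero => simp [cs]
  | succ n ih =>
    rw [List.replicate_succ, cs, ih, Finset.sum_range_succ']
    rw [add_comm]
    congr 1
    · refine Finset.sum_congr rfl fun k _ => ?_
      push_cast
      rw [add_smul, one_smul]
      congr 2
      abel
    · simp

theorem cs_false {A : Type*} [AddCommGroup A] (a : Lk d → A) (x : V d) (i : Fin d) (n : ℕ) :
    cs a (x + (n : ℤ) • e i) (List.replicate n (i, false)) =
      - ∑ k ∈ Finset.range n, a (x + (k : ℤ) • e i, i) := by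
  induction n with
  | zero => simp [cs]
  | succ n ih =>
    rw [List.replicate_succ, cs, Finset.sum_range_succ]
    have h1 : x + ((n + 1 : ℕ) : ℤ) • e i - e i = x + (n : ℤ) • e i := by
      push_cast
      rw [add_smul, one_smul]
      abel
    rw [h1, ih]
    abel

theorem en_rect (x : V d) (i j : Fin d) (R T : ℕ) : en x (rect i j R T) = x := by
  unfold rect
  rw [en_append, en_append, en_append, en_true, en_true, en_false, en_false]
  abel

theorem cs_rect {F : Type*} [Field F] (a : Lk d → F) (x : V d) (i j : Fin d) (R T : ℕ) :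
    cs a x (rect i j R T) = ls x i j R T a := by
  unfold rect ls
  rw [cs_append, cs_append, cs_append, en_true, en_true, cs_true, cs_true]
  have h1 : x + (R : ℤ) • e i + (T : ℤ) • e j = (x + (T : ℤ) • e j) + (R : ℤ) • e i := by abel
  rw [h1, cs_false, en_false]
  have h2 : x + (T : ℤ) • e j + (R : ℤ) • e i - (R : ℤ) • e i = x + (T : ℤ) • e j := by abel
  rw [h2, cs_false]
  ring

theorem rect_length (i j : Fin d) (R T : ℕ) : (rect i j R T).length = 2 * (R + T) := by
  unfold rect
  simp only [List.length_append, List.length_replicate]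
  ring

theorem rect_le {ℓ : ℕ} [Fact ℓ.Prime] {S : Finset (Pq d)} (hS : ∀ p ∈ S, p.2.1 < p.2.2)
    {x : V d} {i j : Fin d} (hij : i < j) {R T : ℕ} {n : Pq d → ZMod ℓ}
    (hn : ∀ p, p ∉ S → n p = 0)
    (hb : ∀ l, bdy n l = csl x (rect i j R T) (Pi.single l 1)) :
    R * T ≤ (Nij S n (i, j)).card := by
  classical
  have h2 : (Finset.range R ×ˢ Finset.range T) ⊆
      (Nij S n (i, j)).image fun p => ((p.1 i - x i).toNat, (p.1 j - x j).toNat) := by
    rintro ⟨k, l⟩ hkl
    rw [Finset.mem_product, Finset.mem_range, Finset.mem_range] at hkl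
    have h1 : cs (av (F := ZMod ℓ) i j (x i + k) (x j + l)) x (rect i j R T) ≠ 0 := by
      rw [cs_rect, ls_av hij hkl.1 hkl.2]
      exact one_ne_zero
    obtain ⟨p, hp, h3⟩ := wind_cell hS hij hn hb h1
    rw [Prod.mk.injEq] at h3
    rw [Finset.mem_image]
    refine ⟨p, hp, ?_⟩
    rw [h3.1, h3.2]
    simp
  have h3 := (Finset.card_le_card h2).trans Finset.card_image_le
  rwa [Finset.card_product, Finset.card_range, Finset.card_range] at h3

end Pool.Agent.T2H03.AL
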