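import Mathlib
import Pool.Agent.T2H03.AL.Path

/-!
# The area law: final form
-/

set_option autoImplicit false
set_option linter.unusedSectionVars false

open MeasureTheory Measure Set

namespace Pool.Agent.T2H03.AL

open Pool.Agent.T2H03.YM

variable {d : ℕ} {G : Type*} [Group G] [MeasurableSpace G] [MeasurableMul₂ G] [MeasurableInv G]

section center

variable {ℓ : ℕ} [Fact ℓ.Prime] {z : G}

theorem zp_one (z : G) : zp z (1 : ZMod ℓ) = z := by
  have : Fact (1 < ℓ) := ⟨(Fact.out : ℓ.Prime).one_lt⟩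
  unfold zp
  rw [ZMod.val_one, pow_one]

/-- the smallest value on the coset -/
noncomputable def cm (ℓ : ℕ) (z : G) (w : G → ℝ) (g : G) : ℝ := ⨅ s : ZMod ℓ, w (zp z s * g)

theorem cm_meas {w : G → ℝ} (hw : Measurable w) : Measurable (cm ℓ z w) := by
  unfold cm
  exact Measurable.iInf fun s => hw.comp (measurable_const_mul _)

theorem cm_inv (hz : z ^ ℓ = 1) (w : G → ℝ) (g : G) :
    cm ℓ z w (z * g) = cm ℓ z w g := by
  unfold cm
  refine Equiv.iInf_congr (Equiv.addRight (1 : ZMod ℓ)) fun s => ?_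
  simp only [Equiv.coe_addRight]
  rw [zp_add hz, zp_one, mul_assoc]

theorem cm_pos {w : G → ℝ} (hw : ∀ g, 0 < w g) (g : G) : 0 < cm ℓ z w g := by
  unfold cm
  obtain ⟨s, hs⟩ := exists_eq_ciInf_of_finite (f := fun s : ZMod ℓ => w (zp z s * g))
  rw [← hs]
  exact hw _

theorem cm_le (w : G → ℝ) (g : G) : cm ℓ z w g ≤ w g := by
  unfold cm
  have h := ciInf_le (Set.finite_range fun s : ZMod ℓ => w (zp z s * g)).bddBelow (0 : ZMod ℓ)
  simp only [zp_zero, one_mul] at h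
  exact h

theorem le_cm (hz : z ^ ℓ = 1) {w : G → ℝ} {B : ℝ} (hB : 0 < B)
    (h : ∀ g (k : ℕ), w (z ^ k * g) ≤ B * w g) (g : G) : B⁻¹ * w g ≤ cm ℓ z w g := by
  unfold cm
  refine le_ciInf fun s => ?_
  rw [inv_mul_le_iff₀ hB]
  have h1 := h (zp z s * g) (-s).val
  have h2 : z ^ (-s).val * (zp z s * g) = g := by
    show zp z (-s) * (zp z s * g) = g
    rw [← mul_assoc, ← zp_add hz, neg_add_cancel, zp_zero, one_mul]
  rw [h2] at h1
  exact h1

end center

variable (μ : Measure G) [IsProbabilityMeasure μ] [μ.IsMulLeftInvariant] {ℓ : ℕ} [Fact ℓ.Prime]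
  {m : Fin d → Fin d}

theorem fin_core (hm : ∀ i, m (m i) = i) {z : G} (hz : z ^ ℓ = 1)
    (hc : ∀ g : G, z * g = g * z) (w : Pq d → G → ℝ) (hw : ∀ p, Measurable (w p))
    (hwb : ∀ p, ∃ C : ℝ, ∀ g, w p g ≤ C) (hw0 : ∀ p g, 0 < w p g) {δ B : ℝ} (hδ0 : 0 ≤ δ)
    (hδ : δ * KF (ZMod ℓ) d ≤ 1) (hB : 1 ≤ B)
    (hmix : ∀ p : Pq d, p.2.1 < p.2.2 → m p.2.1 ≠ p.2.2 → ∀ g (k : ℕ),
      w p (z ^ k * g) ≤ (1 + δ) * w p g)
    (hsh : ∀ p : Pq d, p.2.1 < p.2.2 → m p.2.1 = p.2.2 → ∀ g (k : ℕ),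
      w p (z ^ k * g) ≤ B * w p g)
    (f : G → ℝ) (hf : Measurable f) (hf1 : ∀ g, |f g| ≤ 1)
    (hfz : ∀ g, ∑ k ∈ Finset.range ℓ, f (z ^ k * g) = 0) (u v x : V d)
    (γ : List (Fin d × Bool)) (A : Fin d × Fin d → ℕ)
    (hA : ∀ n : Pq d → ZMod ℓ, (∀ p, p ∉ Bx u v → n p = 0) →
      (∀ l, bdy n l = csl x γ (Pi.single l 1)) →
      ∀ ij ∈ P2 d, A ij ≤ (Nij (Bx u v) n ij).card) :
    |ex μ (Bx u v) w (fun U => f (ph U x γ))| ≤ AF (ZMod ℓ) d ^ (γ.length + 1) *
      ∏ ij ∈ P2 d, (if m ij.1 = ij.2 then 1 - 1 / (2 * B) else δ * KF (ZMod ℓ) d) ^ A ij := by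
  classical
  choose Cw hCw using hwb
  set C0 : ℝ := 1 + ∑ p ∈ Bx u v, |Cw p| with hC0
  have hsum0 : 0 ≤ ∑ p ∈ Bx u v, |Cw p| := Finset.sum_nonneg fun p _ => abs_nonneg _
  set w' : Pq d → G → ℝ := fun p g => if p ∈ Bx u v then w p g else 1 with hw'
  set c' : Pq d → G → ℝ := fun p g => if p ∈ Bx u v then cm ℓ z (w p) g else 1 with hc'
  have hwt : ∀ U : Lk d → G, wt (Bx u v) w U = wt (Bx u v) w' U := by
    intro U
    unfold wt
    refine Finset.prod_congr rfl fun p hp => ?_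
    simp only [hw']
    rw [if_pos hp]
  have hK1 : 1 ≤ KF (ZMod ℓ) d := by
    have hA1 : 1 ≤ AF (ZMod ℓ) d := AF_one _ d
    have hB : (1 : ℝ) ≤ 64 * (d + 1 : ℝ) := by
      have : (0 : ℝ) ≤ d := Nat.cast_nonneg d
      linarith
    exact one_le_pow₀ (by nlinarith)
  set t : ℝ := 1 - B⁻¹ with ht
  set q : ℝ := 1 - (1 + δ)⁻¹ with hq
  have hBi : B⁻¹ ≤ 1 := inv_le_one_of_one_le₀ hB
  have hBi0 : 0 < B⁻¹ := by positivity
  have hδi : (1 + δ)⁻¹ ≤ 1 := inv_le_one_of_one_le₀ (by linarith)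
  have hδi0 : 0 < (1 + δ)⁻¹ := by positivity
  have hqδ : q ≤ δ := by
    rw [hq]
    have h1 : (1 + δ)⁻¹ = 1 - δ * (1 + δ)⁻¹ := by
      field_simp
      ring
    have h2 : δ * (1 + δ)⁻¹ ≤ δ * 1 := mul_le_mul_of_nonneg_left hδi hδ0
    linarith
  have hq0 : 0 ≤ q := by rw [hq]; linarith
  have hqK : q * KF (ZMod ℓ) d ≤ δ * KF (ZMod ℓ) d :=
    mul_le_mul_of_nonneg_right hqδ (by linarith)
  have h1 := area μ (u := u) (v := v) hm hz hc w' (fun p => by
      simp only [hw']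
      split_ifs
      · exact hw p
      · exact measurable_const) C0 (fun p g => by
      simp only [hw']
      split_ifs with hp
      · have a1 := Finset.single_le_sum (f := fun p => |Cw p|) (fun p _ => abs_nonneg _) hp
        have a2 := hCw p g
        have a3 := le_abs_self (Cw p)
        rw [hC0]
        linarith
      · rw [hC0]; linarith) c' (fun p => by
      simp only [hc']
      split_ifs
      · exact cm_meas (hw p)
      · exact measurable_const) (fun p g => by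
      simp only [hc']
      split_ifs
      · exact cm_inv hz _ _
      · rfl) (fun p g => by
      simp only [hc']
      split_ifs
      · exact cm_pos (hw0 p) g
      · exact one_pos) (fun p g => by
      simp only [hc', hw']
      split_ifs
      · exact cm_le _ _
      · exact le_rfl) (t := t) (q := q) (by rw [ht]; linarith) (by rw [ht]; linarith) hq0
    (hqK.trans hδ) (fun p hp g => by
      simp only [hc', hw']
      rw [if_pos hp, if_pos hp]
      have hlt := Bx_lt p hp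
      unfold pr
      split_ifs with hmp
      · have := le_cm (ℓ := ℓ) hz (by linarith : (0 : ℝ) < B) (hsh p hlt hmp) g
        rw [ht]
        rwa [sub_sub_cancel]
      · have := le_cm (ℓ := ℓ) hz (by linarith : (0 : ℝ) < 1 + δ) (hmix p hlt hmp) g
        rw [hq]
        rwa [sub_sub_cancel]) f hf hf1 hfz x γ A hA
  have hw'0 : ∀ p g, 0 < w' p g := by
    intro p g
    simp only [hw']
    split_ifs
    · exact hw0 p g
    · exact one_pos
  have hZ : 0 < ∫ U, wt (Bx u v) w' U ∂PP (Lk d) μ := by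
    have hint : Integrable (fun U : Lk d → G => wt (Bx u v) w' U) (PP (Lk d) μ) := by
      refine Integrable.of_bound (C := C0 ^ (Bx u v).card) ?_
        (Filter.Eventually.of_forall fun U => ?_)
      · refine (wt_meas (Bx u v) w' fun p => ?_).aestronglyMeasurable
        simp only [hw']
        split_ifs
        · exact hw p
        · exact measurable_const
      · rw [Real.norm_eq_abs]
        unfold wt
        rw [Finset.abs_prod, ← Finset.prod_const]
        refine Finset.prod_le_prod (fun _ _ => abs_nonneg _) fun p hp => ?_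
        rw [abs_of_pos (hw'0 p _)]
        simp only [hw']
        rw [if_pos hp]
        have a1 := Finset.single_le_sum (f := fun p => |Cw p|) (fun p _ => abs_nonneg _) hp
        have a2 := hCw p (hol p U)
        have a3 := le_abs_self (Cw p)
        rw [hC0]
        linarith
    have hpos : ∀ U : Lk d → G, 0 < wt (Bx u v) w' U := fun U =>
      Finset.prod_pos fun p _ => hw'0 p _
    rw [integral_pos_iff_support_of_nonneg (fun U => (hpos U).le) hint]
    have : Function.support (fun U : Lk d → G => wt (Bx u v) w' U) = univ := by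
      ext U
      simp only [Function.mem_support, mem_univ, iff_true]
      exact (hpos U).ne'
    rw [this]
    simp
  unfold ex
  simp only [hwt]
  rw [abs_div, abs_of_pos hZ, div_le_iff₀ hZ]
  refine h1.trans (mul_le_mul_of_nonneg_right ?_ hZ.le)
  have hA1 : 1 ≤ AF (ZMod ℓ) d := AF_one _ d
  refine mul_le_mul_of_nonneg_left ?_ (by positivity)
  refine Finset.prod_le_prod (fun ij _ => pow_nonneg ?_ _) fun ij _ => pow_le_pow_left₀ ?_ ?_ _
  · split_ifs
    · rw [ht]; linarith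
    · positivity
  · split_ifs
    · rw [ht]; linarith
    · positivity
  · split_ifs
    · rw [ht]
      have : 1 / (2 * B) = B⁻¹ / 2 := by field_simp
      rw [this]
      linarith
    · exact hqK

/-- the area law for all closed paths -/
theorem fin_path (hm : ∀ i, m (m i) = i) {z : G} (hz : z ^ ℓ = 1)
    (hc : ∀ g : G, z * g = g * z) (w : Pq d → G → ℝ) (hw : ∀ p, Measurable (w p))
    (hwb : ∀ p, ∃ C : ℝ, ∀ g, w p g ≤ C) (hw0 : ∀ p g, 0 < w p g) {δ B : ℝ} (hδ0 : 0 ≤ δ)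
    (hδ : δ * KF (ZMod ℓ) d ≤ 1) (hB : 1 ≤ B)
    (hmix : ∀ p : Pq d, p.2.1 < p.2.2 → m p.2.1 ≠ p.2.2 → ∀ g (k : ℕ),
      w p (z ^ k * g) ≤ (1 + δ) * w p g)
    (hsh : ∀ p : Pq d, p.2.1 < p.2.2 → m p.2.1 = p.2.2 → ∀ g (k : ℕ),
      w p (z ^ k * g) ≤ B * w p g)
    (f : G → ℝ) (hf : Measurable f) (hf1 : ∀ g, |f g| ≤ 1)
    (hfz : ∀ g, ∑ k ∈ Finset.range ℓ, f (z ^ k * g) = 0) (u v x : V d)
    (γ : List (Fin d × Bool)) :
    |ex μ (Bx u v) w (fun U => f (ph U x γ))| ≤ AF (ZMod ℓ) d ^ (γ.length + 1) *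
      ∏ ij ∈ P2 d, (if m ij.1 = ij.2 then 1 - 1 / (2 * B) else δ * KF (ZMod ℓ) d) ^
        ar ℓ ij.1 ij.2 x γ :=
  fin_core μ hm hz hc w hw hwb hw0 hδ0 hδ hB hmix hsh f hf hf1 hfz u v x γ
    (fun ij => ar ℓ ij.1 ij.2 x γ)
    (fun _ hn hb _ hij => ar_le Bx_lt (mem_P2.1 hij) hn hb)

/-- the area law for the rectangles -/
theorem fin_rect (hm : ∀ i, m (m i) = i) {z : G} (hz : z ^ ℓ = 1)
    (hc : ∀ g : G, z * g = g * z) (w : Pq d → G → ℝ) (hw : ∀ p, Measurable (w p))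
    (hwb : ∀ p, ∃ C : ℝ, ∀ g, w p g ≤ C) (hw0 : ∀ p g, 0 < w p g) {δ B : ℝ} (hδ0 : 0 ≤ δ)
    (hδ : δ * KF (ZMod ℓ) d ≤ 1) (hB : 1 ≤ B)
    (hmix : ∀ p : Pq d, p.2.1 < p.2.2 → m p.2.1 ≠ p.2.2 → ∀ g (k : ℕ),
      w p (z ^ k * g) ≤ (1 + δ) * w p g)
    (hsh : ∀ p : Pq d, p.2.1 < p.2.2 → m p.2.1 = p.2.2 → ∀ g (k : ℕ),
      w p (z ^ k * g) ≤ B * w p g)
    (f : G → ℝ) (hf : Measurable f) (hf1 : ∀ g, |f g| ≤ 1)
    (hfz : ∀ g, ∑ k ∈ Finset.range ℓ, f (z ^ k * g) = 0) (u v x : V d) {i j : Fin d}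
    (hij : i < j) (R T : ℕ) :
    |ex μ (Bx u v) w (fun U => f (ph U x (rect i j R T)))| ≤
      AF (ZMod ℓ) d ^ (2 * (R + T) + 1) *
        (if m i = j then 1 - 1 / (2 * B) else δ * KF (ZMod ℓ) d) ^ (R * T) := by
  have h1 := fin_core μ hm hz hc w hw hwb hw0 hδ0 hδ hB hmix hsh f hf hf1 hfz u v x
    (rect i j R T) (fun ij => if ij = (i, j) then R * T else 0) (by
      intro n hn hb ij _
      split_ifs with h
      · subst h
        exact rect_le Bx_lt hij hn hb
      · exact Nat.zero_le _)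
  rw [rect_length] at h1
  refine h1.trans (le_of_eq ?_)
  congr 1
  rw [Finset.prod_eq_single (i, j)]
  · simp
  · intro ij _ hne
    rw [if_neg hne, pow_zero]
  · intro h
    exact absurd (mem_P2.2 hij) h

end Pool.Agent.T2H03.AL
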